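import Mathlib

/-!
# A 16-dimensional local symmetric algebra

`B K` is the graded algebra with basis `c0` (unit), `c1, ..., c4` (degree one: `x0, ..., x3`),
`c5, ..., c10` (degree two: `x0 x0, x0 x1, x0 x2, x1 x1, x2 x2, x3 x3`), `c11, ..., c14`
(degree three, dual to `x0, ..., x3`) and `c15` (degree four).
-/

set_option autoImplicit false
set_option maxHeartbeats 4000000

universe u

namespace Pool.Agent.H468R3

/-- coordinates on the algebra -/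
@[ext] structure B (K : Type u) : Type u where
  c0 : K
  c1 : K
  c2 : K
  c3 : K
  c4 : K
  c5 : K
  c6 : K
  c7 : K
  c8 : K
  c9 : K
  c10 : K
  c11 : K
  c12 : K
  c13 : K
  c14 : K
  c15 : K

namespace B

variable {K : Type u}

section
variable [CommRing K]

instance : Zero (B K) := ⟨⟨0, 0, 0, 0, 0, 0, 0, 0, 0, 0, 0, 0, 0, 0, 0, 0⟩⟩
instance : One (B K) := ⟨⟨1, 0, 0, 0, 0, 0, 0, 0, 0, 0, 0, 0, 0, 0, 0, 0⟩⟩
instance : Add (B K) := ⟨fun a b => ⟨a.c0 + b.c0, a.c1 + b.c1, a.c2 + b.c2, a.c3 + b.c3, a.c4 + b.c4, a.c5 + b.c5, a.c6 + b.c6, a.c7 + b.c7, a.c8 + b.c8, a.c9 + b.c9, a.c10 + b.c10, a.c11 + b.c11, a.c12 + b.c12, a.c13 + b.c13, a.c14 + b.c14, a.c15 + b.c15⟩⟩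
instance : Neg (B K) := ⟨fun a => ⟨-a.c0, -a.c1, -a.c2, -a.c3, -a.c4, -a.c5, -a.c6, -a.c7, -a.c8, -a.c9, -a.c10, -a.c11, -a.c12, -a.c13, -a.c14, -a.c15⟩⟩
instance : SMul K (B K) := ⟨fun t a => ⟨t * a.c0, t * a.c1, t * a.c2, t * a.c3, t * a.c4, t * a.c5, t * a.c6, t * a.c7, t * a.c8, t * a.c9, t * a.c10, t * a.c11, t * a.c12, t * a.c13, t * a.c14, t * a.c15⟩⟩
instance : Mul (B K) := ⟨fun a b => ⟨
    a.c0 * b.c0,
    a.c0 * b.c1 + a.c1 * b.c0,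
    a.c0 * b.c2 + a.c2 * b.c0,
    a.c0 * b.c3 + a.c3 * b.c0,
    a.c0 * b.c4 + a.c4 * b.c0,
    a.c0 * b.c5 + a.c1 * b.c1 + a.c2 * b.c3 + a.c4 * b.c2 + a.c5 * b.c0,
    a.c0 * b.c6 + a.c1 * b.c2 + a.c2 * b.c3 + a.c3 * b.c4 + a.c4 * b.c1 + a.c6 * b.c0,
    a.c0 * b.c7 + a.c1 * b.c3 + a.c2 * b.c4 + a.c3 * b.c1 + a.c4 * b.c2 + a.c7 * b.c0,
    a.c0 * b.c8 + a.c2 * b.c2 - a.c2 * b.c4 - a.c3 * b.c1 + a.c3 * b.c4 - a.c4 * b.c2 + a.c8 * b.c0,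
    a.c0 * b.c9 + a.c2 * b.c4 + a.c3 * b.c3 + a.c4 * b.c1 + a.c9 * b.c0,
    a.c0 * b.c10 - a.c2 * b.c3 + a.c3 * b.c1 - a.c3 * b.c4 - a.c4 * b.c1 + a.c4 * b.c4 + a.c10 * b.c0,
    a.c0 * b.c11 + a.c1 * b.c5 - a.c1 * b.c7 + a.c2 * b.c10 - a.c3 * b.c5 + a.c3 * b.c7 - a.c3 * b.c9 - a.c3 * b.c10 + a.c5 * b.c1 - a.c5 * b.c3 + a.c6 * b.c3 - a.c6 * b.c4 - a.c7 * b.c1 - a.c8 * b.c3 - a.c9 * b.c3 + a.c9 * b.c4 + a.c11 * b.c0,
    a.c0 * b.c12 + a.c2 * b.c8 + a.c3 * b.c5 - a.c3 * b.c6 - a.c4 * b.c5 - a.c4 * b.c8 - a.c4 * b.c10 + a.c8 * b.c2 - a.c8 * b.c4 - a.c9 * b.c4 + a.c10 * b.c1 - a.c10 * b.c4 + a.c12 * b.c0,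
    a.c0 * b.c13 - a.c1 * b.c5 + a.c1 * b.c6 - a.c1 * b.c8 - a.c1 * b.c9 - a.c3 * b.c7 + a.c3 * b.c9 - a.c4 * b.c6 + a.c4 * b.c7 + a.c4 * b.c8 - a.c5 * b.c1 + a.c5 * b.c2 - a.c6 * b.c2 + a.c7 * b.c1 - a.c7 * b.c3 - a.c9 * b.c1 + a.c9 * b.c3 - a.c10 * b.c1 + a.c13 * b.c0,
    a.c0 * b.c14 - a.c1 * b.c6 + a.c1 * b.c9 - a.c2 * b.c8 - a.c2 * b.c9 - a.c2 * b.c10 + a.c4 * b.c6 - a.c4 * b.c7 + a.c4 * b.c10 - a.c5 * b.c2 - a.c6 * b.c3 + a.c6 * b.c4 + a.c7 * b.c3 - a.c7 * b.c4 - a.c8 * b.c2 + a.c8 * b.c3 - a.c10 * b.c2 + a.c10 * b.c4 + a.c14 * b.c0,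
    a.c0 * b.c15 + a.c1 * b.c11 + a.c2 * b.c12 + a.c3 * b.c13 + a.c4 * b.c14 + a.c5 * b.c5 - a.c5 * b.c7 + a.c6 * b.c10 - a.c7 * b.c5 + a.c7 * b.c7 - a.c7 * b.c9 - a.c7 * b.c10 + a.c8 * b.c8 - a.c9 * b.c7 + a.c9 * b.c9 + a.c10 * b.c6 - a.c10 * b.c7 + a.c10 * b.c10 + a.c11 * b.c1 + a.c12 * b.c2 + a.c13 * b.c3 + a.c14 * b.c4 + a.c15 * b.c0⟩⟩

@[simp] theorem zero_c0 : (0 : B K).c0 = 0 := rfl
@[simp] theorem zero_c1 : (0 : B K).c1 = 0 := rfl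
@[simp] theorem zero_c2 : (0 : B K).c2 = 0 := rfl
@[simp] theorem zero_c3 : (0 : B K).c3 = 0 := rfl
@[simp] theorem zero_c4 : (0 : B K).c4 = 0 := rfl
@[simp] theorem zero_c5 : (0 : B K).c5 = 0 := rfl
@[simp] theorem zero_c6 : (0 : B K).c6 = 0 := rfl
@[simp] theorem zero_c7 : (0 : B K).c7 = 0 := rfl
@[simp] theorem zero_c8 : (0 : B K).c8 = 0 := rfl
@[simp] theorem zero_c9 : (0 : B K).c9 = 0 := rfl
@[simp] theorem zero_c10 : (0 : B K).c10 = 0 := rfl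
@[simp] theorem zero_c11 : (0 : B K).c11 = 0 := rfl
@[simp] theorem zero_c12 : (0 : B K).c12 = 0 := rfl
@[simp] theorem zero_c13 : (0 : B K).c13 = 0 := rfl
@[simp] theorem zero_c14 : (0 : B K).c14 = 0 := rfl
@[simp] theorem zero_c15 : (0 : B K).c15 = 0 := rfl
@[simp] theorem one_c0 : (1 : B K).c0 = 1 := rfl
@[simp] theorem one_c1 : (1 : B K).c1 = 0 := rfl
@[simp] theorem one_c2 : (1 : B K).c2 = 0 := rfl
@[simp] theorem one_c3 : (1 : B K).c3 = 0 := rfl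
@[simp] theorem one_c4 : (1 : B K).c4 = 0 := rfl
@[simp] theorem one_c5 : (1 : B K).c5 = 0 := rfl
@[simp] theorem one_c6 : (1 : B K).c6 = 0 := rfl
@[simp] theorem one_c7 : (1 : B K).c7 = 0 := rfl
@[simp] theorem one_c8 : (1 : B K).c8 = 0 := rfl
@[simp] theorem one_c9 : (1 : B K).c9 = 0 := rfl
@[simp] theorem one_c10 : (1 : B K).c10 = 0 := rfl
@[simp] theorem one_c11 : (1 : B K).c11 = 0 := rfl
@[simp] theorem one_c12 : (1 : B K).c12 = 0 := rfl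
@[simp] theorem one_c13 : (1 : B K).c13 = 0 := rfl
@[simp] theorem one_c14 : (1 : B K).c14 = 0 := rfl
@[simp] theorem one_c15 : (1 : B K).c15 = 0 := rfl
@[simp] theorem add_c0 (a b : B K) : (a + b).c0 = a.c0 + b.c0 := rfl
@[simp] theorem add_c1 (a b : B K) : (a + b).c1 = a.c1 + b.c1 := rfl
@[simp] theorem add_c2 (a b : B K) : (a + b).c2 = a.c2 + b.c2 := rfl
@[simp] theorem add_c3 (a b : B K) : (a + b).c3 = a.c3 + b.c3 := rfl
@[simp] theorem add_c4 (a b : B K) : (a + b).c4 = a.c4 + b.c4 := rfl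
@[simp] theorem add_c5 (a b : B K) : (a + b).c5 = a.c5 + b.c5 := rfl
@[simp] theorem add_c6 (a b : B K) : (a + b).c6 = a.c6 + b.c6 := rfl
@[simp] theorem add_c7 (a b : B K) : (a + b).c7 = a.c7 + b.c7 := rfl
@[simp] theorem add_c8 (a b : B K) : (a + b).c8 = a.c8 + b.c8 := rfl
@[simp] theorem add_c9 (a b : B K) : (a + b).c9 = a.c9 + b.c9 := rfl
@[simp] theorem add_c10 (a b : B K) : (a + b).c10 = a.c10 + b.c10 := rfl
@[simp] theorem add_c11 (a b : B K) : (a + b).c11 = a.c11 + b.c11 := rfl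
@[simp] theorem add_c12 (a b : B K) : (a + b).c12 = a.c12 + b.c12 := rfl
@[simp] theorem add_c13 (a b : B K) : (a + b).c13 = a.c13 + b.c13 := rfl
@[simp] theorem add_c14 (a b : B K) : (a + b).c14 = a.c14 + b.c14 := rfl
@[simp] theorem add_c15 (a b : B K) : (a + b).c15 = a.c15 + b.c15 := rfl
@[simp] theorem neg_c0 (a : B K) : (-a).c0 = -a.c0 := rfl
@[simp] theorem neg_c1 (a : B K) : (-a).c1 = -a.c1 := rfl
@[simp] theorem neg_c2 (a : B K) : (-a).c2 = -a.c2 := rfl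
@[simp] theorem neg_c3 (a : B K) : (-a).c3 = -a.c3 := rfl
@[simp] theorem neg_c4 (a : B K) : (-a).c4 = -a.c4 := rfl
@[simp] theorem neg_c5 (a : B K) : (-a).c5 = -a.c5 := rfl
@[simp] theorem neg_c6 (a : B K) : (-a).c6 = -a.c6 := rfl
@[simp] theorem neg_c7 (a : B K) : (-a).c7 = -a.c7 := rfl
@[simp] theorem neg_c8 (a : B K) : (-a).c8 = -a.c8 := rfl
@[simp] theorem neg_c9 (a : B K) : (-a).c9 = -a.c9 := rfl
@[simp] theorem neg_c10 (a : B K) : (-a).c10 = -a.c10 := rfl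
@[simp] theorem neg_c11 (a : B K) : (-a).c11 = -a.c11 := rfl
@[simp] theorem neg_c12 (a : B K) : (-a).c12 = -a.c12 := rfl
@[simp] theorem neg_c13 (a : B K) : (-a).c13 = -a.c13 := rfl
@[simp] theorem neg_c14 (a : B K) : (-a).c14 = -a.c14 := rfl
@[simp] theorem neg_c15 (a : B K) : (-a).c15 = -a.c15 := rfl
@[simp] theorem smul_c0 (t : K) (a : B K) : (t • a).c0 = t * a.c0 := rfl
@[simp] theorem smul_c1 (t : K) (a : B K) : (t • a).c1 = t * a.c1 := rfl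
@[simp] theorem smul_c2 (t : K) (a : B K) : (t • a).c2 = t * a.c2 := rfl
@[simp] theorem smul_c3 (t : K) (a : B K) : (t • a).c3 = t * a.c3 := rfl
@[simp] theorem smul_c4 (t : K) (a : B K) : (t • a).c4 = t * a.c4 := rfl
@[simp] theorem smul_c5 (t : K) (a : B K) : (t • a).c5 = t * a.c5 := rfl
@[simp] theorem smul_c6 (t : K) (a : B K) : (t • a).c6 = t * a.c6 := rfl
@[simp] theorem smul_c7 (t : K) (a : B K) : (t • a).c7 = t * a.c7 := rfl
@[simp] theorem smul_c8 (t : K) (a : B K) : (t • a).c8 = t * a.c8 := rfl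
@[simp] theorem smul_c9 (t : K) (a : B K) : (t • a).c9 = t * a.c9 := rfl
@[simp] theorem smul_c10 (t : K) (a : B K) : (t • a).c10 = t * a.c10 := rfl
@[simp] theorem smul_c11 (t : K) (a : B K) : (t • a).c11 = t * a.c11 := rfl
@[simp] theorem smul_c12 (t : K) (a : B K) : (t • a).c12 = t * a.c12 := rfl
@[simp] theorem smul_c13 (t : K) (a : B K) : (t • a).c13 = t * a.c13 := rfl
@[simp] theorem smul_c14 (t : K) (a : B K) : (t • a).c14 = t * a.c14 := rfl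
@[simp] theorem smul_c15 (t : K) (a : B K) : (t • a).c15 = t * a.c15 := rfl
@[simp] theorem mul_c0 (a b : B K) : (a * b).c0 =
    a.c0 * b.c0 := rfl
@[simp] theorem mul_c1 (a b : B K) : (a * b).c1 =
    a.c0 * b.c1 + a.c1 * b.c0 := rfl
@[simp] theorem mul_c2 (a b : B K) : (a * b).c2 =
    a.c0 * b.c2 + a.c2 * b.c0 := rfl
@[simp] theorem mul_c3 (a b : B K) : (a * b).c3 =
    a.c0 * b.c3 + a.c3 * b.c0 := rfl
@[simp] theorem mul_c4 (a b : B K) : (a * b).c4 =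
    a.c0 * b.c4 + a.c4 * b.c0 := rfl
@[simp] theorem mul_c5 (a b : B K) : (a * b).c5 =
    a.c0 * b.c5 + a.c1 * b.c1 + a.c2 * b.c3 + a.c4 * b.c2 + a.c5 * b.c0 := rfl
@[simp] theorem mul_c6 (a b : B K) : (a * b).c6 =
    a.c0 * b.c6 + a.c1 * b.c2 + a.c2 * b.c3 + a.c3 * b.c4 + a.c4 * b.c1 + a.c6 * b.c0 := rfl
@[simp] theorem mul_c7 (a b : B K) : (a * b).c7 =
    a.c0 * b.c7 + a.c1 * b.c3 + a.c2 * b.c4 + a.c3 * b.c1 + a.c4 * b.c2 + a.c7 * b.c0 := rfl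
@[simp] theorem mul_c8 (a b : B K) : (a * b).c8 =
    a.c0 * b.c8 + a.c2 * b.c2 - a.c2 * b.c4 - a.c3 * b.c1 + a.c3 * b.c4 - a.c4 * b.c2 + a.c8 * b.c0 := rfl
@[simp] theorem mul_c9 (a b : B K) : (a * b).c9 =
    a.c0 * b.c9 + a.c2 * b.c4 + a.c3 * b.c3 + a.c4 * b.c1 + a.c9 * b.c0 := rfl
@[simp] theorem mul_c10 (a b : B K) : (a * b).c10 =
    a.c0 * b.c10 - a.c2 * b.c3 + a.c3 * b.c1 - a.c3 * b.c4 - a.c4 * b.c1 + a.c4 * b.c4 + a.c10 * b.c0 := rfl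
@[simp] theorem mul_c11 (a b : B K) : (a * b).c11 =
    a.c0 * b.c11 + a.c1 * b.c5 - a.c1 * b.c7 + a.c2 * b.c10 - a.c3 * b.c5 + a.c3 * b.c7 - a.c3 * b.c9 - a.c3 * b.c10 + a.c5 * b.c1 - a.c5 * b.c3 + a.c6 * b.c3 - a.c6 * b.c4 - a.c7 * b.c1 - a.c8 * b.c3 - a.c9 * b.c3 + a.c9 * b.c4 + a.c11 * b.c0 := rfl
@[simp] theorem mul_c12 (a b : B K) : (a * b).c12 =
    a.c0 * b.c12 + a.c2 * b.c8 + a.c3 * b.c5 - a.c3 * b.c6 - a.c4 * b.c5 - a.c4 * b.c8 - a.c4 * b.c10 + a.c8 * b.c2 - a.c8 * b.c4 - a.c9 * b.c4 + a.c10 * b.c1 - a.c10 * b.c4 + a.c12 * b.c0 := rfl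
@[simp] theorem mul_c13 (a b : B K) : (a * b).c13 =
    a.c0 * b.c13 - a.c1 * b.c5 + a.c1 * b.c6 - a.c1 * b.c8 - a.c1 * b.c9 - a.c3 * b.c7 + a.c3 * b.c9 - a.c4 * b.c6 + a.c4 * b.c7 + a.c4 * b.c8 - a.c5 * b.c1 + a.c5 * b.c2 - a.c6 * b.c2 + a.c7 * b.c1 - a.c7 * b.c3 - a.c9 * b.c1 + a.c9 * b.c3 - a.c10 * b.c1 + a.c13 * b.c0 := rfl
@[simp] theorem mul_c14 (a b : B K) : (a * b).c14 =
    a.c0 * b.c14 - a.c1 * b.c6 + a.c1 * b.c9 - a.c2 * b.c8 - a.c2 * b.c9 - a.c2 * b.c10 + a.c4 * b.c6 - a.c4 * b.c7 + a.c4 * b.c10 - a.c5 * b.c2 - a.c6 * b.c3 + a.c6 * b.c4 + a.c7 * b.c3 - a.c7 * b.c4 - a.c8 * b.c2 + a.c8 * b.c3 - a.c10 * b.c2 + a.c10 * b.c4 + a.c14 * b.c0 := rfl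
@[simp] theorem mul_c15 (a b : B K) : (a * b).c15 =
    a.c0 * b.c15 + a.c1 * b.c11 + a.c2 * b.c12 + a.c3 * b.c13 + a.c4 * b.c14 + a.c5 * b.c5 - a.c5 * b.c7 + a.c6 * b.c10 - a.c7 * b.c5 + a.c7 * b.c7 - a.c7 * b.c9 - a.c7 * b.c10 + a.c8 * b.c8 - a.c9 * b.c7 + a.c9 * b.c9 + a.c10 * b.c6 - a.c10 * b.c7 + a.c10 * b.c10 + a.c11 * b.c1 + a.c12 * b.c2 + a.c13 * b.c3 + a.c14 * b.c4 + a.c15 * b.c0 := rfl

instance : Ring (B K) where
  add_assoc a b c := by ext <;> simp only [add_c0, add_c1, add_c2, add_c3, add_c4, add_c5, add_c6, add_c7, add_c8, add_c9, add_c10, add_c11, add_c12, add_c13, add_c14, add_c15] <;> ring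
  zero_add a := by ext <;> simp only [add_c0, add_c1, add_c2, add_c3, add_c4, add_c5, add_c6, add_c7, add_c8, add_c9, add_c10, add_c11, add_c12, add_c13, add_c14, add_c15, zero_c0, zero_c1, zero_c2, zero_c3, zero_c4, zero_c5, zero_c6, zero_c7, zero_c8, zero_c9, zero_c10, zero_c11, zero_c12, zero_c13, zero_c14, zero_c15] <;> ring
  add_zero a := by ext <;> simp only [add_c0, add_c1, add_c2, add_c3, add_c4, add_c5, add_c6, add_c7, add_c8, add_c9, add_c10, add_c11, add_c12, add_c13, add_c14, add_c15, zero_c0, zero_c1, zero_c2, zero_c3, zero_c4, zero_c5, zero_c6, zero_c7, zero_c8, zero_c9, zero_c10, zero_c11, zero_c12, zero_c13, zero_c14, zero_c15] <;> ring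
  add_comm a b := by ext <;> simp only [add_c0, add_c1, add_c2, add_c3, add_c4, add_c5, add_c6, add_c7, add_c8, add_c9, add_c10, add_c11, add_c12, add_c13, add_c14, add_c15] <;> ring
  neg_add_cancel a := by ext <;> simp only [add_c0, add_c1, add_c2, add_c3, add_c4, add_c5, add_c6, add_c7, add_c8, add_c9, add_c10, add_c11, add_c12, add_c13, add_c14, add_c15, neg_c0, neg_c1, neg_c2, neg_c3, neg_c4, neg_c5, neg_c6, neg_c7, neg_c8, neg_c9, neg_c10, neg_c11, neg_c12, neg_c13, neg_c14, neg_c15, zero_c0, zero_c1, zero_c2, zero_c3, zero_c4, zero_c5, zero_c6, zero_c7, zero_c8, zero_c9, zero_c10, zero_c11, zero_c12, zero_c13, zero_c14, zero_c15] <;> ring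
  nsmul := nsmulRec
  zsmul := zsmulRec
  mul_assoc a b c := by ext <;> simp only [mul_c0, mul_c1, mul_c2, mul_c3, mul_c4, mul_c5, mul_c6, mul_c7, mul_c8, mul_c9, mul_c10, mul_c11, mul_c12, mul_c13, mul_c14, mul_c15] <;> ring
  one_mul a := by ext <;> simp only [mul_c0, mul_c1, mul_c2, mul_c3, mul_c4, mul_c5, mul_c6, mul_c7, mul_c8, mul_c9, mul_c10, mul_c11, mul_c12, mul_c13, mul_c14, mul_c15, one_c0, one_c1, one_c2, one_c3, one_c4, one_c5, one_c6, one_c7, one_c8, one_c9, one_c10, one_c11, one_c12, one_c13, one_c14, one_c15] <;> ring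
  mul_one a := by ext <;> simp only [mul_c0, mul_c1, mul_c2, mul_c3, mul_c4, mul_c5, mul_c6, mul_c7, mul_c8, mul_c9, mul_c10, mul_c11, mul_c12, mul_c13, mul_c14, mul_c15, one_c0, one_c1, one_c2, one_c3, one_c4, one_c5, one_c6, one_c7, one_c8, one_c9, one_c10, one_c11, one_c12, one_c13, one_c14, one_c15] <;> ring
  zero_mul a := by ext <;> simp only [mul_c0, mul_c1, mul_c2, mul_c3, mul_c4, mul_c5, mul_c6, mul_c7, mul_c8, mul_c9, mul_c10, mul_c11, mul_c12, mul_c13, mul_c14, mul_c15, zero_c0, zero_c1, zero_c2, zero_c3, zero_c4, zero_c5, zero_c6, zero_c7, zero_c8, zero_c9, zero_c10, zero_c11, zero_c12, zero_c13, zero_c14, zero_c15] <;> ring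
  mul_zero a := by ext <;> simp only [mul_c0, mul_c1, mul_c2, mul_c3, mul_c4, mul_c5, mul_c6, mul_c7, mul_c8, mul_c9, mul_c10, mul_c11, mul_c12, mul_c13, mul_c14, mul_c15, zero_c0, zero_c1, zero_c2, zero_c3, zero_c4, zero_c5, zero_c6, zero_c7, zero_c8, zero_c9, zero_c10, zero_c11, zero_c12, zero_c13, zero_c14, zero_c15] <;> ring
  left_distrib a b c := by ext <;> simp only [mul_c0, mul_c1, mul_c2, mul_c3, mul_c4, mul_c5, mul_c6, mul_c7, mul_c8, mul_c9, mul_c10, mul_c11, mul_c12, mul_c13, mul_c14, mul_c15, add_c0, add_c1, add_c2, add_c3, add_c4, add_c5, add_c6, add_c7, add_c8, add_c9, add_c10, add_c11, add_c12, add_c13, add_c14, add_c15] <;> ring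
  right_distrib a b c := by ext <;> simp only [mul_c0, mul_c1, mul_c2, mul_c3, mul_c4, mul_c5, mul_c6, mul_c7, mul_c8, mul_c9, mul_c10, mul_c11, mul_c12, mul_c13, mul_c14, mul_c15, add_c0, add_c1, add_c2, add_c3, add_c4, add_c5, add_c6, add_c7, add_c8, add_c9, add_c10, add_c11, add_c12, add_c13, add_c14, add_c15] <;> ring

instance : Module K (B K) where
  one_smul a := by ext <;> simp only [smul_c0, smul_c1, smul_c2, smul_c3, smul_c4, smul_c5, smul_c6, smul_c7, smul_c8, smul_c9, smul_c10, smul_c11, smul_c12, smul_c13, smul_c14, smul_c15] <;> ring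
  mul_smul s t a := by ext <;> simp only [smul_c0, smul_c1, smul_c2, smul_c3, smul_c4, smul_c5, smul_c6, smul_c7, smul_c8, smul_c9, smul_c10, smul_c11, smul_c12, smul_c13, smul_c14, smul_c15] <;> ring
  smul_zero t := by ext <;> simp only [smul_c0, smul_c1, smul_c2, smul_c3, smul_c4, smul_c5, smul_c6, smul_c7, smul_c8, smul_c9, smul_c10, smul_c11, smul_c12, smul_c13, smul_c14, smul_c15, zero_c0, zero_c1, zero_c2, zero_c3, zero_c4, zero_c5, zero_c6, zero_c7, zero_c8, zero_c9, zero_c10, zero_c11, zero_c12, zero_c13, zero_c14, zero_c15] <;> ring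
  zero_smul a := by ext <;> simp only [smul_c0, smul_c1, smul_c2, smul_c3, smul_c4, smul_c5, smul_c6, smul_c7, smul_c8, smul_c9, smul_c10, smul_c11, smul_c12, smul_c13, smul_c14, smul_c15, zero_c0, zero_c1, zero_c2, zero_c3, zero_c4, zero_c5, zero_c6, zero_c7, zero_c8, zero_c9, zero_c10, zero_c11, zero_c12, zero_c13, zero_c14, zero_c15] <;> ring
  smul_add t a b := by ext <;> simp only [smul_c0, smul_c1, smul_c2, smul_c3, smul_c4, smul_c5, smul_c6, smul_c7, smul_c8, smul_c9, smul_c10, smul_c11, smul_c12, smul_c13, smul_c14, smul_c15, add_c0, add_c1, add_c2, add_c3, add_c4, add_c5, add_c6, add_c7, add_c8, add_c9, add_c10, add_c11, add_c12, add_c13, add_c14, add_c15] <;> ring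
  add_smul s t a := by ext <;> simp only [smul_c0, smul_c1, smul_c2, smul_c3, smul_c4, smul_c5, smul_c6, smul_c7, smul_c8, smul_c9, smul_c10, smul_c11, smul_c12, smul_c13, smul_c14, smul_c15, add_c0, add_c1, add_c2, add_c3, add_c4, add_c5, add_c6, add_c7, add_c8, add_c9, add_c10, add_c11, add_c12, add_c13, add_c14, add_c15] <;> ring

instance : Algebra K (B K) := Algebra.ofModule
  (fun t a b => by ext <;> simp only [mul_c0, mul_c1, mul_c2, mul_c3, mul_c4, mul_c5, mul_c6, mul_c7, mul_c8, mul_c9, mul_c10, mul_c11, mul_c12, mul_c13, mul_c14, mul_c15, smul_c0, smul_c1, smul_c2, smul_c3, smul_c4, smul_c5, smul_c6, smul_c7, smul_c8, smul_c9, smul_c10, smul_c11, smul_c12, smul_c13, smul_c14, smul_c15] <;> ring)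
  (fun t a b => by ext <;> simp only [mul_c0, mul_c1, mul_c2, mul_c3, mul_c4, mul_c5, mul_c6, mul_c7, mul_c8, mul_c9, mul_c10, mul_c11, mul_c12, mul_c13, mul_c14, mul_c15, smul_c0, smul_c1, smul_c2, smul_c3, smul_c4, smul_c5, smul_c6, smul_c7, smul_c8, smul_c9, smul_c10, smul_c11, smul_c12, smul_c13, smul_c14, smul_c15] <;> ring)

end

end B

end Pool.Agent.H468R3
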