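import Mathlib

/-!
# Cellular algebras in the sense of Graham and Lehrer: traces
-/

set_option autoImplicit false

open scoped BigOperators

namespace Pool.Agent.H468R3

/-- a cell datum (Graham-Lehrer) on a complex algebra `A`: a finite poset `Λ`, finite sets `M l`,
a basis `C^l_{S,T}`, a linear anti-involution `star` with `star C^l_{S,T} = C^l_{T,S}`, and
coefficients `r a l S' S` (independent of `T`) with
`a C^l_{S,T} = ∑_{S'} r a l S' S C^l_{S',T}` modulo the span of the `C^m_{U,V}` with `m < l`. -/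
structure CellDatum (A : Type) [Ring A] [Algebra ℂ A] : Type 1 where
  /-- the poset -/
  Λ : Type
  /-- its order -/
  [poset : PartialOrder Λ]
  /-- it is finite -/
  [fin : Fintype Λ]
  /-- the index sets -/
  M : Λ → Type
  /-- they are finite -/
  [finM : ∀ l, Fintype (M l)]
  /-- the cellular basis -/
  C : Module.Basis (Σ l, M l × M l) ℂ A
  /-- the anti-involution -/
  star : A →ₗ[ℂ] A
  star_mul : ∀ a b, star (a * b) = star b * star a
  star_star : ∀ a, star (star a) = a
  star_C : ∀ l S T, star (C ⟨l, (S, T)⟩) = C ⟨l, (T, S)⟩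
  /-- the structure coefficients -/
  r : A → ∀ l, M l → M l → ℂ
  cell : ∀ a l S T, a * C ⟨l, (S, T)⟩ - ∑ S', r a l S' S • C ⟨l, (S', T)⟩ ∈
    Submodule.span ℂ {b | ∃ m U V, m < l ∧ b = C ⟨m, (U, V)⟩}

namespace CellDatum

variable {A : Type} [Ring A] [Algebra ℂ A] (D : CellDatum A)

attribute [instance] CellDatum.poset CellDatum.fin CellDatum.finM

/-- the span of the lower cells -/
def low (l : D.Λ) : Submodule ℂ A :=
  Submodule.span ℂ {b | ∃ m U V, m < l ∧ b = D.C ⟨m, (U, V)⟩}

theorem cell' (a : A) (l : D.Λ) (S T : D.M l) :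
    ∃ n ∈ D.low l, a * D.C ⟨l, (S, T)⟩ = ∑ S', D.r a l S' S • D.C ⟨l, (S', T)⟩ + n :=
  ⟨_, D.cell a l S T, by abel⟩

theorem low_mono {l m : D.Λ} (h : m < l) : D.low m ≤ D.low l := by
  apply Submodule.span_mono
  rintro b ⟨k, U, V, hk, rfl⟩
  exact ⟨k, U, V, hk.trans h, rfl⟩

theorem C_mem_low {l m : D.Λ} (h : m < l) (U V : D.M m) : D.C ⟨m, (U, V)⟩ ∈ D.low l :=
  Submodule.subset_span ⟨m, U, V, h, rfl⟩

theorem low_left (a : A) {l : D.Λ} {b : A} (hb : b ∈ D.low l) : a * b ∈ D.low l := by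
  induction hb using Submodule.span_induction with
  | mem b hb =>
    obtain ⟨m, U, V, hm, rfl⟩ := hb
    obtain ⟨n, hn, e⟩ := D.cell' a m U V
    rw [e]
    exact (D.low l).add_mem
      (Submodule.sum_mem _ fun S _ => Submodule.smul_mem _ _ (D.C_mem_low hm _ _))
      (D.low_mono hm hn)
  | zero => rw [mul_zero]; exact (D.low l).zero_mem
  | add x y _ _ hx hy => rw [mul_add]; exact (D.low l).add_mem hx hy
  | smul t x _ hx => rw [mul_smul_comm]; exact (D.low l).smul_mem _ hx

theorem low_star {l : D.Λ} {b : A} (hb : b ∈ D.low l) : D.star b ∈ D.low l := by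
  induction hb using Submodule.span_induction with
  | mem b hb =>
    obtain ⟨m, U, V, hm, rfl⟩ := hb
    rw [D.star_C]
    exact D.C_mem_low hm _ _
  | zero => rw [map_zero]; exact (D.low l).zero_mem
  | add x y _ _ hx hy => rw [map_add]; exact (D.low l).add_mem hx hy
  | smul t x _ hx => rw [map_smul]; exact (D.low l).smul_mem _ hx

theorem repr_low {l : D.Λ} {b : A} (hb : b ∈ D.low l) (S T : D.M l) :
    D.C.repr b ⟨l, (S, T)⟩ = 0 := by
  induction hb using Submodule.span_induction with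
  | mem b hb =>
    obtain ⟨m, U, V, hm, rfl⟩ := hb
    classical
    rw [Module.Basis.repr_self, Finsupp.single_apply, if_neg]
    intro h
    have := congrArg Sigma.fst h
    exact hm.ne this
  | zero => simp
  | add x y _ _ hx hy => rw [map_add, Finsupp.add_apply, hx, hy, add_zero]
  | smul t x _ hx => rw [map_smul, Finsupp.smul_apply, hx, smul_zero]

open Classical in
theorem repr_C (l : D.Λ) (S T S' T' : D.M l) :
    D.C.repr (D.C ⟨l, (S, T)⟩) ⟨l, (S', T')⟩ = if S' = S ∧ T' = T then 1 else 0 := by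
  rw [Module.Basis.repr_self, Finsupp.single_apply]
  congr 1
  rw [Sigma.mk.injEq]
  simp only [heq_eq_eq, true_and, Prod.mk.injEq, eq_iff_iff]
  constructor <;> rintro ⟨h1, h2⟩ <;> exact ⟨h1.symm, h2.symm⟩

open Classical in
theorem repr_mul_C (a : A) (l : D.Λ) (S T S' T' : D.M l) :
    D.C.repr (a * D.C ⟨l, (S, T)⟩) ⟨l, (S', T')⟩ = if T' = T then D.r a l S' S else 0 := by
  obtain ⟨n, hn, e⟩ := D.cell' a l S T
  rw [e, map_add, Finsupp.add_apply, D.repr_low hn, add_zero, map_sum, Finsupp.finsetSum_apply]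
  have : ∀ x, (D.C.repr (D.r a l x S • D.C ⟨l, (x, T)⟩)) ⟨l, (S', T')⟩ =
      if x = S' then (if T' = T then D.r a l S' S else 0) else 0 := by
    intro x
    rw [map_smul, Finsupp.smul_apply, D.repr_C, smul_eq_mul]
    by_cases h1 : x = S'
    · subst h1
      by_cases h2 : T' = T <;> simp [h2]
    · have : ¬ (S' = x ∧ T' = T) := fun h => h1 h.1.symm
      rw [if_neg this, if_neg h1, mul_zero]
  rw [Finset.sum_congr rfl fun x _ => this x]
  simp

theorem r_eq (a : A) (l : D.Λ) (S T S' : D.M l) :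
    D.r a l S' S = D.C.repr (a * D.C ⟨l, (S, T)⟩) ⟨l, (S', T)⟩ := by
  rw [D.repr_mul_C, if_pos rfl]

theorem r_add (a b : A) (l : D.Λ) (S S' : D.M l) :
    D.r (a + b) l S' S = D.r a l S' S + D.r b l S' S := by
  simp only [D.r_eq _ l S S, add_mul, map_add, Finsupp.add_apply]

theorem r_smul (t : ℂ) (a : A) (l : D.Λ) (S S' : D.M l) :
    D.r (t • a) l S' S = t * D.r a l S' S := by
  simp only [D.r_eq _ l S S, smul_mul_assoc, map_smul, Finsupp.smul_apply, smul_eq_mul]

open Classical in
theorem r_one (l : D.Λ) (S S' : D.M l) : D.r 1 l S' S = if S' = S then 1 else 0 := by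
  rw [D.r_eq _ l S S, one_mul, D.repr_C]
  simp

theorem r_mul (a b : A) (l : D.Λ) (S S' : D.M l) :
    D.r (a * b) l S' S = ∑ S'', D.r a l S' S'' * D.r b l S'' S := by
  rw [D.r_eq _ l S S, mul_assoc]
  obtain ⟨n, hn, e⟩ := D.cell' b l S S
  rw [e, mul_add, map_add, Finsupp.add_apply, D.repr_low (D.low_left a hn), add_zero,
    Finset.mul_sum, map_sum, Finsupp.finsetSum_apply]
  refine Finset.sum_congr rfl fun x _ => ?_
  rw [mul_smul_comm, map_smul, Finsupp.smul_apply, ← D.r_eq a l x S, smul_eq_mul, mul_comm]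

open Classical in
/-- the cell representation -/
noncomputable def rho (l : D.Λ) : A →ₐ[ℂ] Matrix (D.M l) (D.M l) ℂ :=
  AlgHom.ofLinearMap
    { toFun := fun a => Matrix.of fun S' S => D.r a l S' S
      map_add' := fun a b => by ext S' S; exact D.r_add a b l S S'
      map_smul' := fun t a => by ext S' S; exact D.r_smul t a l S S' }
    (by ext S' S; exact (D.r_one l S S').trans (Matrix.one_apply).symm)
    (fun a b => by ext S' S; exact (D.r_mul a b l S S').trans (Matrix.mul_apply).symm)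

theorem rho_apply (l : D.Λ) (a : A) (S' S : D.M l) : D.rho l a S' S = D.r a l S' S := rfl

/-- the cell character -/
noncomputable def chi (l : D.Λ) (a : A) : ℂ := ∑ S, D.r a l S S

theorem chi_eq (l : D.Λ) (a : A) : D.chi l a = Matrix.trace (D.rho l a) := rfl

theorem repr_mul_C_mul (a b : A) (l : D.Λ) (S T : D.M l) :
    D.C.repr (a * (D.C ⟨l, (S, T)⟩ * b)) ⟨l, (S, T)⟩ = D.r a l S S * D.r (D.star b) l T T := by
  classical
  have h1 : D.C ⟨l, (S, T)⟩ * b = D.star (D.star b * D.C ⟨l, (T, S)⟩) := by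
    rw [D.star_mul, D.star_C, D.star_star]
  obtain ⟨n, hn, e⟩ := D.cell' (D.star b) l T S
  rw [h1, e, map_add, mul_add, map_add, Finsupp.add_apply,
    D.repr_low (D.low_left a (D.low_star hn)), add_zero, map_sum, Finset.mul_sum, map_sum,
    Finsupp.finsetSum_apply]
  have : ∀ x, (D.C.repr (a * D.star (D.r (D.star b) l x T • D.C ⟨l, (x, S)⟩))) ⟨l, (S, T)⟩ =
      if x = T then D.r a l S S * D.r (D.star b) l T T else 0 := by
    intro x
    rw [map_smul, D.star_C, mul_smul_comm, map_smul, Finsupp.smul_apply, D.repr_mul_C, smul_eq_mul]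
    by_cases h : x = T
    · subst h; simp [mul_comm]
    · rw [if_neg (fun h' => h h'.symm), if_neg h, mul_zero]
  rw [Finset.sum_congr rfl fun x _ => this x]
  simp

/-- the two-sided multiplication -/
def bimul (a b : A) : A →ₗ[ℂ] A := (LinearMap.mulLeft ℂ a) ∘ₗ (LinearMap.mulRight ℂ b)

/-- **Trace formula.** -/
theorem trace_bimul (a b : A) :
    LinearMap.trace ℂ A (bimul a b) = ∑ l, D.chi l a * D.chi l (D.star b) := by
  classical
  rw [LinearMap.trace_eq_matrix_trace ℂ D.C, Matrix.trace]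
  simp only [Matrix.diag_apply, LinearMap.toMatrix_apply]
  rw [Fintype.sum_sigma]
  refine Finset.sum_congr rfl fun l _ => ?_
  rw [Fintype.sum_prod_type, chi, chi, Finset.sum_mul_sum]
  refine Finset.sum_congr rfl fun S _ => Finset.sum_congr rfl fun T _ => ?_
  exact D.repr_mul_C_mul a b l S T

end CellDatum

end Pool.Agent.H468R3
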