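import Pool.Agent.H468R3.Cell

/-!
# Characters of modules over cellular algebras
-/

set_option autoImplicit false

open scoped BigOperators

namespace Pool.Agent.H468R3

section tr

variable {A : Type} [Ring A] [Algebra ℂ A]

/-- the trace of `a` on a module -/
noncomputable def tr (M : Type) [AddCommGroup M] [Module ℂ M] [Module A M] [IsScalarTower ℂ A M]
    (a : A) : ℂ := LinearMap.trace ℂ M (Algebra.lsmul ℂ ℂ M a)

variable (M : Type) [AddCommGroup M] [Module ℂ M] [Module A M] [IsScalarTower ℂ A M]

theorem tr_zero : tr M (0 : A) = 0 := by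
  unfold tr
  rw [map_zero, map_zero]

theorem tr_of_subsingleton [Subsingleton M] (a : A) : tr M a = 0 := by
  unfold tr
  have : (Algebra.lsmul ℂ ℂ M a) = 0 := LinearMap.ext fun x => Subsingleton.elim _ _
  rw [this, map_zero]

theorem tr_congr {M N : Type} [AddCommGroup M] [Module ℂ M] [Module A M] [IsScalarTower ℂ A M]
    [AddCommGroup N] [Module ℂ N] [Module A N] [IsScalarTower ℂ A N] (e : M ≃ₗ[A] N) (a : A) :
    tr M a = tr N a := by
  unfold tr
  rw [← LinearMap.trace_conj' _ (e.restrictScalars ℂ)]
  congr 1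
  apply LinearMap.ext
  intro x
  simp [LinearEquiv.conj_apply]

theorem tr_add_quot [FiniteDimensional ℂ M] (N : Submodule A M) (a : A) :
    tr M a = tr N a + tr (M ⧸ N) a := by
  let N' : Submodule ℂ M := N.restrictScalars ℂ
  obtain ⟨p, hp⟩ := LinearMap.exists_leftInverse_of_injective (N'.subtype)
    (by rw [Submodule.ker_subtype])
  -- the quotient map, over `ℂ`
  let q : M →ₗ[ℂ] (M ⧸ N) := N.mkQ.restrictScalars ℂ
  have hq : Function.Surjective q := Submodule.mkQ_surjective N
  obtain ⟨σ, hσ⟩ := LinearMap.exists_rightInverse_of_surjective q (LinearMap.range_eq_top.2 hq)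
  -- choose the section compatible with `p`
  let σ' : (M ⧸ N) →ₗ[ℂ] M := σ - (N'.subtype ∘ₗ p) ∘ₗ σ
  have hσ' : N'.subtype ∘ₗ p + σ' ∘ₗ q = LinearMap.id := by
    apply LinearMap.ext
    intro x
    have h1 : σ (q x) - x ∈ N' := by
      have : q (σ (q x) - x) = 0 := by
        rw [map_sub]
        have := LinearMap.congr_fun hσ (q x)
        simp only [LinearMap.comp_apply, LinearMap.id_apply] at this
        rw [this, sub_self]
      exact (Submodule.Quotient.mk_eq_zero N).1 this
    have h2 : (p (σ (q x) - x) : M) = σ (q x) - x := by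
      have := LinearMap.congr_fun hp ⟨_, h1⟩
      exact congrArg Subtype.val this
    rw [map_sub, Submodule.coe_sub] at h2
    simp only [LinearMap.add_apply, LinearMap.comp_apply, Submodule.subtype_apply,
      LinearMap.id_apply, σ', LinearMap.sub_apply]
    have h3 : (p (σ (q x)) : M) = σ (q x) - x + (p x : M) := by rw [← h2]; abel
    rw [h3]
    abel
  have hqσ' : q ∘ₗ σ' = LinearMap.id := by
    apply LinearMap.ext
    intro x
    have h1 := LinearMap.congr_fun hσ x
    simp only [LinearMap.comp_apply, LinearMap.id_apply] at h1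
    simp only [σ', LinearMap.comp_apply, LinearMap.sub_apply, Submodule.subtype_apply, map_sub,
      LinearMap.id_apply, h1]
    have : q (p (σ x) : M) = 0 := (Submodule.Quotient.mk_eq_zero N).2 (p (σ x)).2
    rw [this, sub_zero]
  set f : M →ₗ[ℂ] M := Algebra.lsmul ℂ ℂ M a with hf
  have e1 : f = (f ∘ₗ N'.subtype) ∘ₗ p + (f ∘ₗ σ') ∘ₗ q := by
    rw [LinearMap.comp_assoc, LinearMap.comp_assoc, ← LinearMap.comp_add, hσ', LinearMap.comp_id]
  unfold tr
  rw [← hf, e1, map_add, LinearMap.trace_comp_comm' p, LinearMap.trace_comp_comm' q]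
  congr 1
  · have : p ∘ₗ f ∘ₗ N'.subtype = Algebra.lsmul ℂ ℂ N a := by
      apply LinearMap.ext
      intro x
      have h1 : (a • (x : M)) ∈ N' := N.smul_mem a x.2
      have := LinearMap.congr_fun hp ⟨_, h1⟩
      exact this
    exact congrArg (LinearMap.trace ℂ N) this
  · have : q ∘ₗ f ∘ₗ σ' = Algebra.lsmul ℂ ℂ (M ⧸ N) a := by
      apply LinearMap.ext
      intro x
      have h1 := LinearMap.congr_fun hqσ' x
      simp only [LinearMap.comp_apply, LinearMap.id_apply] at h1
      have h2 : q (a • σ' x) = a • q (σ' x) := map_smul N.mkQ a (σ' x)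
      simp only [LinearMap.comp_apply, hf, Algebra.lsmul_coe]
      rw [h2, h1]
    rw [this]

/-- **Jordan-Hölder principle.** -/
theorem tr_eq_of_simple (a b : A) (I : Set A)
    (H : ∀ (L : Type) [AddCommGroup L] [Module ℂ L] [Module A L] [IsScalarTower ℂ A L]
      [FiniteDimensional ℂ L], IsSimpleModule A L → (∀ c ∈ I, ∀ v : L, c • v = 0) →
      tr L a = tr L b) (n : ℕ) :
    ∀ (M : Type) [AddCommGroup M] [Module ℂ M] [Module A M] [IsScalarTower ℂ A M]
      [FiniteDimensional ℂ M], Module.finrank ℂ M = n → (∀ c ∈ I, ∀ v : M, c • v = 0) →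
      tr M a = tr M b := by
  induction n using Nat.strong_induction_on with
  | _ n ih =>
    intro M _ _ _ _ _ hn hI
    rcases subsingleton_or_nontrivial M with hM | hM
    · rw [tr_of_subsingleton, tr_of_subsingleton]
    · have hart : IsArtinian A M := isArtinian_of_tower ℂ inferInstance
      obtain ⟨N, hN⟩ := IsAtomic.exists_atom (α := Submodule A M)
      have hs : IsSimpleModule A N := isSimpleModule_iff_isAtom.2 hN
      have hfN : FiniteDimensional ℂ N :=
        inferInstanceAs (FiniteDimensional ℂ (N.restrictScalars ℂ))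
      rw [tr_add_quot M N a, tr_add_quot M N b]
      have h1 : tr N a = tr N b := H N hs fun c hc v => Subtype.ext (hI c hc v)
      have hfd : FiniteDimensional ℂ (M ⧸ N) :=
        inferInstanceAs (FiniteDimensional ℂ (M ⧸ N.restrictScalars ℂ))
      have hlt : Module.finrank ℂ (M ⧸ N) < n := by
        have e1 : Module.finrank ℂ (M ⧸ N.restrictScalars ℂ) +
            Module.finrank ℂ (N.restrictScalars ℂ) = Module.finrank ℂ M :=
          Submodule.finrank_quotient_add_finrank _
        have e2 : 0 < Module.finrank ℂ (N.restrictScalars ℂ) := by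
          have : Nontrivial (N.restrictScalars ℂ) := hs.nontrivial
          exact Module.finrank_pos
        have e3 : Module.finrank ℂ (M ⧸ N) = Module.finrank ℂ (M ⧸ N.restrictScalars ℂ) := rfl
        omega
      have h2 : tr (M ⧸ N) a = tr (M ⧸ N) b := by
        refine ih _ hlt (M ⧸ N) rfl fun c hc v => ?_
        obtain ⟨w, rfl⟩ := Submodule.Quotient.mk_surjective _ v
        rw [← Submodule.Quotient.mk_smul, hI c hc w, Submodule.Quotient.mk_zero]
      rw [h1, h2]

end tr

end Pool.Agent.H468R3
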