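import Pool.Agent.H468R3.Cell2

/-!
# Characters of modules over cellular algebras, continued
-/

set_option autoImplicit false

open scoped BigOperators

namespace Pool.Agent.H468R3

namespace CellDatum

variable {A : Type} [Ring A] [Algebra ℂ A] (D : CellDatum A)

/-! ### Cell modules -/

/-- the cell module -/
abbrev W (l : D.Λ) : Type := D.M l → ℂ

/-- the representation on the cell module -/
noncomputable def rep (l : D.Λ) : A →ₐ[ℂ] Module.End ℂ (D.W l) := by
  classical
  exact (Matrix.toLinAlgEquiv' (R := ℂ) (n := D.M l)).toAlgHom.comp (D.rho l)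

noncomputable instance (l : D.Λ) : Module A (D.W l) := Module.compHom (D.W l) (D.rep l).toRingHom

theorem smul_def' (l : D.Λ) (a : A) (x : D.W l) : a • x = D.rep l a x := rfl

theorem smul_apply (l : D.Λ) (a : A) (x : D.W l) (S : D.M l) :
    (a • x) S = ∑ S', D.r a l S S' * x S' := by
  classical
  rw [smul_def']
  change (Matrix.toLin' (D.rho l a) x) S = _
  rw [Matrix.toLin'_apply]
  rfl

instance (l : D.Λ) : IsScalarTower ℂ A (D.W l) where
  smul_assoc t a x := by
    rw [smul_def', smul_def', map_smul, LinearMap.smul_apply]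

theorem tr_W (l : D.Λ) (a : A) : tr (D.W l) a = D.chi l a := by
  classical
  unfold tr
  have : Algebra.lsmul ℂ ℂ (D.W l) a = Matrix.toLin' (D.rho l a) := rfl
  rw [this, D.chi_eq]
  exact Matrix.trace_toLin'_eq _

/-- the basis vector -/
noncomputable def e (l : D.Λ) (S : D.M l) : D.W l := by
  classical
  exact Pi.single S 1

theorem smul_e (l : D.Λ) (a : A) (S : D.M l) : a • D.e l S = ∑ S', D.r a l S' S • D.e l S' := by
  classical
  funext U
  rw [D.smul_apply]
  unfold e
  rw [Finset.sum_apply]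
  simp [Pi.single_apply]

theorem eq_sum (l : D.Λ) (x : D.W l) : x = ∑ S, x S • D.e l S := by
  classical
  funext U
  unfold e
  rw [Finset.sum_apply]
  simp [Pi.single_apply]

/-- `C^l_{S,T}` acts on the cell module through the form: it maps everything into the line of
`e_S` -/
theorem C_smul (l : D.Λ) (S T : D.M l) (x : D.W l) :
    ∃ t : ℂ, D.C ⟨l, (S, T)⟩ • x = t • D.e l S ∧
      ∀ S', D.C ⟨l, (S', T)⟩ • x = t • D.e l S' := by
  classical
  -- `r (C_{S,T}) U V = δ_{U,S} φ(T, V)`
  have key : ∀ S' U V : D.M l, D.r (D.C ⟨l, (S', T)⟩) l U V =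
      if U = S' then D.r (D.star (D.C ⟨l, (V, V)⟩)) l V T else 0 := by
    intro S' U V
    rw [D.r_eq _ l V V]
    have h1 : D.C ⟨l, (S', T)⟩ * D.C ⟨l, (V, V)⟩ =
        D.star (D.star (D.C ⟨l, (V, V)⟩) * D.C ⟨l, (T, S')⟩) := by
      rw [D.star_mul, D.star_C, D.star_star]
    obtain ⟨n, hn, e⟩ := D.cell' (D.star (D.C ⟨l, (V, V)⟩)) l T S'
    rw [h1, e, map_add, map_add, Finsupp.add_apply, D.repr_low (D.low_star hn), add_zero, map_sum,
      map_sum, Finsupp.finsetSum_apply]
    generalize D.star (D.C ⟨l, (V, V)⟩) = c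
    have : ∀ x, (D.C.repr (D.star (D.r c l x T •
        D.C ⟨l, (x, S')⟩))) ⟨l, (U, V)⟩ =
        if x = V then (if U = S' then D.r c l V T else 0) else 0 := by
      intro x
      rw [map_smul, D.star_C, map_smul, Finsupp.smul_apply, D.repr_C, smul_eq_mul]
      by_cases h : x = V
      · subst h
        by_cases h' : U = S' <;> simp [h']
      · rw [if_neg h, if_neg (fun h' => h h'.2.symm), mul_zero]
    rw [Finset.sum_congr rfl fun x _ => this x]
    simp
  refine ⟨∑ V, D.r (D.star (D.C ⟨l, (V, V)⟩)) l V T * x V, ?_, ?_⟩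
  · funext U
    rw [D.smul_apply]
    simp only [key, e]
    by_cases h : U = S
    · subst h
      simp
    · simp [h]
  · intro S'
    funext U
    rw [D.smul_apply]
    simp only [key, e]
    by_cases h : U = S'
    · subst h
      simp
    · simp [h]

/-! ### Elements acting as zero -/

/-- the span of the cells `≤ m` -/
def lowe (m : D.Λ) : Submodule ℂ A :=
  Submodule.span ℂ {b | ∃ k U V, k ≤ m ∧ b = D.C ⟨k, (U, V)⟩}

theorem C_mem_lowe {k m : D.Λ} (h : k ≤ m) (U V : D.M k) : D.C ⟨k, (U, V)⟩ ∈ D.lowe m :=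
  Submodule.subset_span ⟨k, U, V, h, rfl⟩

theorem low_le_lowe {k m : D.Λ} (h : k ≤ m) : D.low k ≤ D.lowe m := by
  apply Submodule.span_mono
  rintro b ⟨j, U, V, hj, rfl⟩
  exact ⟨j, U, V, hj.le.trans h, rfl⟩

theorem lowe_left (a : A) {l : D.Λ} {b : A} (hb : b ∈ D.lowe l) : a * b ∈ D.lowe l := by
  induction hb using Submodule.span_induction with
  | mem b hb =>
    obtain ⟨m, U, V, hm, rfl⟩ := hb
    obtain ⟨n, hn, e⟩ := D.cell' a m U V
    rw [e]
    exact (D.lowe l).add_mem
      (Submodule.sum_mem _ fun S _ => Submodule.smul_mem _ _ (D.C_mem_lowe hm _ _))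
      (D.low_le_lowe hm hn)
  | zero => rw [mul_zero]; exact (D.lowe l).zero_mem
  | add x y _ _ hx hy => rw [mul_add]; exact (D.lowe l).add_mem hx hy
  | smul t x _ hx => rw [mul_smul_comm]; exact (D.lowe l).smul_mem _ hx

theorem lowe_star {l : D.Λ} {b : A} (hb : b ∈ D.lowe l) : D.star b ∈ D.lowe l := by
  induction hb using Submodule.span_induction with
  | mem b hb =>
    obtain ⟨m, U, V, hm, rfl⟩ := hb
    rw [D.star_C]
    exact D.C_mem_lowe hm _ _
  | zero => rw [map_zero]; exact (D.lowe l).zero_mem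
  | add x y _ _ hx hy => rw [map_add]; exact (D.lowe l).add_mem hx hy
  | smul t x _ hx => rw [map_smul]; exact (D.lowe l).smul_mem _ hx

theorem repr_lowe {l m : D.Λ} (h : ¬ l ≤ m) {b : A} (hb : b ∈ D.lowe m) (S T : D.M l) :
    D.C.repr b ⟨l, (S, T)⟩ = 0 := by
  induction hb using Submodule.span_induction with
  | mem b hb =>
    obtain ⟨k, U, V, hk, rfl⟩ := hb
    classical
    rw [Module.Basis.repr_self, Finsupp.single_apply, if_neg]
    intro h'
    have : k = l := congrArg Sigma.fst h'
    exact h (this ▸ hk)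
  | zero => simp
  | add x y _ _ hx hy => rw [map_add, Finsupp.add_apply, hx, hy, add_zero]
  | smul t x _ hx => rw [map_smul, Finsupp.smul_apply, hx, smul_zero]

theorem C_smul_W {l m : D.Λ} (h : ¬ l ≤ m) (U V : D.M m) (x : D.W l) :
    D.C ⟨m, (U, V)⟩ • x = 0 := by
  funext S
  rw [D.smul_apply]
  refine Finset.sum_eq_zero fun S' _ => ?_
  rw [D.r_eq _ l S' S]
  have h1 : D.C ⟨m, (U, V)⟩ * D.C ⟨l, (S', S)⟩ =
      D.star (D.star (D.C ⟨l, (S', S)⟩) * D.C ⟨m, (V, U)⟩) := by
    rw [D.star_mul, D.star_C, D.star_star]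
  rw [h1, D.repr_lowe h (D.lowe_star (D.lowe_left _ (D.C_mem_lowe le_rfl _ _))), zero_mul]

/-- if all lower `C` act as zero on a module then so does the lower ideal -/
theorem low_smul (L : Type) [AddCommGroup L] [Module ℂ L] [Module A L] [IsScalarTower ℂ A L]
    (l : D.Λ) (h : ∀ m, m < l → ∀ (U V : D.M m) (v : L), D.C ⟨m, (U, V)⟩ • v = 0)
    {n : A} (hn : n ∈ D.low l) (v : L) : n • v = 0 := by
  induction hn using Submodule.span_induction with
  | mem b hb =>
    obtain ⟨m, U, V, hm, rfl⟩ := hb
    exact h m hm U V v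
  | zero => rw [zero_smul]
  | add x y _ _ hx hy => rw [add_smul, hx, hy, add_zero]
  | smul t x _ hx => rw [smul_assoc, hx, smul_zero]

/-- the radical of the cell module -/
def rad (l : D.Λ) : Submodule A (D.W l) where
  carrier := {x | ∀ S T, D.C ⟨l, (S, T)⟩ • x = 0}
  add_mem' := fun {x y} hx hy S T => by rw [smul_add, hx, hy, add_zero]
  zero_mem' := fun S T => smul_zero _
  smul_mem' := fun a x hx S T => by
    have h1 : D.C ⟨l, (S, T)⟩ * a = D.star (D.star a * D.C ⟨l, (T, S)⟩) := by
      rw [D.star_mul, D.star_C, D.star_star]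
    obtain ⟨n, hn, e⟩ := D.cell' (D.star a) l T S
    rw [← mul_smul, h1, e, map_add, map_sum, add_smul, Finset.sum_smul,
      D.low_smul (D.W l) l (fun m hm U V v => D.C_smul_W (not_le_of_gt hm) U V v)
        (D.low_star hn), add_zero]
    refine Finset.sum_eq_zero fun S' _ => ?_
    rw [map_smul, D.star_C, smul_assoc, hx, smul_zero]

/-- the head of the cell module: any simple module for which `l` is minimal -/
theorem tr_simple (L : Type) [AddCommGroup L] [Module ℂ L] [Module A L] [IsScalarTower ℂ A L]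
    (hL : IsSimpleModule A L) (l : D.Λ)
    (h1 : ∃ (S T : D.M l) (v : L), D.C ⟨l, (S, T)⟩ • v ≠ 0)
    (h2 : ∀ m, m < l → ∀ (U V : D.M m) (v : L), D.C ⟨m, (U, V)⟩ • v = 0) (a : A) :
    tr (D.W l) a = tr (D.rad l) a + tr L a := by
  obtain ⟨S, T, v, hv⟩ := h1
  -- the map from the cell module
  let θ0 : D.W l →ₗ[ℂ] L :=
    { toFun := fun x => ∑ S, x S • (D.C ⟨l, (S, T)⟩ • v)
      map_add' := fun x y => by
        rw [← Finset.sum_add_distrib]
        exact Finset.sum_congr rfl fun S _ => by rw [Pi.add_apply, add_smul]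
      map_smul' := fun t x => by
        rw [Finset.smul_sum]
        exact Finset.sum_congr rfl fun S _ => by
          rw [Pi.smul_apply, smul_eq_mul, mul_smul]; rfl }
  have hθe : ∀ S, θ0 (D.e l S) = D.C ⟨l, (S, T)⟩ • v := by
    classical
    intro S
    change ∑ S', D.e l S S' • (D.C ⟨l, (S', T)⟩ • v) = _
    unfold e
    simp [Pi.single_apply]
  have hθa : ∀ (a : A) (x : D.W l), θ0 (a • x) = a • θ0 x := by
    intro a x
    rw [D.eq_sum l x, Finset.smul_sum, map_sum, map_sum, Finset.smul_sum]
    refine Finset.sum_congr rfl fun S _ => ?_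
    have h3 : a • (x S • D.e l S) = x S • (a • D.e l S) := smul_comm _ _ _
    rw [h3, θ0.map_smul, θ0.map_smul, hθe, D.smul_e, map_sum, smul_comm a (x S)]
    congr 1
    obtain ⟨n, hn, e⟩ := D.cell' a l S T
    rw [← mul_smul, e, add_smul, D.low_smul L l h2 hn, add_zero, Finset.sum_smul]
    refine Finset.sum_congr rfl fun S' _ => ?_
    rw [map_smul, hθe, smul_assoc]
  let θ : D.W l →ₗ[A] L := { θ0.toAddMonoidHom with map_smul' := hθa }
  have hθ0 : ∀ x, θ x = θ0 x := fun _ => rfl
  have hne : θ ≠ 0 := by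
    intro h
    apply hv
    rw [← hθe, ← hθ0, h]
    rfl
  have hsurj : Function.Surjective θ := (LinearMap.surjective_or_eq_zero θ).resolve_right hne
  have hker : LinearMap.ker θ = D.rad l := by
    apply le_antisymm
    · intro x hx
      intro S' T'
      obtain ⟨t, ht, ht'⟩ := D.C_smul l S' T' x
      rw [ht]
      by_cases h0 : t = 0
      · rw [h0, zero_smul]
      · exfalso
        apply hne
        have hS : ∀ S, θ (D.e l S) = 0 := by
          intro S
          have h3 : θ (t • D.e l S) = 0 := by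
            rw [← ht' S, map_smul, LinearMap.mem_ker.1 hx, smul_zero]
          rw [hθ0, map_smul] at h3
          rw [hθ0]
          exact (smul_eq_zero.1 h3).resolve_left h0
        apply LinearMap.ext
        intro y
        rw [D.eq_sum l y, map_sum]
        simp only [hθ0, map_smul] at hS ⊢
        simp [hS]
    · intro x hx
      by_contra hx'
      have hsub : Submodule.map θ (D.rad l) = ⊤ := by
        refine (eq_bot_or_eq_top _).resolve_left fun h => hx' ?_
        have : θ x ∈ Submodule.map θ (D.rad l) := Submodule.mem_map_of_mem hx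
        rw [h, Submodule.mem_bot] at this
        exact this
      have hvm : v ∈ Submodule.map θ (D.rad l) := by rw [hsub]; trivial
      obtain ⟨w, hw, hwv⟩ := hvm
      apply hv
      rw [← hwv, ← map_smul, hw S T, map_zero]
  rw [tr_add_quot (D.W l) (LinearMap.ker θ) a, hker]
  congr 1
  have e1 := LinearMap.quotKerEquivOfSurjective θ hsurj
  rw [hker] at e1
  exact tr_congr e1 a

/-- every nonzero module has a minimal cell -/
theorem exists_min (L : Type) [AddCommGroup L] [Module ℂ L] [Module A L] [IsScalarTower ℂ A L]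
    [Nontrivial L] : ∃ l : D.Λ, (∃ (S T : D.M l) (v : L), D.C ⟨l, (S, T)⟩ • v ≠ 0) ∧
      ∀ m, m < l → ∀ (U V : D.M m) (v : L), D.C ⟨m, (U, V)⟩ • v = 0 := by
  have hex : ∃ l : D.Λ, ∃ (S T : D.M l) (v : L), D.C ⟨l, (S, T)⟩ • v ≠ 0 := by
    by_contra h
    push Not at h
    obtain ⟨v, hv⟩ := exists_ne (0 : L)
    apply hv
    have : (1 : A) • v = 0 := by
      rw [← D.C.sum_repr 1, Finset.sum_smul]
      refine Finset.sum_eq_zero fun i _ => ?_
      obtain ⟨l, S, T⟩ := i
      rw [smul_assoc, h, smul_zero]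
    rwa [one_smul] at this
  obtain ⟨l, hl, hmin⟩ := WellFounded.has_min (wellFounded_lt (α := D.Λ))
    {l | ∃ (S T : D.M l) (v : L), D.C ⟨l, (S, T)⟩ • v ≠ 0} hex
  refine ⟨l, hl, fun m hm U V v => ?_⟩
  by_contra h
  exact hmin m ⟨U, V, v, h⟩ hm

/-! ### The dual of a module -/

/-- the dual of a module, twisted by the anti-involution -/
def Sh (_ : CellDatum A) (L : Type) [AddCommGroup L] [Module ℂ L] : Type := L →ₗ[ℂ] ℂ

section dual

variable (L : Type) [AddCommGroup L] [Module ℂ L] [Module A L] [IsScalarTower ℂ A L]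

instance : AddCommGroup (D.Sh L) := inferInstanceAs (AddCommGroup (L →ₗ[ℂ] ℂ))
instance : Module ℂ (D.Sh L) := inferInstanceAs (Module ℂ (L →ₗ[ℂ] ℂ))
instance [FiniteDimensional ℂ L] : FiniteDimensional ℂ (D.Sh L) :=
  inferInstanceAs (FiniteDimensional ℂ (L →ₗ[ℂ] ℂ))

/-- evaluation -/
def ev (f : D.Sh L) (x : L) : ℂ := (show L →ₗ[ℂ] ℂ from f) x

omit [Module A L] [IsScalarTower ℂ A L] in
theorem ev_ext {f g : D.Sh L} (h : ∀ x, D.ev L f x = D.ev L g x) : f = g := LinearMap.ext h

noncomputable instance : Module A (D.Sh L) where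
  smul a f := (show L →ₗ[ℂ] ℂ from f) ∘ₗ (Algebra.lsmul ℂ ℂ L (D.star a))
  one_smul f := by
    apply D.ev_ext
    intro x
    have h1 : D.star 1 = 1 := by
      have h := D.star_mul 1 (D.star 1)
      rw [one_mul, D.star_star, one_mul] at h
      exact h.symm
    change D.ev L f (D.star 1 • x) = _
    rw [h1, one_smul]
  mul_smul a b f := by
    apply D.ev_ext
    intro x
    change D.ev L f (D.star (a * b) • x) = D.ev L f (D.star b • (D.star a • x))
    rw [D.star_mul, mul_smul]
  smul_zero a := by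
    apply D.ev_ext
    intro x
    rfl
  smul_add a f g := by
    apply D.ev_ext
    intro x
    rfl
  add_smul a b f := by
    apply D.ev_ext
    intro x
    change (show L →ₗ[ℂ] ℂ from f) (D.star (a + b) • x) =
      (show L →ₗ[ℂ] ℂ from f) (D.star a • x) + (show L →ₗ[ℂ] ℂ from f) (D.star b • x)
    rw [map_add, add_smul, map_add]
  zero_smul f := by
    apply D.ev_ext
    intro x
    change (show L →ₗ[ℂ] ℂ from f) (D.star 0 • x) = 0
    rw [map_zero, zero_smul, map_zero]

theorem ev_smul (a : A) (f : D.Sh L) (x : L) : D.ev L (a • f) x = D.ev L f (D.star a • x) := rfl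

instance : IsScalarTower ℂ A (D.Sh L) where
  smul_assoc t a f := by
    apply D.ev_ext
    intro x
    rw [ev_smul, map_smul, smul_assoc]
    change (show L →ₗ[ℂ] ℂ from f) (t • (D.star a • x)) = t • (show L →ₗ[ℂ] ℂ from f) (D.star a • x)
    rw [map_smul]

theorem tr_Sh [FiniteDimensional ℂ L] (a : A) : tr (D.Sh L) a = tr L (D.star a) := by
  unfold tr
  rw [← LinearMap.trace_transpose' (Algebra.lsmul ℂ ℂ L (D.star a))]
  rfl

theorem simple_Sh [FiniteDimensional ℂ L] (hL : IsSimpleModule A L) :
    IsSimpleModule A (D.Sh L) := by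
  have hnt : Nontrivial L := hL.nontrivial
  have hnt2 : Nontrivial (D.Sh L) := inferInstanceAs (Nontrivial (Module.Dual ℂ L))
  rw [isSimpleModule_iff]
  refine ⟨fun N => ?_⟩
  -- the annihilator in `L`
  let P : Submodule A L :=
    { carrier := {x | ∀ f ∈ N, D.ev L f x = 0}
      add_mem' := fun {x y} hx hy f hf => by
        have : D.ev L f (x + y) = D.ev L f x + D.ev L f y := map_add (show L →ₗ[ℂ] ℂ from f) x y
        rw [this, hx f hf, hy f hf, add_zero]
      zero_mem' := fun f _ => map_zero (show L →ₗ[ℂ] ℂ from f)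
      smul_mem' := fun a x hx f hf => by
        have h1 := hx (D.star a • f) (N.smul_mem _ hf)
        rw [ev_smul, D.star_star] at h1
        exact h1 }
  rcases eq_bot_or_eq_top P with h | h
  · right
    let N' : Submodule ℂ (Module.Dual ℂ L) := N.restrictScalars ℂ
    have hN' : FiniteDimensional ℂ N' := FiniteDimensional.finiteDimensional_submodule _
    have h1 : N'.dualCoannihilator = ⊥ := by
      rw [eq_bot_iff]
      intro x hx
      have : x ∈ P := by
        intro f hf
        exact (Submodule.mem_dualCoannihilator _).1 hx f hf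
      rw [h] at this
      exact this
    have h2 : N' = ⊤ := by
      rw [← Subspace.dualCoannihilator_dualAnnihilator_eq (W := N'), h1,
        Submodule.dualAnnihilator_bot]
    rw [eq_top_iff]
    intro f _
    have : f ∈ N' := by rw [h2]; trivial
    exact this
  · left
    rw [eq_bot_iff]
    intro f hf
    rw [Submodule.mem_bot]
    apply D.ev_ext
    intro x
    have : x ∈ P := by rw [h]; trivial
    exact this f hf

end dual

end CellDatum

end Pool.Agent.H468R3
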