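import Pool.Agent.H468R3.Cell3

/-!
# Involutions in cellular algebras
-/

set_option autoImplicit false

open scoped BigOperators

namespace Pool.Agent.H468R3

/-- the trace of an involution is an integer -/
theorem tr_int {A : Type} [Ring A] [Algebra ℂ A] (s : A) (hs : s * s = 1) (M : Type)
    [AddCommGroup M] [Module ℂ M] [Module A M] [IsScalarTower ℂ A M] [FiniteDimensional ℂ M] :
    ∃ n : ℤ, tr M s = n := by
  set f : M →ₗ[ℂ] M := Algebra.lsmul ℂ ℂ M s with hf
  have hff : f * f = 1 := by rw [hf, ← map_mul, hs, map_one]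
  set e : M →ₗ[ℂ] M := (1 / 2 : ℂ) • (1 + f) with he
  have hee : IsIdempotentElem e := by
    unfold IsIdempotentElem
    rw [he, smul_mul_smul_comm]
    have : (1 + f) * (1 + f) = (2 : ℂ) • (1 + f) := by
      simp only [add_mul, mul_add, hff, one_mul, mul_one, two_smul]
      abel
    rw [this, smul_smul]
    norm_num
  have h1 := (LinearMap.IsIdempotentElem.isProj_range e hee).trace
  have h2 : f = (2 : ℂ) • e - 1 := by
    rw [he, smul_smul]
    norm_num
  refine ⟨2 * (Module.finrank ℂ (LinearMap.range e) : ℤ) - (Module.finrank ℂ M : ℤ), ?_⟩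
  unfold tr
  rw [← hf, h2, map_sub, map_smul, h1, LinearMap.trace_one, smul_eq_mul]
  push_cast
  ring

namespace CellDatum

variable {A : Type} [Ring A] [Algebra ℂ A] (D : CellDatum A)

/-- characters are invariant under the anti-involution -/
theorem tr_star (a : A) (M : Type) [AddCommGroup M] [Module ℂ M] [Module A M]
    [IsScalarTower ℂ A M] [FiniteDimensional ℂ M] : tr M (D.star a) = tr M a := by
  refine tr_eq_of_simple (D.star a) a ∅ ?_ _ M rfl (fun c hc => absurd hc (Set.notMem_empty c))
  intro L _ _ _ _ _ hL _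
  have hnt : Nontrivial L := hL.nontrivial
  obtain ⟨l, ⟨S, T, v, hv⟩, h2⟩ := D.exists_min L
  have e1 := D.tr_simple L hL l ⟨S, T, v, hv⟩ h2 a
  have e2 := D.tr_simple (D.Sh L) (D.simple_Sh L hL) l ?_ ?_ a
  · rw [D.tr_Sh] at e2
    exact add_left_cancel (e2.symm.trans e1)
  · obtain ⟨f, hf⟩ := Module.Projective.exists_dual_ne_zero ℂ hv
    refine ⟨T, S, f, fun h => hf ?_⟩
    have h3 : D.ev L (D.C ⟨l, (T, S)⟩ • (show D.Sh L from f)) v = 0 := by
      have : D.C ⟨l, (T, S)⟩ • (show D.Sh L from f) = 0 := h
      rw [this]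
      rfl
    rw [ev_smul, D.star_C] at h3
    exact h3
  · intro m hm U V f
    apply D.ev_ext
    intro x
    rw [ev_smul, D.star_C, h2 m hm]
    exact (map_zero (show L →ₗ[ℂ] ℂ from f)).trans rfl

/-- if the two-sided multiplication by an involution has trace zero then all cell characters vanish
there -/
theorem chi_eq_zero (s : A) (hs : s * s = 1) (ht : LinearMap.trace ℂ A (bimul s s) = 0)
    (l : D.Λ) : D.chi l s = 0 := by
  rw [D.trace_bimul] at ht
  choose n hn using fun l : D.Λ => tr_int s hs (D.W l)
  have h1 : ∀ l, D.chi l s * D.chi l (D.star s) = ((n l * n l : ℤ) : ℂ) := by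
    intro l
    rw [← D.tr_W l s, ← D.tr_W l (D.star s), D.tr_star, hn]
    push_cast
    ring
  rw [Finset.sum_congr rfl fun l _ => h1 l, ← Int.cast_sum, Int.cast_eq_zero,
    Finset.sum_eq_zero_iff_of_nonneg fun l _ => mul_self_nonneg _] at ht
  have h2 := mul_self_eq_zero.1 (ht l (Finset.mem_univ l))
  rw [← D.tr_W, hn, h2, Int.cast_zero]

include D in
/-- **Theorem.** In a cellular algebra, an involution `s` such that `x ↦ s x s` has trace zero has
trace zero on every finite-dimensional module. -/
theorem tr_eq_zero (s : A) (hs : s * s = 1) (ht : LinearMap.trace ℂ A (bimul s s) = 0)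
    (M : Type) [AddCommGroup M] [Module ℂ M] [Module A M] [IsScalarTower ℂ A M]
    [FiniteDimensional ℂ M] : tr M s = 0 := by
  -- simple modules, by downward induction on the minimal cell
  have key : ∀ (l : D.Λ) (L : Type) [AddCommGroup L] [Module ℂ L] [Module A L]
      [IsScalarTower ℂ A L] [FiniteDimensional ℂ L], IsSimpleModule A L →
      (∃ (S T : D.M l) (v : L), D.C ⟨l, (S, T)⟩ • v ≠ 0) →
      (∀ m, m < l → ∀ (U V : D.M m) (v : L), D.C ⟨m, (U, V)⟩ • v = 0) → tr L s = 0 := by
    intro l
    induction l using WellFoundedGT.induction with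
    | ind l ih =>
      intro L _ _ _ _ _ hL h1 h2
      have e1 := D.tr_simple L hL l h1 h2 s
      rw [D.tr_W, D.chi_eq_zero s hs ht] at e1
      have hfd : FiniteDimensional ℂ (D.rad l) :=
        inferInstanceAs (FiniteDimensional ℂ ((D.rad l).restrictScalars ℂ))
      have e2 : tr (D.rad l) s = tr (D.rad l) (0 : A) := by
        refine tr_eq_of_simple s 0 {c | ∃ (m : D.Λ) (U V : D.M m), ¬ l < m ∧ c = D.C ⟨m, (U, V)⟩}
          ?_ _ (D.rad l) rfl ?_
        · intro L' _ _ _ _ _ hL' hI
          rw [tr_zero]
          have hnt : Nontrivial L' := hL'.nontrivial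
          obtain ⟨m, ⟨S, T, v, hv⟩, h4⟩ := D.exists_min L'
          by_cases hm : l < m
          · exact ih m hm L' hL' ⟨S, T, v, hv⟩ h4
          · exact absurd (hI _ ⟨m, S, T, hm, rfl⟩ v) hv
        · rintro c ⟨m, U, V, hm, rfl⟩ v
          by_cases hlm : l ≤ m
          · have : m = l := by
              rcases hlm.lt_or_eq with h | h
              · exact absurd h hm
              · exact h.symm
            subst this
            apply Subtype.ext
            exact v.2 U V
          · apply Subtype.ext
            exact D.C_smul_W hlm U V v.1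
      rw [tr_zero] at e2
      rw [e2, zero_add] at e1
      exact e1.symm
  have h := tr_eq_of_simple s 0 ∅ (fun L _ _ _ _ _ hL _ => by
    have hnt : Nontrivial L := hL.nontrivial
    obtain ⟨l, h1, h2⟩ := D.exists_min L
    rw [tr_zero]
    exact key l L hL h1 h2) _ M rfl (fun c hc => absurd hc (Set.notMem_empty c))
  rw [h, tr_zero]

end CellDatum

end Pool.Agent.H468R3
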