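import Pool.Agent.H468R3.RRCA

/-!
# The coinvariant algebra and the Demazure (BGG) operators
-/

set_option autoImplicit false

open scoped BigOperators

namespace Pool.Agent.H468R3

section

variable {V : Type} [AddCommGroup V] [Module ℂ V]

theorem act_apply (w : V ≃ₗ[ℂ] V) (f : Module.Dual ℂ V) (v : V) : act w f v = f (w⁻¹ v) := rfl

theorem act_mul (w w' : V ≃ₗ[ℂ] V) (f : Module.Dual ℂ V) : act (w * w') f = act w (act w' f) := by
  ext v
  rw [act_apply, act_apply, act_apply, mul_inv_rev]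
  rfl

theorem act_one' (f : Module.Dual ℂ V) : act 1 f = f := by
  ext v
  rw [act_apply, inv_one]
  rfl

/-- `act` as a linear map -/
def actL (w : V ≃ₗ[ℂ] V) : Module.Dual ℂ V →ₗ[ℂ] Module.Dual ℂ V where
  toFun f := act w f
  map_add' _ _ := rfl
  map_smul' _ _ := rfl

theorem actL_apply (w : V ≃ₗ[ℂ] V) (f : Module.Dual ℂ V) : actL w f = act w f := rfl

/-- `s v = v - α(v) β` with `α(β) = 2` -/
structure RootOf (s : V ≃ₗ[ℂ] V) (α : Module.Dual ℂ V) (β : V) : Prop where
  eq : ∀ v, s v = v - α v • β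
  two : α β = 2

theorem exists_root (s : V ≃ₗ[ℂ] V) (h : IsReflection s) (h2 : s * s = 1) :
    ∃ α β, RootOf s α β := by
  unfold IsReflection at h
  obtain ⟨⟨b, hb⟩, hb0, hb1⟩ := finrank_eq_one_iff'.1 h
  have hbne : b ≠ 0 := fun h0 => hb0 (Subtype.ext h0)
  obtain ⟨g, hg⟩ := Module.Projective.exists_dual_ne_zero ℂ hbne
  have key : ∀ v, s v = v - (g b)⁻¹ • g (v - s v) • b := by
    intro v
    obtain ⟨t, ht⟩ := hb1 ⟨s v - v, ⟨v, rfl⟩⟩
    have ht' : t • b = s v - v := congrArg Subtype.val ht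
    have h3 : g (v - s v) = -(t * g b) := by
      rw [← neg_sub, ← ht', map_neg, map_smul, smul_eq_mul]
    rw [h3, smul_smul]
    have h4 : (g b)⁻¹ * -(t * g b) = -t := by
      field_simp
    rw [h4, neg_smul, ht']
    abel
  refine ⟨(g b)⁻¹ • (g ∘ₗ (LinearMap.id - (s : V →ₗ[ℂ] V))), b, ?_, ?_⟩
  · intro v
    rw [key v, smul_smul]
    rfl
  · set α : Module.Dual ℂ V := (g b)⁻¹ • (g ∘ₗ (LinearMap.id - (s : V →ₗ[ℂ] V))) with hα
    have hs : ∀ v, s v = v - α v • b := by
      intro v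
      rw [key v, smul_smul]
      rfl
    have hss : ∀ v, s (s v) = v := fun v => by
      have := congrArg (fun e : V ≃ₗ[ℂ] V => e v) h2
      exact this
    obtain ⟨v, hv⟩ := hb
    have hv' : s v - v = b := hv
    have hαv : α v = -1 := by
      have h5 : (1 + α v) • b = 0 := by
        have := hs v
        rw [this] at hv'
        rw [add_smul, one_smul]
        nth_rewrite 1 [← hv']
        abel
      rcases smul_eq_zero.1 h5 with h6 | h6
      · linear_combination h6
      · exact absurd h6 hbne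
    have h7 := hss v
    rw [hs v, map_sub, map_smul, hs v, hs b, hαv] at h7
    have h8 : (2 - α b) • b = 0 := by
      rw [sub_smul, two_smul]
      have : v - (-1 : ℂ) • b - (-1 : ℂ) • (b - α b • b) - v = b + b - α b • b := by
        simp only [neg_smul, one_smul]
        abel
      rw [← this, h7, sub_self]
    rcases smul_eq_zero.1 h8 with h9 | h9
    · linear_combination -h9
    · exact absurd h9 hbne

theorem RootOf.act {s : V ≃ₗ[ℂ] V} {α : Module.Dual ℂ V} {β : V} (h : RootOf s α β)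
    (f : Module.Dual ℂ V) : act s f = f - f β • α := by
  ext v
  rw [act_apply]
  have h1 : s (v - α v • β) = v := by
    rw [map_sub, map_smul, h.eq v, h.eq β, h.two]
    module
  have h2 : s⁻¹ v = v - α v • β := by
    rw [← h1]
    change s.symm (s (v - α v • β)) = _
    rw [s.symm_apply_apply, h1]
  rw [h2, map_sub, map_smul, LinearMap.sub_apply, LinearMap.smul_apply, smul_eq_mul, smul_eq_mul,
    mul_comm]

theorem RootOf.act_root {s : V ≃ₗ[ℂ] V} {α : Module.Dual ℂ V} {β : V} (h : RootOf s α β) :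
    H468R3.act s α = -α := by
  rw [h.act, h.two]
  module

theorem RootOf.act_beta {s : V ≃ₗ[ℂ] V} {α : Module.Dual ℂ V} {β : V} (h : RootOf s α β)
    (f : Module.Dual ℂ V) : H468R3.act s f β = -f β := by
  rw [h.act, LinearMap.sub_apply, LinearMap.smul_apply, h.two, smul_eq_mul]
  ring

theorem RootOf.act_act {s : V ≃ₗ[ℂ] V} {α : Module.Dual ℂ V} {β : V} (h : RootOf s α β)
    (f : Module.Dual ℂ V) : H468R3.act s (H468R3.act s f) = f := by
  rw [h.act (H468R3.act s f), h.act_beta, h.act]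
  module

/-! ## the coinvariant algebra -/

/-- the relations of the coinvariant algebra -/
inductive RelP (W : Subgroup (V ≃ₗ[ℂ] V)) [Fintype W] :
    FreeAlgebra ℂ (Module.Dual ℂ V) → FreeAlgebra ℂ (Module.Dual ℂ V) → Prop
  | add (f f' : Module.Dual ℂ V) : RelP W (FreeAlgebra.ι ℂ (f + f'))
      (FreeAlgebra.ι ℂ f + FreeAlgebra.ι ℂ f')
  | smul (t : ℂ) (f : Module.Dual ℂ V) : RelP W (FreeAlgebra.ι ℂ (t • f)) (t • FreeAlgebra.ι ℂ f)
  | comm (f f' : Module.Dual ℂ V) : RelP W (FreeAlgebra.ι ℂ f * FreeAlgebra.ι ℂ f')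
      (FreeAlgebra.ι ℂ f' * FreeAlgebra.ι ℂ f)
  | inv (l : List (Module.Dual ℂ V)) (hl : l ≠ []) :
      RelP W (∑ w : W, (l.map fun f => FreeAlgebra.ι ℂ (act w f)).prod) 0

/-- the coinvariant algebra `ℂ[V]^{co W}` -/
def P (W : Subgroup (V ≃ₗ[ℂ] V)) [Fintype W] : Type := RingQuot (RelP W)

variable (W : Subgroup (V ≃ₗ[ℂ] V)) [Fintype W]

noncomputable instance : Ring (P W) := inferInstanceAs (Ring (RingQuot (RelP W)))
noncomputable instance : Algebra ℂ (P W) := inferInstanceAs (Algebra ℂ (RingQuot (RelP W)))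

/-- the projection -/
noncomputable def πP : FreeAlgebra ℂ (Module.Dual ℂ V) →ₐ[ℂ] P W := RingQuot.mkAlgHom ℂ (RelP W)

theorem πP_surj : Function.Surjective (πP W) := RingQuot.mkAlgHom_surjective ℂ _

variable {W}

theorem relP {a b : FreeAlgebra ℂ (Module.Dual ℂ V)} (h : RelP W a b) : πP W a = πP W b :=
  RingQuot.mkAlgHom_rel ℂ h

variable (W)

/-- the generators -/
noncomputable def ξ : Module.Dual ℂ V →ₗ[ℂ] P W where
  toFun f := πP W (FreeAlgebra.ι ℂ f)
  map_add' f f' := by rw [relP (RelP.add f f'), map_add]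
  map_smul' t f := by rw [relP (RelP.smul t f), map_smul]; rfl

theorem ξ_comm (f f' : Module.Dual ℂ V) : ξ W f * ξ W f' = ξ W f' * ξ W f := by
  have h := relP (W := W) (RelP.comm f f')
  rw [map_mul, map_mul] at h
  exact h

theorem ξ_inv (l : List (Module.Dual ℂ V)) (hl : l ≠ []) :
    ∑ w : W, (l.map fun f => ξ W (act w f)).prod = 0 := by
  have h := relP (W := W) (RelP.inv l hl)
  rw [map_sum, map_zero] at h
  rw [← h]
  refine Finset.sum_congr rfl fun w _ => ?_
  rw [map_list_prod, List.map_map]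
  rfl

variable {W}

/-- the universal property -/
noncomputable def P.lift {B : Type} [Ring B] [Algebra ℂ B] (φ : Module.Dual ℂ V →ₗ[ℂ] B)
    (hc : ∀ f f', φ f * φ f' = φ f' * φ f)
    (hinv : ∀ l : List (Module.Dual ℂ V), l ≠ [] →
      ∑ w : W, (l.map fun f => φ (act w f)).prod = 0) : P W →ₐ[ℂ] B :=
  RingQuot.liftAlgHom ℂ ⟨FreeAlgebra.lift ℂ φ, by
    intro a b h
    induction h with
    | add f f' => rw [map_add, FreeAlgebra.lift_ι_apply, FreeAlgebra.lift_ι_apply,
        FreeAlgebra.lift_ι_apply, map_add]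
    | smul t f => rw [map_smul, FreeAlgebra.lift_ι_apply, FreeAlgebra.lift_ι_apply, map_smul]
    | comm f f' => rw [map_mul, map_mul, FreeAlgebra.lift_ι_apply, FreeAlgebra.lift_ι_apply, hc]
    | inv l hl =>
      rw [map_zero, map_sum, ← hinv l hl]
      refine Finset.sum_congr rfl fun w _ => ?_
      rw [map_list_prod, List.map_map]
      congr 2
      funext f
      exact FreeAlgebra.lift_ι_apply _ _⟩

theorem P.lift_ξ {B : Type} [Ring B] [Algebra ℂ B] (φ : Module.Dual ℂ V →ₗ[ℂ] B)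
    (hc : ∀ f f', φ f * φ f' = φ f' * φ f)
    (hinv : ∀ l : List (Module.Dual ℂ V), l ≠ [] →
      ∑ w : W, (l.map fun f => φ (act w f)).prod = 0) (f : Module.Dual ℂ V) :
    P.lift (W := W) φ hc hinv (ξ W f) = φ f :=
  (RingQuot.liftAlgHom_mkAlgHom_apply ℂ (FreeAlgebra.lift ℂ φ) _ (FreeAlgebra.ι ℂ f)).trans
    (FreeAlgebra.lift_ι_apply _ _)

/-- induction on the coinvariant algebra -/
theorem P.ind {Q : P W → Prop} (h1 : Q 1) (hadd : ∀ p q, Q p → Q q → Q (p + q))
    (hsmul : ∀ (t : ℂ) p, Q p → Q (t • p)) (hξ : ∀ f p, Q p → Q (ξ W f * p)) (p : P W) : Q p := by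
  have key : ∀ q, Q q → Q (p * q) := by
    obtain ⟨a, rfl⟩ := πP_surj W p
    induction a using FreeAlgebra.induction with
    | grade0 t =>
      intro q hq
      rw [AlgHom.commutes, ← Algebra.smul_def]
      exact hsmul _ _ hq
    | grade1 f => exact fun q hq => hξ f q hq
    | mul a b ha hb =>
      intro q hq
      rw [map_mul, mul_assoc]
      exact ha _ (hb _ hq)
    | add a b ha hb =>
      intro q hq
      rw [map_add, add_mul]
      exact hadd _ _ (ha _ hq) (hb _ hq)
  have := key 1 h1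
  rwa [mul_one] at this

/-- the action of `W` on the coinvariant algebra -/
noncomputable def σ (w : W) : P W →ₐ[ℂ] P W :=
  P.lift (ξ W ∘ₗ actL (w : V ≃ₗ[ℂ] V)) (fun f f' => ξ_comm W _ _) (by
    intro l hl
    have h := Equiv.sum_comp (Equiv.mulLeft w) (fun u : W => (l.map fun f => ξ W (act u f)).prod)
    rw [ξ_inv W l hl] at h
    rw [← h]
    refine Finset.sum_congr rfl fun u _ => ?_
    congr 2)

theorem σξ (w : W) (f : Module.Dual ℂ V) : σ w (ξ W f) = ξ W (act (w : V ≃ₗ[ℂ] V) f) :=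
  P.lift_ξ _ _ _ f

theorem σ_one (p : P W) : σ (1 : W) p = p := by
  induction p using P.ind with
  | h1 => exact map_one _
  | hadd p q hp hq => rw [map_add, hp, hq]
  | hsmul t p hp => rw [map_smul, hp]
  | hξ f p hp => rw [map_mul, hp, σξ, Subgroup.coe_one, act_one']

theorem σ_mul (w w' : W) (p : P W) : σ (w * w') p = σ w (σ w' p) := by
  induction p using P.ind with
  | h1 => rw [map_one, map_one, map_one]
  | hadd p q hp hq => rw [map_add, map_add, map_add, hp, hq]
  | hsmul t p hp => rw [map_smul, map_smul, map_smul, hp]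
  | hξ f p hp => rw [map_mul, map_mul, map_mul, hp, σξ, σξ, σξ, Subgroup.coe_mul, act_mul]

/-! ## Demazure operators -/

/-- the matrix `[[s f, f(β)], [0, f]]` -/
noncomputable def N (s : V ≃ₗ[ℂ] V) (β : V) : Module.Dual ℂ V →ₗ[ℂ] Matrix (Fin 2) (Fin 2) (P W) where
  toFun f := !![ξ W (act s f), algebraMap ℂ (P W) (f β); 0, ξ W f]
  map_add' f f' := by
    rw [← actL_apply, map_add, map_add, map_add, LinearMap.add_apply, map_add]
    ext i j
    fin_cases i <;> fin_cases j <;> simp [actL_apply]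
  map_smul' t f := by
    rw [← actL_apply, map_smul, map_smul, map_smul, LinearMap.smul_apply]
    ext i j
    fin_cases i <;> fin_cases j <;> simp [actL_apply, Algebra.smul_def]

theorem N_apply (s : V ≃ₗ[ℂ] V) (β : V) (f : Module.Dual ℂ V) :
    N (W := W) s β f = !![ξ W (act s f), algebraMap ℂ (P W) (f β); 0, ξ W f] := rfl

theorem N_comm {s : V ≃ₗ[ℂ] V} {α : Module.Dual ℂ V} {β : V} (h : RootOf s α β)
    (f f' : Module.Dual ℂ V) : N (W := W) s β f * N s β f' = N s β f' * N s β f := by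
  rw [N_apply, N_apply, Matrix.mul_fin_two, Matrix.mul_fin_two]
  have e : ξ W (act s f) * algebraMap ℂ (P W) (f' β) + algebraMap ℂ (P W) (f β) * ξ W f' =
      ξ W (act s f') * algebraMap ℂ (P W) (f β) + algebraMap ℂ (P W) (f' β) * ξ W f := by
    rw [← Algebra.commutes, ← Algebra.commutes, ← Algebra.smul_def, ← Algebra.smul_def,
      ← Algebra.smul_def, ← Algebra.smul_def, h.act, h.act, map_sub, map_sub, map_smul, map_smul]
    module
  rw [e, ξ_comm W (act s f), ξ_comm W f]
  simp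

/-- the product of the matrices of a list -/
theorem N_list {s : V ≃ₗ[ℂ] V} {α : Module.Dual ℂ V} {β : V} (h : RootOf s α β)
    (l : List (Module.Dual ℂ V)) :
    (l.map (N (W := W) s β)).prod 1 0 = 0 ∧
    (l.map (N (W := W) s β)).prod 1 1 = (l.map (ξ W)).prod ∧
    (l.map (N (W := W) s β)).prod 0 0 = (l.map fun f => ξ W (act s f)).prod ∧
    (l.map (N (W := W) s β)).prod 1 1 - (l.map (N (W := W) s β)).prod 0 0 =
      ξ W α * (l.map (N (W := W) s β)).prod 0 1 ∧
    (l.map fun f => N (W := W) s β (act s f)).prod 0 1 = -(l.map (N (W := W) s β)).prod 0 1 := by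
  induction l with
  | nil => simp
  | cons f l ih =>
    obtain ⟨h1, h2, h3, h4, h5⟩ := ih
    have e10 : (N (W := W) s β f * (l.map (N (W := W) s β)).prod) 1 0 = 0 := by
      rw [Matrix.mul_apply, Fin.sum_univ_two, h1, N_apply]
      simp
    have e11 : (N (W := W) s β f * (l.map (N (W := W) s β)).prod) 1 1 =
        ξ W f * (l.map (N (W := W) s β)).prod 1 1 := by
      rw [Matrix.mul_apply, Fin.sum_univ_two, N_apply]
      simp
    have e00 : (N (W := W) s β f * (l.map (N (W := W) s β)).prod) 0 0 =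
        ξ W (act s f) * (l.map (N (W := W) s β)).prod 0 0 := by
      rw [Matrix.mul_apply, Fin.sum_univ_two, h1, N_apply]
      simp
    have e01 : (N (W := W) s β f * (l.map (N (W := W) s β)).prod) 0 1 =
        ξ W (act s f) * (l.map (N (W := W) s β)).prod 0 1 +
          f β • (l.map (N (W := W) s β)).prod 1 1 := by
      rw [Matrix.mul_apply, Fin.sum_univ_two, N_apply, Algebra.smul_def]
      simp
    simp only [List.map_cons, List.prod_cons]
    refine ⟨e10, ?_, ?_, ?_, ?_⟩
    · rw [e11, h2]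
    · rw [e00, h3]
    · rw [e11, e00, e01]
      have e4 : (l.map (N (W := W) s β)).prod 0 0 =
          (l.map (N (W := W) s β)).prod 1 1 - ξ W α * (l.map (N (W := W) s β)).prod 0 1 := by
        rw [← h4]
        abel
      have hb : ξ W f = ξ W (act s f) + f β • ξ W α := by
        rw [h.act, map_sub, map_smul]
        abel
      rw [e4, hb, mul_sub, mul_add, ← mul_assoc, ← mul_assoc, ξ_comm W α (act s f), mul_smul_comm,
        add_mul, smul_mul_assoc]
      abel
    · rw [Matrix.mul_apply, Fin.sum_univ_two, h5, e01, N_apply]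
      have e6 : (l.map fun f => N (W := W) s β (act s f)).prod 1 1 =
          (l.map (N (W := W) s β)).prod 0 0 := by
        rw [h3]
        have : ∀ l : List (Module.Dual ℂ V),
            (l.map fun f => N (W := W) s β (act s f)).prod 1 1 =
              (l.map fun f => ξ W (act s f)).prod ∧
            (l.map fun f => N (W := W) s β (act s f)).prod 1 0 = 0 := by
          intro l
          induction l with
          | nil => simp
          | cons f l ih =>
            simp only [List.map_cons, List.prod_cons]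
            rw [Matrix.mul_apply, Fin.sum_univ_two, Matrix.mul_apply, Fin.sum_univ_two, ih.1, ih.2,
              N_apply]
            simp
        exact (this l).1
      rw [e6, h.act_act, h.act_beta]
      have e4 : (l.map (N (W := W) s β)).prod 0 0 =
          (l.map (N (W := W) s β)).prod 1 1 - ξ W α * (l.map (N (W := W) s β)).prod 0 1 := by
        rw [← h4]
        abel
      rw [e4, h.act]
      simp only [Matrix.of_apply, Matrix.cons_val', Matrix.cons_val_zero, Matrix.cons_val_one,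
        Matrix.cons_val_fin_one]
      rw [← Algebra.smul_def, map_sub, map_smul, sub_mul, smul_mul_assoc, mul_neg, smul_sub,
        neg_smul, neg_smul]
      abel

/-- the homomorphism giving the Demazure operator -/
noncomputable def Nh {s : W} {α : Module.Dual ℂ V} {β : V} (h : RootOf (s : V ≃ₗ[ℂ] V) α β) :
    P W →ₐ[ℂ] Matrix (Fin 2) (Fin 2) (P W) :=
  P.lift (N (s : V ≃ₗ[ℂ] V) β) (N_comm h) (by
    intro l hl
    have e : ∀ w : W, (l.map fun f => N (W := W) (s : V ≃ₗ[ℂ] V) β (act w f)).prod =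
        ((l.map (act (w : V ≃ₗ[ℂ] V))).map (N (W := W) (s : V ≃ₗ[ℂ] V) β)).prod := by
      intro w
      rw [List.map_map]
      rfl
    ext i j
    rw [Matrix.sum_apply, Finset.sum_congr rfl fun w _ => by rw [e w]]
    fin_cases i <;> fin_cases j
    · change ∑ w : W, ((l.map (act (w : V ≃ₗ[ℂ] V))).map (N (W := W) (s : V ≃ₗ[ℂ] V) β)).prod 0 0 = 0
      have h0 := Equiv.sum_comp (Equiv.mulLeft s)
        (fun u : W => (l.map fun f => ξ W (act u f)).prod)
      rw [ξ_inv W l hl] at h0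
      rw [Finset.sum_congr rfl fun w _ => (N_list h _).2.2.1, ← h0]
      refine Finset.sum_congr rfl fun u _ => ?_
      rw [List.map_map]
      congr 2
    · change ∑ w : W, ((l.map (act (w : V ≃ₗ[ℂ] V))).map (N (W := W) (s : V ≃ₗ[ℂ] V) β)).prod 0 1 = 0
      set F : W → P W := fun w =>
        ((l.map (act (w : V ≃ₗ[ℂ] V))).map (N (W := W) (s : V ≃ₗ[ℂ] V) β)).prod 0 1 with hF
      have h1 : ∀ w, F (s * w) = -F w := by
        intro w
        have h5 := (N_list (W := W) h (l.map (act (w : V ≃ₗ[ℂ] V)))).2.2.2.2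
        rw [hF]
        change _ = -((l.map (act (w : V ≃ₗ[ℂ] V))).map (N (W := W) (s : V ≃ₗ[ℂ] V) β)).prod 0 1
        rw [← h5, List.map_map]
        have h6 : (l.map (act ((s * w : W) : V ≃ₗ[ℂ] V))).map (N (W := W) (s : V ≃ₗ[ℂ] V) β) =
            List.map ((fun f => N (W := W) (s : V ≃ₗ[ℂ] V) β (act (s : V ≃ₗ[ℂ] V) f)) ∘
              act (w : V ≃ₗ[ℂ] V)) l := by
          rw [List.map_map]
          congr 1
        exact congrArg (fun L : List (Matrix (Fin 2) (Fin 2) (P W)) => L.prod 0 1) h6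
      have h2 : ∑ w, F w = -∑ w, F w := by
        conv_lhs => rw [← Equiv.sum_comp (Equiv.mulLeft s)]
        rw [← Finset.sum_neg_distrib]
        exact Finset.sum_congr rfl fun w _ => h1 w
      have h3 : (2 : ℂ) • ∑ w, F w = 0 := by
        rw [two_smul]
        nth_rewrite 1 [h2]
        rw [neg_add_cancel]
      exact (smul_eq_zero.1 h3).resolve_left two_ne_zero
    · change ∑ w : W, ((l.map (act (w : V ≃ₗ[ℂ] V))).map (N (W := W) (s : V ≃ₗ[ℂ] V) β)).prod 1 0 = 0
      exact Finset.sum_eq_zero fun w _ => (N_list h _).1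
    · change ∑ w : W, ((l.map (act (w : V ≃ₗ[ℂ] V))).map (N (W := W) (s : V ≃ₗ[ℂ] V) β)).prod 1 1 = 0
      rw [Finset.sum_congr rfl fun w _ => (N_list h _).2.1, ← ξ_inv W l hl]
      refine Finset.sum_congr rfl fun u _ => ?_
      rw [List.map_map]
      rfl)

variable {s : W} {α : Module.Dual ℂ V} {β : V}

theorem Nh_ξ (h : RootOf (s : V ≃ₗ[ℂ] V) α β) (f : Module.Dual ℂ V) :
    Nh h (ξ W f) = N (s : V ≃ₗ[ℂ] V) β f := P.lift_ξ _ _ _ f

theorem Nh_low (h : RootOf (s : V ≃ₗ[ℂ] V) α β) (p : P W) :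
    Nh h p 1 0 = 0 ∧ Nh h p 1 1 = p ∧ Nh h p 0 0 = σ s p := by
  induction p using P.ind with
  | h1 => simp
  | hadd p q hp hq =>
    rw [map_add, map_add]
    simp [hp, hq]
  | hsmul t p hp =>
    rw [map_smul, map_smul]
    simp [hp]
  | hξ f p hp =>
    rw [map_mul, map_mul, Nh_ξ, N_apply, σξ]
    simp [Matrix.mul_apply, Fin.sum_univ_two, hp]

/-- the Demazure operator -/
noncomputable def dem (h : RootOf (s : V ≃ₗ[ℂ] V) α β) : P W →ₗ[ℂ] P W where
  toFun p := Nh h p 0 1
  map_add' p q := by rw [map_add]; rfl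
  map_smul' t p := by rw [map_smul]; rfl

theorem dem_one (h : RootOf (s : V ≃ₗ[ℂ] V) α β) : dem h (1 : P W) = 0 := by
  change Nh h 1 0 1 = 0
  rw [map_one]
  rfl

theorem dem_ξ (h : RootOf (s : V ≃ₗ[ℂ] V) α β) (f : Module.Dual ℂ V) (p : P W) :
    dem h (ξ W f * p) = ξ W (act (s : V ≃ₗ[ℂ] V) f) * dem h p + f β • p := by
  change Nh h (ξ W f * p) 0 1 = _ * Nh h p 0 1 + _
  rw [map_mul, Matrix.mul_apply, Fin.sum_univ_two, (Nh_low h p).2.1, Nh_ξ, N_apply,
    Algebra.smul_def]
  rfl

theorem root_dem (h : RootOf (s : V ≃ₗ[ℂ] V) α β) (p : P W) :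
    ξ W α * dem h p = p - σ s p := by
  induction p using P.ind with
  | h1 => rw [dem_one, mul_zero, map_one, sub_self]
  | hadd p q hp hq =>
    rw [map_add, map_add, mul_add, hp, hq]
    abel
  | hsmul t p hp => rw [map_smul, map_smul, mul_smul_comm, hp, smul_sub]
  | hξ f p hp =>
    rw [dem_ξ, mul_add, ← mul_assoc, ξ_comm W α, mul_assoc, hp, map_mul, σξ, h.act, map_sub,
      map_smul, mul_smul_comm, sub_mul, sub_mul, mul_sub, mul_sub, smul_mul_assoc, smul_mul_assoc]
    abel

/-- a second form of the Leibniz rule -/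
theorem dem_ξ' (h : RootOf (s : V ≃ₗ[ℂ] V) α β) (f : Module.Dual ℂ V) (p : P W) :
    dem h (ξ W f * p) = ξ W f * dem h p + f β • σ s p := by
  rw [dem_ξ, h.act, map_sub, map_smul, sub_mul, smul_mul_assoc, root_dem, smul_sub]
  abel

theorem dem_dem (h : RootOf (s : V ≃ₗ[ℂ] V) α β) (p : P W) : dem h (dem h p) = 0 := by
  induction p using P.ind with
  | h1 => rw [dem_one, map_zero]
  | hadd p q hp hq => rw [map_add, map_add, hp, hq, add_zero]
  | hsmul t p hp => rw [map_smul, map_smul, hp, smul_zero]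
  | hξ f p hp =>
    rw [dem_ξ, map_add, dem_ξ, hp, mul_zero, zero_add, map_smul, h.act_beta, neg_smul,
      neg_add_cancel]

theorem dem_root (h : RootOf (s : V ≃ₗ[ℂ] V) α β) (p : P W) :
    dem h (ξ W α * p) = (2 : ℂ) • p - ξ W α * dem h p := by
  rw [dem_ξ, h.act_root, h.two, map_neg, neg_mul]
  abel

/-- equivariance of the Demazure operators -/
theorem σ_dem {s t w : W} {α α' : Module.Dual ℂ V} {β β' : V}
    (h : RootOf (s : V ≃ₗ[ℂ] V) α β) (h' : RootOf (t : V ≃ₗ[ℂ] V) α' β') (hw : t * w = w * s)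
    (v : V) (p : P W) :
    α v • σ w (dem h p) = α' ((w : V ≃ₗ[ℂ] V) v) • dem h' (σ w p) := by
  have hst : ∀ u, (t : V ≃ₗ[ℂ] V) ((w : V ≃ₗ[ℂ] V) u) = (w : V ≃ₗ[ℂ] V) ((s : V ≃ₗ[ℂ] V) u) :=
    fun u => congrArg (fun e : W => (e : V ≃ₗ[ℂ] V) u) hw
  induction p using P.ind with
  | h1 => rw [dem_one, map_zero, map_one, dem_one, smul_zero, smul_zero]
  | hadd p q hp hq => rw [map_add, map_add, map_add, map_add, smul_add, smul_add, hp, hq]
  | hsmul r p hp =>
    rw [map_smul, map_smul, map_smul, map_smul, smul_comm (α v), hp, smul_comm r]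
  | hξ f p hp =>
    have e1 : act (t : V ≃ₗ[ℂ] V) (act (w : V ≃ₗ[ℂ] V) f) =
        act (w : V ≃ₗ[ℂ] V) (act (s : V ≃ₗ[ℂ] V) f) := by
      rw [← act_mul, ← act_mul]
      exact congrArg (fun e : W => act (e : V ≃ₗ[ℂ] V) f) hw
    have e2 : α' ((w : V ≃ₗ[ℂ] V) v) • act (w : V ≃ₗ[ℂ] V) f β' = α v • f β := by
      have h1 := h'.eq ((w : V ≃ₗ[ℂ] V) v)
      rw [hst, h.eq, map_sub, map_smul] at h1
      have h2 : α v • (w : V ≃ₗ[ℂ] V) β = α' ((w : V ≃ₗ[ℂ] V) v) • β' := sub_right_injective h1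
      have h3 := congrArg (act (w : V ≃ₗ[ℂ] V) f) h2
      rw [map_smul, map_smul] at h3
      rw [← h3, act_apply]
      congr 2
      exact (w : V ≃ₗ[ℂ] V).symm_apply_apply β
    rw [smul_eq_mul, smul_eq_mul] at e2
    rw [dem_ξ, map_add, map_mul, map_smul, σξ, smul_add, ← mul_smul_comm, hp, map_mul, σξ, dem_ξ,
      smul_add, e1, mul_smul_comm, smul_smul, smul_smul, e2]

end

end Pool.Agent.H468R3
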