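import Pool.Agent.H468R3.Dk1

/-!
# Representations of restricted rational Cherednik algebras and Dunkl operators
-/

set_option autoImplicit false

open scoped BigOperators TensorProduct

namespace Pool.Agent.H468R3

section

variable {V : Type} [AddCommGroup V] [Module ℂ V] {W : Subgroup (V ≃ₗ[ℂ] V)}

open Classical in
/-- the coefficient of `s` in `-[y, x]` -/
noncomputable def coef (c : W → ℂ) (s : W) (v : V) (f : Module.Dual ℂ V) : ℂ :=
  if IsReflection (s : V ≃ₗ[ℂ] V) then c s * (f - act s f) v else 0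

/-- a representation of the restricted rational Cherednik algebra in an algebra `B` -/
structure Pres [Fintype W] (B : Type) [Ring B] [Algebra ℂ B] (c : W → ℂ) where
  /-- image of `x` -/
  x : Module.Dual ℂ V →ₗ[ℂ] B
  /-- image of `y` -/
  y : V →ₗ[ℂ] B
  /-- image of `w` -/
  g : W →* B
  gx : ∀ (w : W) f, g w * x f = x (act (w : V ≃ₗ[ℂ] V) f) * g w
  gy : ∀ (w : W) v, g w * y v = y ((w : V ≃ₗ[ℂ] V) v) * g w
  xx : ∀ f f', x f * x f' = x f' * x f
  yy : ∀ v v', y v * y v' = y v' * y v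
  yx : ∀ v f, y v * x f - x f * y v = -∑ s : W, coef c s v f • g s
  ix : ∀ l : List (Module.Dual ℂ V), l ≠ [] →
    ∑ w : W, (l.map fun f => x (act (w : V ≃ₗ[ℂ] V) f)).prod = 0
  iy : ∀ l : List V, l ≠ [] → ∑ w : W, (l.map fun v => y ((w : V ≃ₗ[ℂ] V) v)).prod = 0

/-- the restricted rational Cherednik algebra -/
def HH [Fintype W] (c : W → ℂ) : Type := RRCA W c

noncomputable instance [Fintype W] (c : W → ℂ) : Ring (HH c) := inferInstanceAs (Ring (RRCA W c))
noncomputable instance [Fintype W] (c : W → ℂ) : Algebra ℂ (HH c) :=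
  inferInstanceAs (Algebra ℂ (RRCA W c))

variable [Fintype W] (c : W → ℂ)

/-- the projection -/
noncomputable def πH : Fr W →ₐ[ℂ] HH c := RingQuot.mkAlgHom ℂ (Rel W c)

theorem πH_surj : Function.Surjective (πH c) := RingQuot.mkAlgHom_surjective ℂ _

variable {c}

theorem relH {a b : Fr W} (h : Rel W c a b) : πH c a = πH c b :=
  RingQuot.mkAlgHom_rel ℂ h

variable (c)

/-- the universal representation -/
noncomputable def uni : Pres (HH c) c where
  x := { toFun := fun f => πH c (X W f)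
         map_add' := fun f f' => by rw [relH (Rel.x_add f f'), map_add]
         map_smul' := fun t f => by rw [relH (Rel.x_smul t f), map_smul]; rfl }
  y := { toFun := fun v => πH c (Y W v)
         map_add' := fun f f' => by rw [relH (Rel.y_add f f'), map_add]
         map_smul' := fun t f => by rw [relH (Rel.y_smul t f), map_smul]; rfl }
  g := { toFun := fun w => πH c (G W w)
         map_one' := by rw [relH Rel.g_one, map_one]
         map_mul' := fun w w' => by rw [relH (Rel.g_mul w w'), map_mul] }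
  gx w f := by
    have h := relH (Rel.g_x (c := c) w f)
    rw [map_mul, map_mul] at h
    exact h
  gy w v := by
    have h := relH (Rel.g_y (c := c) w v)
    rw [map_mul, map_mul] at h
    exact h
  xx f f' := by
    have h := relH (Rel.x_x (c := c) f f')
    rw [map_mul, map_mul] at h
    exact h
  yy v v' := by
    have h := relH (Rel.y_y (c := c) v v')
    rw [map_mul, map_mul] at h
    exact h
  yx v f := by
    have h := relH (Rel.y_x (c := c) v f)
    rw [map_sub, map_mul, map_mul, map_neg, map_sum] at h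
    refine h.trans ?_
    congr 1
    refine Finset.sum_congr rfl fun s _ => ?_
    unfold coef
    split_ifs
    · exact map_smul _ _ _
    · rw [map_zero, zero_smul]
  ix l hl := by
    have h := relH (Rel.inv_x (c := c) l hl)
    rw [map_sum, map_zero] at h
    rw [← h]
    refine Finset.sum_congr rfl fun w _ => ?_
    rw [map_list_prod, List.map_map]
    rfl
  iy l hl := by
    have h := relH (Rel.inv_y (c := c) l hl)
    rw [map_sum, map_zero] at h
    rw [← h]
    refine Finset.sum_congr rfl fun w _ => ?_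
    rw [map_list_prod, List.map_map]
    rfl

variable {c}

/-- the function on the generators -/
def Pres.fn {B : Type} [Ring B] [Algebra ℂ B] (D : Pres B c) : Gen W → B
  | Gen.x f => D.x f
  | Gen.y v => D.y v
  | Gen.g w => D.g w

theorem Pres.fnX {B : Type} [Ring B] [Algebra ℂ B] (D : Pres B c) (f : Module.Dual ℂ V) :
    FreeAlgebra.lift ℂ D.fn (X W f) = D.x f := FreeAlgebra.lift_ι_apply _ _
theorem Pres.fnY {B : Type} [Ring B] [Algebra ℂ B] (D : Pres B c) (v : V) :
    FreeAlgebra.lift ℂ D.fn (Y W v) = D.y v := FreeAlgebra.lift_ι_apply _ _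
theorem Pres.fnG {B : Type} [Ring B] [Algebra ℂ B] (D : Pres B c) (w : W) :
    FreeAlgebra.lift ℂ D.fn (G W w) = D.g w := FreeAlgebra.lift_ι_apply _ _

theorem Pres.rel {B : Type} [Ring B] [Algebra ℂ B] (D : Pres B c) {a b : Fr W}
    (h : Rel W c a b) : FreeAlgebra.lift ℂ D.fn a = FreeAlgebra.lift ℂ D.fn b := by
  induction h with
  | x_add f f' => rw [map_add, D.fnX, D.fnX, D.fnX, map_add]
  | x_smul t f => rw [map_smul, D.fnX, D.fnX, map_smul]
  | y_add v v' => rw [map_add, D.fnY, D.fnY, D.fnY, map_add]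
  | y_smul t v => rw [map_smul, D.fnY, D.fnY, map_smul]
  | g_one => rw [map_one, D.fnG, map_one]
  | g_mul w w' => rw [map_mul, D.fnG, D.fnG, D.fnG, map_mul]
  | g_x w f => rw [map_mul, map_mul, D.fnX, D.fnX, D.fnG, D.gx]
  | g_y w v => rw [map_mul, map_mul, D.fnY, D.fnY, D.fnG, D.gy]
  | x_x f f' => rw [map_mul, map_mul, D.fnX, D.fnX, D.xx]
  | y_y v v' => rw [map_mul, map_mul, D.fnY, D.fnY, D.yy]
  | y_x v f =>
    rw [map_sub, map_mul, map_mul, D.fnX, D.fnY, D.yx, map_neg, map_sum]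
    congr 1
    refine Finset.sum_congr rfl fun s _ => ?_
    unfold coef
    split_ifs
    · rw [map_smul, D.fnG]
    · rw [map_zero, zero_smul]
  | inv_x l hl =>
    rw [map_zero, map_sum, ← D.ix l hl]
    refine Finset.sum_congr rfl fun w _ => ?_
    rw [map_list_prod, List.map_map]
    congr 2
    funext f
    exact D.fnX _
  | inv_y l hl =>
    rw [map_zero, map_sum, ← D.iy l hl]
    refine Finset.sum_congr rfl fun w _ => ?_
    rw [map_list_prod, List.map_map]
    congr 2
    funext f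
    exact D.fnY _

/-- the homomorphism defined by a representation -/
noncomputable def Pres.hom {B : Type} [Ring B] [Algebra ℂ B] (D : Pres B c) : HH c →ₐ[ℂ] B :=
  RingQuot.liftAlgHom ℂ ⟨FreeAlgebra.lift ℂ D.fn, fun _ _ h => D.rel h⟩

theorem Pres.hom_x {B : Type} [Ring B] [Algebra ℂ B] (D : Pres B c) (f : Module.Dual ℂ V) :
    D.hom ((uni c).x f) = D.x f :=
  (RingQuot.liftAlgHom_mkAlgHom_apply ℂ (FreeAlgebra.lift ℂ D.fn) (fun _ _ h => D.rel h)
    (X W f)).trans (D.fnX f)

theorem Pres.hom_y {B : Type} [Ring B] [Algebra ℂ B] (D : Pres B c) (v : V) :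
    D.hom ((uni c).y v) = D.y v :=
  (RingQuot.liftAlgHom_mkAlgHom_apply ℂ (FreeAlgebra.lift ℂ D.fn) (fun _ _ h => D.rel h)
    (Y W v)).trans (D.fnY v)

theorem Pres.hom_g {B : Type} [Ring B] [Algebra ℂ B] (D : Pres B c) (w : W) :
    D.hom ((uni c).g w) = D.g w :=
  (RingQuot.liftAlgHom_mkAlgHom_apply ℂ (FreeAlgebra.lift ℂ D.fn) (fun _ _ h => D.rel h)
    (G W w)).trans (D.fnG w)

/-- induction -/
theorem HH.ind {Q : HH c → Prop} (h1 : Q 1) (hadd : ∀ a b, Q a → Q b → Q (a + b))
    (hsmul : ∀ (t : ℂ) a, Q a → Q (t • a)) (hx : ∀ f a, Q a → Q ((uni c).x f * a))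
    (hy : ∀ v a, Q a → Q ((uni c).y v * a)) (hg : ∀ w a, Q a → Q ((uni c).g w * a))
    (a : HH c) : Q a := by
  have key : ∀ b, Q b → Q (a * b) := by
    obtain ⟨a, rfl⟩ := πH_surj c a
    induction a using FreeAlgebra.induction with
    | grade0 t =>
      intro b hb
      rw [AlgHom.commutes, ← Algebra.smul_def]
      exact hsmul _ _ hb
    | grade1 f =>
      cases f with
      | x f => exact fun b hb => hx f b hb
      | y v => exact fun b hb => hy v b hb
      | g w => exact fun b hb => hg w b hb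
    | mul a b ha hb =>
      intro q hq
      rw [map_mul, mul_assoc]
      exact ha _ (hb _ hq)
    | add a b ha hb =>
      intro q hq
      rw [map_add, add_mul]
      exact hadd _ _ (ha _ hq) (hb _ hq)
  have := key 1 h1
  rwa [mul_one] at this

/-! ## conjugates of reflections -/

theorem isReflection_conj (w s : V ≃ₗ[ℂ] V) (h : IsReflection s) :
    IsReflection (w * s * w⁻¹) := by
  unfold IsReflection at h ⊢
  have e : ((w * s * w⁻¹ : V ≃ₗ[ℂ] V) : V →ₗ[ℂ] V) - LinearMap.id =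
      (w : V →ₗ[ℂ] V) ∘ₗ ((s : V →ₗ[ℂ] V) - LinearMap.id) ∘ₗ ((w⁻¹ : V ≃ₗ[ℂ] V) : V →ₗ[ℂ] V) := by
    ext v
    change w (s (w⁻¹ v)) - v = w (s (w⁻¹ v) - w⁻¹ v)
    rw [map_sub]
    congr 1
    exact (w.apply_symm_apply v).symm
  rw [e, LinearMap.range_comp, LinearMap.range_comp_of_range_eq_top _ (LinearEquiv.range _)]
  exact (LinearEquiv.finrank_map_eq w _).trans h

variable (c) in
open Classical in
/-- the parameter, extended by zero from the reflections -/
noncomputable def cc (s : W) : ℂ := if IsReflection (s : V ≃ₗ[ℂ] V) then c s else 0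

theorem cc_conj (hc : ∀ w s : W, c (w * s * w⁻¹) = c s) (w s : W) :
    cc c (w * s * w⁻¹) = cc c s := by
  unfold cc
  have h : IsReflection ((w * s * w⁻¹ : W) : V ≃ₗ[ℂ] V) ↔ IsReflection (s : V ≃ₗ[ℂ] V) := by
    constructor
    · intro h
      have := isReflection_conj ((w⁻¹ : W) : V ≃ₗ[ℂ] V) _ h
      have e : ((w⁻¹ : W) : V ≃ₗ[ℂ] V) * ((w * s * w⁻¹ : W) : V ≃ₗ[ℂ] V) *
          ((w⁻¹ : W) : V ≃ₗ[ℂ] V)⁻¹ = (s : V ≃ₗ[ℂ] V) := by
        have : w⁻¹ * (w * s * w⁻¹) * (w⁻¹)⁻¹ = s := by group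
        exact congrArg (fun e : W => (e : V ≃ₗ[ℂ] V)) this
      rwa [e] at this
    · intro h
      exact isReflection_conj (w : V ≃ₗ[ℂ] V) _ h
  by_cases hs : IsReflection (s : V ≃ₗ[ℂ] V)
  · rw [if_pos hs, if_pos (h.2 hs), hc]
  · rw [if_neg hs, if_neg (fun h' => hs (h.1 h'))]

/-- a choice of roots and coroots -/
structure Roots (W : Subgroup (V ≃ₗ[ℂ] V)) where
  /-- the root -/
  α : W → Module.Dual ℂ V
  /-- the coroot -/
  β : W → V
  h : ∀ s : W, IsReflection (s : V ≃ₗ[ℂ] V) → RootOf (s : V ≃ₗ[ℂ] V) (α s) (β s)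

theorem exists_roots (h2 : ∀ s : W, IsReflection (s : V ≃ₗ[ℂ] V) → s * s = 1) :
    Nonempty (Roots W) := by
  classical
  have h : ∀ s : W, ∃ (α : Module.Dual ℂ V) (β : V), IsReflection (s : V ≃ₗ[ℂ] V) →
      RootOf (s : V ≃ₗ[ℂ] V) α β := by
    intro s
    by_cases hs : IsReflection (s : V ≃ₗ[ℂ] V)
    · obtain ⟨α, β, h⟩ := exists_root (s : V ≃ₗ[ℂ] V) hs
        (congrArg (fun e : W => (e : V ≃ₗ[ℂ] V)) (h2 s hs))
      exact ⟨α, β, fun _ => h⟩
    · exact ⟨0, 0, fun h => absurd h hs⟩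
  choose α β h using h
  exact ⟨⟨α, β, h⟩⟩

variable (R : Roots W)

theorem coef_eq (s : W) (v : V) (f : Module.Dual ℂ V) :
    coef c s v f = cc c s * (f (R.β s) * R.α s v) := by
  unfold coef cc
  split_ifs with h
  · rw [(R.h s h).act, LinearMap.sub_apply, LinearMap.sub_apply, LinearMap.smul_apply, smul_eq_mul]
    ring
  · rw [zero_mul]

open Classical in
/-- the Demazure operator of a reflection -/
noncomputable def dm (s : W) : P W →ₗ[ℂ] P W :=
  if h : IsReflection (s : V ≃ₗ[ℂ] V) then dem (R.h s h) else 0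

theorem dm_one (s : W) : dm R s 1 = 0 := by
  unfold dm
  split_ifs with h
  · exact dem_one _
  · rfl

theorem cc_dm_ξ (s : W) (f : Module.Dual ℂ V) (p : P W) :
    cc c s • dm R s (ξ W f * p) = cc c s • (ξ W f * dm R s p + f (R.β s) • σ s p) := by
  unfold dm cc
  split_ifs with h
  · rw [dem_ξ']
  · rw [zero_smul, zero_smul]

theorem σ_dm (s w : W) (v : V) (p : P W) :
    R.α s v • σ w (dm R s p) =
      R.α (w * s * w⁻¹) ((w : V ≃ₗ[ℂ] V) v) • dm R (w * s * w⁻¹) (σ w p) := by
  by_cases h : IsReflection (s : V ≃ₗ[ℂ] V)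
  · have h' : IsReflection ((w * s * w⁻¹ : W) : V ≃ₗ[ℂ] V) :=
      isReflection_conj (w : V ≃ₗ[ℂ] V) _ h
    unfold dm
    rw [dif_pos h, dif_pos h']
    exact σ_dem (R.h s h) (R.h _ h') (by group) v p
  · have h' : ¬ IsReflection ((w * s * w⁻¹ : W) : V ≃ₗ[ℂ] V) := by
      intro h'
      apply h
      have := isReflection_conj ((w⁻¹ : W) : V ≃ₗ[ℂ] V) _ h'
      have e : ((w⁻¹ : W) : V ≃ₗ[ℂ] V) * ((w * s * w⁻¹ : W) : V ≃ₗ[ℂ] V) *
          ((w⁻¹ : W) : V ≃ₗ[ℂ] V)⁻¹ = (s : V ≃ₗ[ℂ] V) := by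
        have : w⁻¹ * (w * s * w⁻¹) * (w⁻¹)⁻¹ = s := by group
        exact congrArg (fun e : W => (e : V ≃ₗ[ℂ] V)) this
      rwa [e] at this
    unfold dm
    rw [dif_neg h, dif_neg h', LinearMap.zero_apply, LinearMap.zero_apply, map_zero, smul_zero,
      smul_zero]

end

end Pool.Agent.H468R3
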