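import Pool.Agent.H468R3.Dk2

/-!
# The Dunkl representation
-/

set_option autoImplicit false

open scoped BigOperators TensorProduct

namespace Pool.Agent.H468R3

section

variable {V : Type} [AddCommGroup V] [Module ℂ V] {W : Subgroup (V ≃ₗ[ℂ] V)} [Fintype W]
  {c : W → ℂ} (R : Roots W) {B : Type} [Ring B] [Algebra ℂ B] (D : Pres B c)

/-- multiplication by `x` -/
noncomputable def Xo : Module.Dual ℂ V →ₗ[ℂ] Module.End ℂ (P W ⊗[ℂ] B) where
  toFun f := LinearMap.rTensor B (LinearMap.mulLeft ℂ (ξ W f))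
  map_add' f f' := by
    apply TensorProduct.ext'
    intro p b
    simp [add_mul, TensorProduct.add_tmul]
  map_smul' t f := by
    apply TensorProduct.ext'
    intro p b
    simp [TensorProduct.smul_tmul']

theorem Xo_tmul (f : Module.Dual ℂ V) (p : P W) (b : B) :
    Xo f (p ⊗ₜ[ℂ] b) = (ξ W f * p) ⊗ₜ[ℂ] b := rfl

/-- the diagonal action of `W` -/
noncomputable def Go : W →* Module.End ℂ (P W ⊗[ℂ] B) where
  toFun w := TensorProduct.map (σ w).toLinearMap (LinearMap.mulLeft ℂ (D.g w))
  map_one' := by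
    apply TensorProduct.ext'
    intro p b
    rw [TensorProduct.map_tmul, map_one, AlgHom.toLinearMap_apply, σ_one, LinearMap.mulLeft_apply,
      one_mul]
    rfl
  map_mul' w w' := by
    apply TensorProduct.ext'
    intro p b
    rw [Module.End.mul_apply, TensorProduct.map_tmul, TensorProduct.map_tmul,
      TensorProduct.map_tmul, map_mul]
    simp only [AlgHom.toLinearMap_apply, σ_mul, LinearMap.mulLeft_apply, mul_assoc]

theorem Go_tmul (w : W) (p : P W) (b : B) :
    Go D w (p ⊗ₜ[ℂ] b) = (σ w p) ⊗ₜ[ℂ] (D.g w * b) := rfl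

/-- the Dunkl operators -/
noncomputable def Yo : V →ₗ[ℂ] Module.End ℂ (P W ⊗[ℂ] B) where
  toFun v := LinearMap.lTensor (P W) (LinearMap.mulLeft ℂ (D.y v)) -
    ∑ s : W, (cc c s * R.α s v) • TensorProduct.map (dm R s) (LinearMap.mulLeft ℂ (D.g s))
  map_add' v v' := by
    have h1 : LinearMap.lTensor (P W) (LinearMap.mulLeft ℂ (D.y (v + v'))) =
        LinearMap.lTensor (P W) (LinearMap.mulLeft ℂ (D.y v)) +
          LinearMap.lTensor (P W) (LinearMap.mulLeft ℂ (D.y v')) := by
      apply TensorProduct.ext'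
      intro p b
      simp [add_mul, TensorProduct.tmul_add]
    rw [h1]
    simp only [map_add, mul_add, add_smul, Finset.sum_add_distrib]
    abel
  map_smul' t v := by
    have h1 : LinearMap.lTensor (P W) (LinearMap.mulLeft ℂ (D.y (t • v))) =
        t • LinearMap.lTensor (P W) (LinearMap.mulLeft ℂ (D.y v)) := by
      apply TensorProduct.ext'
      intro p b
      simp
    rw [h1, RingHom.id_apply, smul_sub, Finset.smul_sum]
    congr 1
    refine Finset.sum_congr rfl fun s _ => ?_
    rw [map_smul, smul_smul, smul_eq_mul, mul_left_comm]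

theorem Yo_tmul (v : V) (p : P W) (b : B) :
    Yo R D v (p ⊗ₜ[ℂ] b) = p ⊗ₜ[ℂ] (D.y v * b) -
      ∑ s : W, (cc c s * R.α s v) • (dm R s p ⊗ₜ[ℂ] (D.g s * b)) := by
  change (LinearMap.lTensor (P W) (LinearMap.mulLeft ℂ (D.y v)) -
    ∑ s : W, (cc c s * R.α s v) • TensorProduct.map (dm R s) (LinearMap.mulLeft ℂ (D.g s)))
    (p ⊗ₜ[ℂ] b) = _
  rw [LinearMap.sub_apply, LinearMap.sum_apply]
  rfl

theorem Yo_one (v : V) (b : B) : Yo R D v ((1 : P W) ⊗ₜ[ℂ] b) = 1 ⊗ₜ[ℂ] (D.y v * b) := by
  rw [Yo_tmul, Finset.sum_eq_zero, sub_zero]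
  intro s _
  rw [dm_one, TensorProduct.zero_tmul, smul_zero]

theorem Go_Xo (w : W) (f : Module.Dual ℂ V) :
    Go D w * Xo f = Xo (act (w : V ≃ₗ[ℂ] V) f) * Go D w := by
  apply TensorProduct.ext'
  intro p b
  rw [Module.End.mul_apply, Module.End.mul_apply, Xo_tmul, Go_tmul, Go_tmul, Xo_tmul, map_mul, σξ]

theorem Go_Yo (hc : ∀ w s : W, c (w * s * w⁻¹) = c s) (w : W) (v : V) :
    Go D w * Yo R D v = Yo R D ((w : V ≃ₗ[ℂ] V) v) * Go D w := by
  apply TensorProduct.ext'
  intro p b
  rw [Module.End.mul_apply, Module.End.mul_apply, Yo_tmul, Go_tmul, Yo_tmul, map_sub, map_sum,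
    Go_tmul, ← mul_assoc, ← mul_assoc, D.gy]
  congr 1
  refine Eq.trans ?_ (Equiv.sum_comp (MulAut.conj w).toEquiv _)
  refine Finset.sum_congr rfl fun s _ => ?_
  change _ = (cc c (w * s * w⁻¹) * R.α (w * s * w⁻¹) ((w : V ≃ₗ[ℂ] V) v)) •
    (dm R (w * s * w⁻¹) (σ w p) ⊗ₜ[ℂ] (D.g (w * s * w⁻¹) * (D.g w * b)))
  rw [map_smul, Go_tmul, cc_conj hc, ← mul_assoc (D.g w), ← map_mul, ← mul_assoc (D.g _), ← map_mul,
    inv_mul_cancel_right, mul_smul, mul_smul, TensorProduct.smul_tmul', TensorProduct.smul_tmul',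
    σ_dm, TensorProduct.smul_tmul', TensorProduct.smul_tmul']

theorem Yo_Xo (v : V) (f : Module.Dual ℂ V) :
    Yo R D v * Xo f - Xo f * Yo R D v = -∑ s : W, coef c s v f • Go D s := by
  apply TensorProduct.ext'
  intro p b
  rw [LinearMap.sub_apply, Module.End.mul_apply, Module.End.mul_apply, Xo_tmul, Yo_tmul, Yo_tmul,
    map_sub, Xo_tmul, map_sum, sub_sub_sub_cancel_left, ← Finset.sum_sub_distrib,
    LinearMap.neg_apply, LinearMap.sum_apply, ← Finset.sum_neg_distrib]
  refine Finset.sum_congr rfl fun s _ => ?_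
  rw [LinearMap.smul_apply, Go_tmul, coef_eq R, map_smul, Xo_tmul]
  have h := cc_dm_ξ R (c := c) s f p
  have h2 : (cc c s * R.α s v) • (dm R s (ξ W f * p) ⊗ₜ[ℂ] (D.g s * b)) =
      (cc c s * R.α s v) • ((ξ W f * dm R s p + f (R.β s) • σ s p) ⊗ₜ[ℂ] (D.g s * b)) := by
    rw [mul_comm, mul_smul, mul_smul, TensorProduct.smul_tmul', h, ← TensorProduct.smul_tmul']
  rw [h2, TensorProduct.add_tmul, smul_add, ← TensorProduct.smul_tmul', smul_smul]
  have h3 : cc c s * R.α s v * f (R.β s) = cc c s * (f (R.β s) * R.α s v) := by ring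
  rw [h3]
  abel

/-- an operator which commutes with the `x`'s and kills `1 ⊗ b` is zero -/
theorem eq_zero_of {C : Module.End ℂ (P W ⊗[ℂ] B)} (hX : ∀ f : Module.Dual ℂ V, C * Xo f = Xo f * C)
    (h1 : ∀ b : B, C ((1 : P W) ⊗ₜ[ℂ] b) = 0) : C = 0 := by
  apply TensorProduct.ext'
  intro p b
  rw [LinearMap.zero_apply]
  induction p using P.ind with
  | h1 => exact h1 b
  | hadd p q hp hq => rw [TensorProduct.add_tmul, map_add, hp, hq, add_zero]
  | hsmul t p hp => rw [← TensorProduct.smul_tmul', map_smul, hp, smul_zero]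
  | hξ f p hp =>
    have := congrArg (fun e : Module.End ℂ (P W ⊗[ℂ] B) => e (p ⊗ₜ[ℂ] b)) (hX f)
    simp only [Module.End.mul_apply, Xo_tmul] at this
    rw [this, hp, map_zero]

theorem coef_comm (hc : ∀ w s : W, c (w * s * w⁻¹) = c s) (s : W) (v v' : V)
    (f : Module.Dual ℂ V) :
    coef c s v f • (Yo R D v' * Go D s - Go D s * Yo R D v') =
      (cc c s * f (R.β s) * (R.α s v * R.α s v')) • (Yo R D (R.β s) * Go D s) := by
  rw [Go_Yo R D hc, ← sub_mul, ← map_sub, coef_eq R]
  by_cases h : IsReflection (s : V ≃ₗ[ℂ] V)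
  · rw [(R.h s h).eq, sub_sub_cancel, map_smul, smul_mul_assoc, smul_smul]
    congr 1
    ring
  · have : cc c s = 0 := if_neg h
    rw [this, zero_mul, zero_mul, zero_mul, zero_smul, zero_smul]

theorem Yo_Yo (hc : ∀ w s : W, c (w * s * w⁻¹) = c s) (v v' : V) :
    Yo R D v * Yo R D v' = Yo R D v' * Yo R D v := by
  rw [← sub_eq_zero]
  apply eq_zero_of
  · intro f
    set K : V → Module.End ℂ (P W ⊗[ℂ] B) := fun v => ∑ s : W, coef c s v f • Go D s with hK
    have hYX : ∀ v, Yo R D v * Xo f = Xo f * Yo R D v - K v := by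
      intro v
      have := Yo_Xo R D v f
      rw [sub_eq_iff_eq_add] at this
      rw [this]
      abel
    have hKY : ∀ v v', Yo R D v' * K v - K v * Yo R D v' =
        ∑ s : W, (cc c s * f (R.β s) * (R.α s v * R.α s v')) • (Yo R D (R.β s) * Go D s) := by
      intro v v'
      rw [hK]
      simp only
      rw [Finset.mul_sum, Finset.sum_mul, ← Finset.sum_sub_distrib]
      refine Finset.sum_congr rfl fun s _ => ?_
      rw [← coef_comm R D hc, smul_sub, mul_smul_comm, smul_mul_assoc]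
    have hsym : Yo R D v' * K v - K v * Yo R D v' = Yo R D v * K v' - K v' * Yo R D v := by
      rw [hKY, hKY]
      refine Finset.sum_congr rfl fun s _ => ?_
      rw [mul_comm (R.α s v)]
    have e1 : Yo R D v * Yo R D v' * Xo f =
        Xo f * (Yo R D v * Yo R D v') - K v * Yo R D v' - Yo R D v * K v' := by
      rw [mul_assoc, hYX, mul_sub, ← mul_assoc, hYX, sub_mul, mul_assoc]
    have e2 : Yo R D v' * Yo R D v * Xo f =
        Xo f * (Yo R D v' * Yo R D v) - K v' * Yo R D v - Yo R D v' * K v := by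
      rw [mul_assoc, hYX, mul_sub, ← mul_assoc, hYX, sub_mul, mul_assoc]
    rw [sub_mul, e1, e2, mul_sub]
    have h4 : K v * Yo R D v' = Yo R D v' * K v - (Yo R D v * K v' - K v' * Yo R D v) := by
      rw [← hsym]
      abel
    rw [h4]
    abel
  · intro b
    rw [LinearMap.sub_apply, Module.End.mul_apply, Module.End.mul_apply, Yo_one, Yo_one, Yo_one,
      Yo_one, ← mul_assoc, ← mul_assoc, D.yy, sub_self]

/-- divided difference of a product of Dunkl operators -/
noncomputable def Del (s : W) : List V → Module.End ℂ (P W ⊗[ℂ] B)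
  | [] => 0
  | v :: l => R.α s v • (l.map fun u => Yo R D ((s : V ≃ₗ[ℂ] V) u)).prod + Yo R D v * Del s l

theorem Go_list (hc : ∀ w s : W, c (w * s * w⁻¹) = c s) (w : W) (l : List V) :
    Go D w * (l.map (Yo R D)).prod =
      (l.map fun u => Yo R D ((w : V ≃ₗ[ℂ] V) u)).prod * Go D w := by
  induction l with
  | nil => simp
  | cons v l ih =>
    simp only [List.map_cons, List.prod_cons]
    rw [← mul_assoc, Go_Yo R D hc, mul_assoc, ih, mul_assoc]

theorem list_diff (hc : ∀ w s : W, c (w * s * w⁻¹) = c s) (s : W)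
    (h : IsReflection (s : V ≃ₗ[ℂ] V)) (l : List V) :
    (l.map (Yo R D)).prod - (l.map fun u => Yo R D ((s : V ≃ₗ[ℂ] V) u)).prod =
      Yo R D (R.β s) * Del R D s l := by
  induction l with
  | nil => simp [Del]
  | cons v l ih =>
    simp only [List.map_cons, List.prod_cons]
    have e : (l.map fun u => Yo R D ((s : V ≃ₗ[ℂ] V) u)).prod =
        (l.map (Yo R D)).prod - Yo R D (R.β s) * Del R D s l := by
      rw [← ih]
      abel
    rw [Del, (R.h s h).eq v, map_sub, map_smul, mul_add, ← mul_assoc, Yo_Yo R D hc (R.β s) v, e,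
      mul_smul_comm, sub_mul, smul_mul_assoc, mul_sub, mul_assoc]
    abel

theorem Del_s (hc : ∀ w s : W, c (w * s * w⁻¹) = c s) (s : W)
    (h : IsReflection (s : V ≃ₗ[ℂ] V)) (l : List V) :
    Del R D s (l.map fun u => (s : V ≃ₗ[ℂ] V) u) = -Del R D s l := by
  induction l with
  | nil => simp [Del]
  | cons v l ih =>
    simp only [List.map_cons]
    rw [Del, Del, ih, List.map_map]
    have hss : ∀ u, (s : V ≃ₗ[ℂ] V) ((s : V ≃ₗ[ℂ] V) u) = u := by
      intro u
      rw [(R.h s h).eq u, map_sub, map_smul, (R.h s h).eq u, (R.h s h).eq (R.β s), (R.h s h).two]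
      module
    have e1 : List.map ((fun u => Yo R D ((s : V ≃ₗ[ℂ] V) u)) ∘ fun u => (s : V ≃ₗ[ℂ] V) u) l =
        l.map (Yo R D) := by
      congr 1
      funext u
      exact congrArg (Yo R D) (hss u)
    have e2 : R.α s ((s : V ≃ₗ[ℂ] V) v) = -R.α s v := by
      rw [(R.h s h).eq, map_sub, map_smul, (R.h s h).two, smul_eq_mul]
      ring
    have e3 : (l.map (Yo R D)).prod = (l.map fun u => Yo R D ((s : V ≃ₗ[ℂ] V) u)).prod +
        Yo R D (R.β s) * Del R D s l := by
      rw [← list_diff R D hc s h]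
      abel
    have hneg : ∀ x y : Module.End ℂ (P W ⊗[ℂ] B), x * -y = -(x * y) := fun x y => mul_neg x y
    rw [e1, e2, e3, (R.h s h).eq, map_sub, map_smul, sub_mul, smul_mul_assoc, smul_add, neg_smul,
      neg_smul, hneg, hneg, smul_neg]
    abel

theorem list_Xo (hc : ∀ w s : W, c (w * s * w⁻¹) = c s) (f : Module.Dual ℂ V) (l : List V) :
    (l.map (Yo R D)).prod * Xo f = Xo f * (l.map (Yo R D)).prod -
      ∑ s : W, (cc c s * f (R.β s)) • (Del R D s l * Go D s) := by
  induction l with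
  | nil => simp [Del]
  | cons v l ih =>
    simp only [List.map_cons, List.prod_cons]
    have hYX : Yo R D v * Xo f = Xo f * Yo R D v - ∑ s : W, coef c s v f • Go D s := by
      have := Yo_Xo R D v f
      rw [sub_eq_iff_eq_add] at this
      rw [this]
      abel
    rw [mul_assoc, ih, mul_sub, ← mul_assoc, hYX, sub_mul, mul_assoc, sub_sub, Finset.mul_sum,
      Finset.sum_mul, ← Finset.sum_add_distrib]
    congr 1
    refine Finset.sum_congr rfl fun s _ => ?_
    rw [Del, add_mul, smul_add, smul_mul_assoc, smul_mul_assoc, smul_smul, Go_list R D hc,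
      coef_eq R, mul_smul_comm, mul_assoc, mul_assoc]

/-- the Dunkl representation -/
noncomputable def dunkl (hc : ∀ w s : W, c (w * s * w⁻¹) = c s) :
    Pres (Module.End ℂ (P W ⊗[ℂ] B)) c where
  x := Xo
  y := Yo R D
  g := Go D
  gx w f := Go_Xo D w f
  gy w v := Go_Yo R D hc w v
  xx f f' := by
    apply TensorProduct.ext'
    intro p b
    rw [Module.End.mul_apply, Module.End.mul_apply, Xo_tmul, Xo_tmul, Xo_tmul, Xo_tmul,
      ← mul_assoc, ← mul_assoc, ξ_comm]
  yy v v' := Yo_Yo R D hc v v'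
  yx v f := Yo_Xo R D v f
  ix l hl := by
    have key : ∀ (l : List (Module.Dual ℂ V)) (p : P W) (b : B),
        (l.map fun f => (Xo f : Module.End ℂ (P W ⊗[ℂ] B))).prod (p ⊗ₜ[ℂ] b) =
          ((l.map (ξ W)).prod * p) ⊗ₜ[ℂ] b := by
      intro l p b
      induction l with
      | nil => simp
      | cons f l ih =>
        simp only [List.map_cons, List.prod_cons]
        rw [Module.End.mul_apply, ih, Xo_tmul, mul_assoc]
    apply TensorProduct.ext'
    intro p b
    rw [LinearMap.sum_apply, LinearMap.zero_apply]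
    have e : ∀ w : W, (l.map fun f => (Xo (act (w : V ≃ₗ[ℂ] V) f) :
        Module.End ℂ (P W ⊗[ℂ] B))).prod (p ⊗ₜ[ℂ] b) =
          ((l.map fun f => ξ W (act (w : V ≃ₗ[ℂ] V) f)).prod * p) ⊗ₜ[ℂ] b := by
      intro w
      have := key (l.map (act (w : V ≃ₗ[ℂ] V))) p b
      rw [List.map_map, List.map_map] at this
      exact this
    rw [Finset.sum_congr rfl fun w _ => e w, ← TensorProduct.sum_tmul, ← Finset.sum_mul,
      ξ_inv W l hl, zero_mul, TensorProduct.zero_tmul]
  iy l hl := by
    have e0 : ∀ w : W, (l.map fun v => Yo R D ((w : V ≃ₗ[ℂ] V) v)) =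
        (l.map (w : V ≃ₗ[ℂ] V)).map (Yo R D) := by
      intro w
      rw [List.map_map]
      rfl
    apply eq_zero_of
    · intro f
      rw [Finset.sum_mul, Finset.mul_sum]
      rw [Finset.sum_congr rfl fun w _ => by rw [e0 w, list_Xo R D hc], Finset.sum_sub_distrib,
        Finset.sum_comm]
      have e1 : ∑ s : W, ∑ w : W, (cc c s * f (R.β s)) •
          (Del R D s (l.map (w : V ≃ₗ[ℂ] V)) * Go D s) = 0 := by
        refine Finset.sum_eq_zero fun s _ => ?_
        rw [← Finset.smul_sum, ← Finset.sum_mul]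
        by_cases h : IsReflection (s : V ≃ₗ[ℂ] V)
        · have h1 : ∀ w : W, Del R D s (l.map ((s * w : W) : V ≃ₗ[ℂ] V)) =
              -Del R D s (l.map (w : V ≃ₗ[ℂ] V)) := by
            intro w
            rw [← Del_s R D hc s h, List.map_map]
            rfl
          have h2 : ∑ w : W, Del R D s (l.map (w : V ≃ₗ[ℂ] V)) =
              -∑ w : W, Del R D s (l.map (w : V ≃ₗ[ℂ] V)) := by
            conv_lhs => rw [← Equiv.sum_comp (Equiv.mulLeft s)]
            rw [← Finset.sum_neg_distrib]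
            exact Finset.sum_congr rfl fun w _ => h1 w
          have h3 : (2 : ℂ) • ∑ w : W, Del R D s (l.map (w : V ≃ₗ[ℂ] V)) = 0 := by
            rw [two_smul]
            nth_rewrite 1 [h2]
            rw [neg_add_cancel]
          rw [(smul_eq_zero.1 h3).resolve_left two_ne_zero, zero_mul, smul_zero]
        · have : cc c s = 0 := if_neg h
          rw [this, zero_mul, zero_smul]
      rw [e1, sub_zero]
      exact Finset.sum_congr rfl fun w _ => by rw [e0 w]
    · intro b
      have key : ∀ (l : List V) (b : B),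
          (l.map (Yo R D)).prod ((1 : P W) ⊗ₜ[ℂ] b) = 1 ⊗ₜ[ℂ] ((l.map D.y).prod * b) := by
        intro l b
        induction l with
        | nil => simp
        | cons f l ih =>
          simp only [List.map_cons, List.prod_cons]
          rw [Module.End.mul_apply, ih, Yo_one, mul_assoc]
      rw [LinearMap.sum_apply, Finset.sum_congr rfl fun w _ => by rw [e0 w, key, List.map_map],
        ← TensorProduct.tmul_sum, ← Finset.sum_mul]
      have := D.iy l hl
      have e2 : ∑ w : W, (List.map (⇑D.y ∘ ⇑(w : V ≃ₗ[ℂ] V)) l).prod = 0 := this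
      rw [e2, zero_mul, TensorProduct.tmul_zero]

end

end Pool.Agent.H468R3
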