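import Pool.Agent.H468R3.Dk3
import Pool.Agent.H468R3.Cell4

/-!
# The trace of conjugation by an involution of `W` on the restricted rational Cherednik algebra
-/

set_option autoImplicit false

open scoped BigOperators TensorProduct

namespace Pool.Agent.H468R3

section

variable {V : Type} [AddCommGroup V] [Module ℂ V] {W : Subgroup (V ≃ₗ[ℂ] V)} [Fintype W]
  {c : W → ℂ} (R : Roots W) (hc : ∀ w s : W, c (w * s * w⁻¹) = c s)

variable (c) in
/-- the homomorphism `P → H̄` -/
noncomputable def μ : P W →ₐ[ℂ] HH c := P.lift (uni c).x (uni c).xx (uni c).ix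

theorem μξ (f : Module.Dual ℂ V) : μ c (ξ W f) = (uni c).x f := P.lift_ξ _ _ _ f

/-- the homomorphism of the Dunkl representation -/
noncomputable def Φ : HH c →ₐ[ℂ] Module.End ℂ (P W ⊗[ℂ] HH c) := (dunkl R (uni c) hc).hom

theorem Φx (f : Module.Dual ℂ V) : Φ R hc ((uni c).x f) = Xo f := Pres.hom_x _ f
theorem Φy (v : V) : Φ R hc ((uni c).y v) = Yo R (uni c) v := Pres.hom_y _ v
theorem Φg (w : W) : Φ R hc ((uni c).g w) = Go (uni c) w := Pres.hom_g _ w

variable (c) in
/-- multiplication `P ⊗ H̄ → H̄` -/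
noncomputable def mm : P W ⊗[ℂ] HH c →ₗ[ℂ] HH c :=
  TensorProduct.lift ((LinearMap.mul ℂ (HH c)) ∘ₗ (μ c).toLinearMap)

theorem mm_tmul (p : P W) (a : HH c) : mm c (p ⊗ₜ[ℂ] a) = μ c p * a := rfl

theorem g_μ (w : W) (p : P W) : (uni c).g w * μ c p = μ c (σ w p) * (uni c).g w := by
  induction p using P.ind with
  | h1 => rw [map_one, map_one, map_one, mul_one, one_mul]
  | hadd p q hp hq => rw [map_add, map_add, map_add, mul_add, add_mul, hp, hq]
  | hsmul t p hp => rw [map_smul, map_smul, map_smul, mul_smul_comm, smul_mul_assoc, hp]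
  | hξ f p hp =>
    rw [map_mul, map_mul, map_mul, μξ, σξ, μξ, ← mul_assoc, (uni c).gx, mul_assoc, hp, mul_assoc]

theorem y_μ (v : V) (p : P W) : (uni c).y v * μ c p = μ c p * (uni c).y v -
    ∑ s : W, (cc c s * R.α s v) • (μ c (dm R s p) * (uni c).g s) := by
  induction p using P.ind with
  | h1 =>
    rw [map_one, mul_one, one_mul, Finset.sum_eq_zero, sub_zero]
    intro s _
    rw [dm_one, map_zero, zero_mul, smul_zero]
  | hadd p q hp hq =>
    rw [map_add, mul_add, add_mul, hp, hq]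
    simp only [map_add, add_mul, smul_add, Finset.sum_add_distrib]
    abel
  | hsmul t p hp =>
    rw [map_smul, mul_smul_comm, smul_mul_assoc, hp, smul_sub, Finset.smul_sum]
    congr 1
    refine Finset.sum_congr rfl fun s _ => ?_
    rw [map_smul, map_smul, smul_mul_assoc, smul_comm t]
  | hξ f p hp =>
    have hYX : (uni c).y v * (uni c).x f =
        (uni c).x f * (uni c).y v - ∑ s : W, coef c s v f • (uni c).g s := by
      have := (uni c).yx v f
      rw [sub_eq_iff_eq_add] at this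
      rw [this]
      abel
    rw [map_mul, μξ, ← mul_assoc, hYX, sub_mul, mul_assoc, hp, mul_sub, mul_assoc, sub_sub,
      Finset.mul_sum, Finset.sum_mul, ← Finset.sum_add_distrib]
    congr 1
    refine Finset.sum_congr rfl fun s _ => ?_
    have h := congrArg (fun e => R.α s v • (μ c e * (uni c).g s)) (cc_dm_ξ R (c := c) s f p)
    simp only [map_smul, smul_mul_assoc, map_add, map_mul, μξ] at h
    rw [smul_smul, mul_comm] at h
    rw [h, smul_mul_assoc, g_μ, coef_eq R, mul_smul_comm, add_mul, smul_mul_assoc, smul_add,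
      smul_add, smul_smul, smul_smul, smul_smul, mul_assoc]
    congr 2
    · ring
    · ring

theorem mm_Φ (a : HH c) (e : P W ⊗[ℂ] HH c) : mm c (Φ R hc a e) = a * mm c e := by
  induction a using HH.ind generalizing e with
  | h1 => rw [map_one, one_mul]; rfl
  | hadd a b ha hb => rw [map_add, add_mul, LinearMap.add_apply, map_add, ha, hb]
  | hsmul t a ha => rw [map_smul, smul_mul_assoc, LinearMap.smul_apply, map_smul, ha]
  | hx f a ha =>
    rw [map_mul, Module.End.mul_apply, mul_assoc, ← ha]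
    generalize Φ R hc a e = e
    rw [Φx]
    induction e using TensorProduct.induction_on with
    | zero => rw [map_zero, map_zero, mul_zero]
    | tmul p b => rw [Xo_tmul, mm_tmul, mm_tmul, map_mul, μξ, mul_assoc]
    | add e e' he he' => rw [map_add, map_add, map_add, mul_add, he, he']
  | hy v a ha =>
    rw [map_mul, Module.End.mul_apply, mul_assoc, ← ha]
    generalize Φ R hc a e = e
    rw [Φy]
    induction e using TensorProduct.induction_on with
    | zero => rw [map_zero, map_zero, mul_zero]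
    | tmul p b =>
      rw [Yo_tmul, map_sub, map_sum, mm_tmul, mm_tmul, ← mul_assoc, ← mul_assoc, y_μ R, sub_mul,
        Finset.sum_mul]
      congr 1
      refine Finset.sum_congr rfl fun s _ => ?_
      rw [map_smul, mm_tmul, smul_mul_assoc, mul_assoc]
    | add e e' he he' => rw [map_add, map_add, map_add, mul_add, he, he']
  | hg w a ha =>
    rw [map_mul, Module.End.mul_apply, mul_assoc, ← ha]
    generalize Φ R hc a e = e
    rw [Φg]
    induction e using TensorProduct.induction_on with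
    | zero => rw [map_zero, map_zero, mul_zero]
    | tmul p b => rw [Go_tmul, mm_tmul, mm_tmul, ← mul_assoc, ← mul_assoc, g_μ]
    | add e e' he he' => rw [map_add, map_add, map_add, mul_add, he, he']

/-- the embedding `a ↦ a (1 ⊗ 1)` -/
noncomputable def jj : HH c →ₗ[ℂ] P W ⊗[ℂ] HH c where
  toFun a := Φ R hc a (1 ⊗ₜ[ℂ] 1)
  map_add' a b := by rw [map_add]; rfl
  map_smul' t a := by rw [map_smul]; rfl

theorem jj_apply (a : HH c) : jj R hc a = Φ R hc a (1 ⊗ₜ[ℂ] 1) := rfl

theorem jj_mul (a b : HH c) : jj R hc (a * b) = Φ R hc a (jj R hc b) := by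
  rw [jj_apply, map_mul]
  rfl

theorem mm_jj (a : HH c) : mm c (jj R hc a) = a := by
  rw [jj_apply, mm_Φ, mm_tmul, map_one, mul_one, mul_one]

/-- `P ⊗ B'`, where `B'` consists of the `b` with `b (1 ⊗ 1) = 1 ⊗ b` -/
noncomputable def EE : Submodule ℂ (P W ⊗[ℂ] HH c) :=
  Submodule.span ℂ {e | ∃ (p : P W) (b : HH c), jj R hc b = 1 ⊗ₜ[ℂ] b ∧ e = p ⊗ₜ[ℂ] b}

theorem EE_mem {p : P W} {b : HH c} (h : jj R hc b = 1 ⊗ₜ[ℂ] b) : p ⊗ₜ[ℂ] b ∈ EE R hc :=
  Submodule.subset_span ⟨p, b, h, rfl⟩

theorem jj_y (v : V) {b : HH c} (h : jj R hc b = 1 ⊗ₜ[ℂ] b) :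
    jj R hc ((uni c).y v * b) = 1 ⊗ₜ[ℂ] ((uni c).y v * b) := by
  rw [jj_mul, h, Φy, Yo_one]

theorem jj_g (w : W) {b : HH c} (h : jj R hc b = 1 ⊗ₜ[ℂ] b) :
    jj R hc ((uni c).g w * b) = 1 ⊗ₜ[ℂ] ((uni c).g w * b) := by
  rw [jj_mul, h, Φg, Go_tmul, map_one]

theorem EE_map (F : P W ⊗[ℂ] HH c →ₗ[ℂ] P W ⊗[ℂ] HH c)
    (hF : ∀ (p : P W) (b : HH c), jj R hc b = 1 ⊗ₜ[ℂ] b → F (p ⊗ₜ[ℂ] b) ∈ EE R hc)
    {e : P W ⊗[ℂ] HH c} (he : e ∈ EE R hc) : F e ∈ EE R hc := by
  induction he using Submodule.span_induction with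
  | mem e h => obtain ⟨p, b, hb, rfl⟩ := h; exact hF p b hb
  | zero => rw [map_zero]; exact Submodule.zero_mem _
  | add e e' _ _ he he' => rw [map_add]; exact Submodule.add_mem _ he he'
  | smul t e _ he => rw [map_smul]; exact Submodule.smul_mem _ _ he

theorem jj_mem (a : HH c) : jj R hc a ∈ EE R hc := by
  induction a using HH.ind with
  | h1 =>
    have h : jj R hc 1 = 1 ⊗ₜ[ℂ] 1 := by
      rw [jj_apply, map_one]
      rfl
    rw [h]
    exact EE_mem R hc h
  | hadd a b ha hb => rw [map_add]; exact Submodule.add_mem _ ha hb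
  | hsmul t a ha => rw [map_smul]; exact Submodule.smul_mem _ _ ha
  | hx f a ha =>
    rw [jj_mul, Φx]
    exact EE_map R hc _ (fun p b hb => by rw [Xo_tmul]; exact EE_mem R hc hb) ha
  | hy v a ha =>
    rw [jj_mul, Φy]
    refine EE_map R hc _ (fun p b hb => ?_) ha
    rw [Yo_tmul]
    refine Submodule.sub_mem _ (EE_mem R hc (jj_y R hc v hb)) (Submodule.sum_mem _ fun s _ => ?_)
    exact Submodule.smul_mem _ _ (EE_mem R hc (jj_g R hc s hb))
  | hg w a ha =>
    rw [jj_mul, Φg]
    exact EE_map R hc _ (fun p b hb => by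
      rw [Go_tmul]
      exact EE_mem R hc (jj_g R hc w hb)) ha

theorem Φμ (p q : P W) (a : HH c) : Φ R hc (μ c p) (q ⊗ₜ[ℂ] a) = (p * q) ⊗ₜ[ℂ] a := by
  induction p using P.ind with
  | h1 => rw [map_one, map_one, one_mul]; rfl
  | hadd p p' hp hp' =>
    rw [map_add, map_add, LinearMap.add_apply, hp, hp', add_mul, TensorProduct.add_tmul]
  | hsmul t p hp =>
    rw [map_smul, map_smul, LinearMap.smul_apply, hp, smul_mul_assoc, TensorProduct.smul_tmul']
  | hξ f p hp => rw [map_mul, map_mul, μξ, Module.End.mul_apply, hp, Φx, Xo_tmul, mul_assoc]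

theorem jj_mm {e : P W ⊗[ℂ] HH c} (he : e ∈ EE R hc) : jj R hc (mm c e) = e := by
  induction he using Submodule.span_induction with
  | mem e h =>
    obtain ⟨p, b, hb, rfl⟩ := h
    rw [mm_tmul, jj_mul, hb, Φμ, mul_one]
  | zero => rw [map_zero, map_zero]
  | add e e' _ _ he he' => rw [map_add, map_add, he, he']
  | smul t e _ he => rw [map_smul, map_smul, he]

/-- an operator on `P` gives an operator on `H̄ ≅ P ⊗ B'` -/
noncomputable def op (φ : Module.End ℂ (P W)) : Module.End ℂ (HH c) :=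
  mm c ∘ₗ (LinearMap.rTensor (HH c) φ) ∘ₗ jj R hc

theorem op_apply (φ : Module.End ℂ (P W)) (a : HH c) :
    op R hc φ a = mm c (LinearMap.rTensor (HH c) φ (jj R hc a)) := rfl

theorem jj_op (φ : Module.End ℂ (P W)) (a : HH c) :
    jj R hc (op R hc φ a) = LinearMap.rTensor (HH c) φ (jj R hc a) := by
  rw [op_apply]
  apply jj_mm
  exact EE_map R hc _ (fun p b hb => EE_mem R hc hb) (jj_mem R hc a)

theorem op_mul (φ ψ : Module.End ℂ (P W)) : op R hc (φ * ψ) = op R hc φ * op R hc ψ := by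
  apply LinearMap.ext
  intro a
  rw [Module.End.mul_apply, op_apply R hc φ, jj_op, op_apply]
  congr 1
  exact LinearMap.congr_fun (LinearMap.rTensor_comp (HH c) φ ψ) _

theorem op_mulLeft (p : P W) : op R hc (LinearMap.mulLeft ℂ p) = LinearMap.mulLeft ℂ (μ c p) := by
  apply LinearMap.ext
  intro a
  rw [op_apply, LinearMap.mulLeft_apply]
  have : ∀ e : P W ⊗[ℂ] HH c, mm c (LinearMap.rTensor (HH c) (LinearMap.mulLeft ℂ p) e) =
      μ c p * mm c e := by
    intro e
    induction e using TensorProduct.induction_on with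
    | zero => rw [map_zero, map_zero, mul_zero]
    | tmul q b => rw [LinearMap.rTensor_tmul, mm_tmul, mm_tmul, LinearMap.mulLeft_apply, map_mul,
        mul_assoc]
    | add e e' he he' => rw [map_add, map_add, map_add, mul_add, he, he']
  rw [this, mm_jj]

theorem op_add (φ ψ : Module.End ℂ (P W)) : op R hc (φ + ψ) = op R hc φ + op R hc ψ := by
  apply LinearMap.ext
  intro a
  rw [LinearMap.add_apply, op_apply, op_apply, op_apply, LinearMap.rTensor_add,
    LinearMap.add_apply, map_add]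

theorem op_smul_one (t : ℂ) : op R hc (t • 1) = t • 1 := by
  apply LinearMap.ext
  intro a
  rw [op_apply, LinearMap.rTensor_smul, LinearMap.smul_apply, map_smul]
  have : LinearMap.rTensor (HH c) (1 : Module.End ℂ (P W)) = LinearMap.id :=
    LinearMap.rTensor_id _ _
  rw [this, LinearMap.id_apply, mm_jj]
  rfl

/-! ## right multiplication and conjugation -/

theorem Φ_right (a b : HH c) (e : P W ⊗[ℂ] HH c) :
    Φ R hc a (LinearMap.lTensor (P W) (LinearMap.mulRight ℂ b) e) =
      LinearMap.lTensor (P W) (LinearMap.mulRight ℂ b) (Φ R hc a e) := by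
  induction a using HH.ind generalizing e with
  | h1 => rw [map_one]; rfl
  | hadd a b ha hb => rw [map_add, LinearMap.add_apply, LinearMap.add_apply, map_add, ha, hb]
  | hsmul t a ha => rw [map_smul, LinearMap.smul_apply, LinearMap.smul_apply, map_smul, ha]
  | hx f a ha =>
    rw [map_mul, Module.End.mul_apply, Module.End.mul_apply, ha]
    generalize Φ R hc a e = e
    rw [Φx]
    induction e using TensorProduct.induction_on with
    | zero => simp only [map_zero]
    | tmul p b => simp only [Xo_tmul, LinearMap.lTensor_tmul]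
    | add e e' he he' => simp only [map_add, he, he']
  | hy v a ha =>
    rw [map_mul, Module.End.mul_apply, Module.End.mul_apply, ha]
    generalize Φ R hc a e = e
    rw [Φy]
    induction e using TensorProduct.induction_on with
    | zero => simp only [map_zero]
    | tmul p b =>
      simp only [Yo_tmul, LinearMap.lTensor_tmul, map_sub, map_sum, map_smul,
        LinearMap.mulRight_apply, mul_assoc]
    | add e e' he he' => simp only [map_add, he, he']
  | hg w a ha =>
    rw [map_mul, Module.End.mul_apply, Module.End.mul_apply, ha]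
    generalize Φ R hc a e = e
    rw [Φg]
    induction e using TensorProduct.induction_on with
    | zero => simp only [map_zero]
    | tmul p b =>
      simp only [Go_tmul, LinearMap.lTensor_tmul, LinearMap.mulRight_apply, mul_assoc]
    | add e e' he he' => simp only [map_add, he, he']

/-- `σ_z ⊗ (conjugation by z)` -/
noncomputable def cj (z : W) : P W ⊗[ℂ] HH c →ₗ[ℂ] P W ⊗[ℂ] HH c :=
  TensorProduct.map (σ z).toLinearMap (CellDatum.bimul ((uni c).g z) ((uni c).g z))

theorem mm_cj (z : W) (e : P W ⊗[ℂ] HH c) :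
    mm c (cj z e) = CellDatum.bimul ((uni c).g z) ((uni c).g z) (mm c e) := by
  induction e using TensorProduct.induction_on with
  | zero => simp only [map_zero]
  | tmul p b =>
    change μ c (σ z p) * ((uni c).g z * (b * (uni c).g z)) =
      (uni c).g z * (μ c p * b * (uni c).g z)
    rw [← mul_assoc, ← g_μ]
    simp only [mul_assoc]
  | add e e' he he' => simp only [map_add, he, he']

theorem jj_cj (z : W) (a : HH c) :
    jj R hc (CellDatum.bimul ((uni c).g z) ((uni c).g z) a) = cj z (jj R hc a) := by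
  change jj R hc ((uni c).g z * (a * (uni c).g z)) = _
  rw [jj_mul, jj_mul, Φg]
  have h1 : jj R hc ((uni c).g z) =
      LinearMap.lTensor (P W) (LinearMap.mulRight ℂ ((uni c).g z)) (1 ⊗ₜ[ℂ] 1) := by
    rw [LinearMap.lTensor_tmul, LinearMap.mulRight_apply, one_mul, jj_apply, Φg, Go_tmul, map_one,
      mul_one]
  rw [h1, Φ_right, ← jj_apply]
  generalize jj R hc a = e
  induction e using TensorProduct.induction_on with
  | zero => simp only [map_zero]
  | tmul p b => rfl
  | add e e' he he' => simp only [map_add, he, he']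

/-- the operator `α + t ∂` -/
noncomputable def TT (s : W) (t : ℂ) : Module.End ℂ (P W) :=
  LinearMap.mulLeft ℂ (ξ W (R.α s)) + t • dm R s

theorem TT_apply (s : W) (t : ℂ) (p : P W) : TT R s t p = ξ W (R.α s) * p + t • dm R s p := rfl

theorem TT_TT (s : W) (hs : IsReflection (s : V ≃ₗ[ℂ] V)) (t : ℂ) :
    TT R s t * TT R s t =
      LinearMap.mulLeft ℂ (ξ W (R.α s) * ξ W (R.α s)) + (2 * t) • 1 := by
  apply LinearMap.ext
  intro p
  have hd : dm R s = dem (R.h s hs) := dif_pos hs
  rw [Module.End.mul_apply, TT_apply, TT_apply, hd, map_add, map_smul, dem_dem, dem_root,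
    mul_add, mul_smul_comm, LinearMap.add_apply, LinearMap.mulLeft_apply, LinearMap.smul_apply,
    Module.End.one_apply, mul_assoc, smul_zero, add_zero, smul_sub, smul_smul, mul_comm t 2]
  abel

theorem act_neg {z s : W} (hs : IsReflection (s : V ≃ₗ[ℂ] V)) (hzs : z * s = s * z)
    (hβ : ∀ v, (z : V ≃ₗ[ℂ] V) (v - (s : V ≃ₗ[ℂ] V) v) = -(v - (s : V ≃ₗ[ℂ] V) v)) :
    (∀ v, R.α s ((z : V ≃ₗ[ℂ] V) v) = -R.α s v) ∧
      act (z : V ≃ₗ[ℂ] V) (R.α s) = -R.α s := by
  have hr := R.h s hs
  have hb : R.β s ≠ 0 := by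
    intro h0
    have := hr.two
    rw [h0, map_zero] at this
    exact two_ne_zero this.symm
  have hzb : (z : V ≃ₗ[ℂ] V) (R.β s) = -R.β s := by
    have := hβ (R.β s)
    rw [hr.eq, hr.two, sub_sub_cancel, map_smul, ← smul_neg] at this
    exact smul_right_injective V (two_ne_zero (α := ℂ)) this
  have h1 : ∀ v, R.α s ((z : V ≃ₗ[ℂ] V) v) = -R.α s v := by
    intro v
    have h2 : (z : V ≃ₗ[ℂ] V) ((s : V ≃ₗ[ℂ] V) v) = (s : V ≃ₗ[ℂ] V) ((z : V ≃ₗ[ℂ] V) v) :=
      congrArg (fun e : W => (e : V ≃ₗ[ℂ] V) v) hzs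
    rw [hr.eq, hr.eq, map_sub, map_smul, hzb] at h2
    have h3 := sub_right_injective h2
    have h4 : (-R.α s v) • R.β s = R.α s ((z : V ≃ₗ[ℂ] V) v) • R.β s := by
      rw [← h3, neg_smul, smul_neg]
    exact (smul_left_injective ℂ hb h4).symm
  refine ⟨h1, ?_⟩
  ext v
  rw [act_apply, LinearMap.neg_apply]
  have h5 := h1 ((z : V ≃ₗ[ℂ] V)⁻¹ v)
  have h6 : (z : V ≃ₗ[ℂ] V) ((z : V ≃ₗ[ℂ] V)⁻¹ v) = v := (z : V ≃ₗ[ℂ] V).apply_symm_apply v
  rw [h6] at h5
  rw [h5, neg_neg]

theorem TT_z {z s : W} (hs : IsReflection (s : V ≃ₗ[ℂ] V)) (hzs : z * s = s * z)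
    (hβ : ∀ v, (z : V ≃ₗ[ℂ] V) (v - (s : V ≃ₗ[ℂ] V) v) = -(v - (s : V ≃ₗ[ℂ] V) v))
    (t : ℂ) (p : P W) : TT R s t (σ z p) = -σ z (TT R s t p) := by
  obtain ⟨h1, h2⟩ := act_neg R hs hzs hβ
  have h3 : σ z (dm R s p) = -dm R s (σ z p) := by
    have h4 := σ_dm R s z (R.β s) p
    have h5 : z * s * z⁻¹ = s := by rw [hzs]; group
    rw [h5, h1, (R.h s hs).two, neg_smul, ← smul_neg] at h4
    exact smul_right_injective _ (two_ne_zero (α := ℂ)) h4
  rw [TT_apply, TT_apply, map_add, map_mul, map_smul, σξ, h2, map_neg, h3]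
  simp only [neg_mul, smul_neg]
  abel

include R hc in
/-- **Theorem.** The trace of conjugation by an involution of `W` that maps a root to its
negative is zero. -/
theorem trace_conj_zero [FiniteDimensional ℂ (HH c)] {z s : W}
    (hs : IsReflection (s : V ≃ₗ[ℂ] V)) (hzs : z * s = s * z)
    (hβ : ∀ v, (z : V ≃ₗ[ℂ] V) (v - (s : V ≃ₗ[ℂ] V) v) = -(v - (s : V ≃ₗ[ℂ] V) v)) :
    LinearMap.trace ℂ (HH c) (CellDatum.bimul ((uni c).g z) ((uni c).g z)) = 0 := by
  set f : Module.End ℂ (HH c) := CellDatum.bimul ((uni c).g z) ((uni c).g z) with hf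
  set M : Module.End ℂ (HH c) := LinearMap.mulLeft ℂ (μ c (ξ W (R.α s) * ξ W (R.α s))) with hM
  obtain ⟨r, hr⟩ := (Module.End.finite_spectrum M).exists_notMem
  set T : Module.End ℂ (HH c) := op R hc (TT R s (-r / 2)) with hT
  have h1 : T * T = M - algebraMap ℂ (Module.End ℂ (HH c)) r := by
    rw [hT, ← op_mul, TT_TT R s hs, op_add, op_mulLeft, op_smul_one, Algebra.algebraMap_eq_smul_one]
    have : (2 : ℂ) * (-r / 2) = -r := by ring
    have h0 : (-r) • (1 : Module.End ℂ (HH c)) = -(r • (1 : Module.End ℂ (HH c))) := by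
      apply LinearMap.ext
      intro a
      simp
    rw [this, h0, sub_eq_add_neg]
  have h2 : IsUnit (T * T) := by
    rw [h1, ← IsUnit.neg_iff, neg_sub]
    rwa [spectrum.notMem_iff] at hr
  have h3 : IsUnit T := ((Commute.refl T).isUnit_mul_iff.1 h2).1
  have h4 : T * f = -(f * T) := by
    apply LinearMap.ext
    intro a
    rw [Module.End.mul_apply, LinearMap.neg_apply, Module.End.mul_apply, hT, op_apply, hf, jj_cj,
      op_apply, ← mm_cj]
    rw [← map_neg]
    congr 1
    generalize jj R hc a = e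
    induction e using TensorProduct.induction_on with
    | zero => simp only [map_zero, neg_zero]
    | tmul p b =>
      change (TT R s (-r / 2) (σ z p)) ⊗ₜ[ℂ] _ = -((σ z (TT R s (-r / 2) p)) ⊗ₜ[ℂ] _)
      rw [TT_z R hs hzs hβ, TensorProduct.neg_tmul]
      rfl
    | add e e' he he' => simp only [map_add, he, he', neg_add]
  obtain ⟨u, hu⟩ := h3
  have h5 : f = -((↑u⁻¹ : Module.End ℂ (HH c)) * (f * ↑u)) := by
    rw [← hu] at h4
    have : f * (u : Module.End ℂ (HH c)) = -((u : Module.End ℂ (HH c)) * f) := by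
      rw [h4, neg_neg]
    rw [this]
    have h6 : (↑u⁻¹ : Module.End ℂ (HH c)) * -((u : Module.End ℂ (HH c)) * f) = -f := by
      have := mul_neg (↑u⁻¹ : Module.End ℂ (HH c)) ((u : Module.End ℂ (HH c)) * f)
      rw [this, Units.inv_mul_cancel_left]
    rw [h6, neg_neg]
  have h7 : LinearMap.trace ℂ (HH c) f = -LinearMap.trace ℂ (HH c) f := by
    conv_lhs => rw [h5]
    rw [(LinearMap.trace ℂ (HH c)).map_neg, LinearMap.trace_mul_comm, mul_assoc, Units.mul_inv,
      mul_one]
  have h8 : (2 : ℂ) * LinearMap.trace ℂ (HH c) f = 0 := by linear_combination h7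
  exact (mul_eq_zero.1 h8).resolve_left two_ne_zero

end

/-- **Theorem.** Let `W` be a finite group all of whose reflections have order two, `c` any
parameter. If `H̄_c(W)` is cellular, then an involution `z` of `W` which commutes with a reflection
`s` and is `-1` on the image of `1 - s` has trace zero on every finite-dimensional module. -/
theorem tr_involution {V : Type} [AddCommGroup V] [Module ℂ V] {W : Subgroup (V ≃ₗ[ℂ] V)}
    [Fintype W] {c : W → ℂ} (hc : ∀ w s : W, c (w * s * w⁻¹) = c s)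
    (h2 : ∀ s : W, IsReflection (s : V ≃ₗ[ℂ] V) → s * s = 1) (D : CellDatum (HH c))
    {z s : W} (hs : IsReflection (s : V ≃ₗ[ℂ] V)) (hz : z * z = 1) (hzs : z * s = s * z)
    (hβ : ∀ v, (z : V ≃ₗ[ℂ] V) (v - (s : V ≃ₗ[ℂ] V) v) = -(v - (s : V ≃ₗ[ℂ] V) v))
    (M : Type) [AddCommGroup M] [Module ℂ M] [Module (HH c) M] [IsScalarTower ℂ (HH c) M]
    [FiniteDimensional ℂ M] : tr M ((uni c).g z) = 0 := by
  obtain ⟨R⟩ := exists_roots h2
  have hfd : FiniteDimensional ℂ (HH c) := Module.Finite.of_basis D.C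
  exact D.tr_eq_zero _ (by rw [← map_mul, hz, map_one]) (trace_conj_zero R hc hs hzs hβ) M

end Pool.Agent.H468R3
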