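import Pool.Agent.H468R3.Dk4

/-!
# Finite Coxeter groups
-/

set_option autoImplicit false

open scoped BigOperators TensorProduct

namespace Pool.Agent.H468R3

/-- the general form of a reflection -/
theorem exists_root_gen {V : Type} [AddCommGroup V] [Module ℂ V] (s : V ≃ₗ[ℂ] V)
    (h : IsReflection s) :
    ∃ (α : Module.Dual ℂ V) (β : V), (∀ v, s v = v - α v • β) ∧ β ≠ 0 ∧ α ≠ 0 := by
  unfold IsReflection at h
  obtain ⟨⟨b, hb⟩, hb0, hb1⟩ := finrank_eq_one_iff'.1 h
  have hbne : b ≠ 0 := fun h0 => hb0 (Subtype.ext h0)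
  obtain ⟨g, hg⟩ := Module.Projective.exists_dual_ne_zero ℂ hbne
  have key : ∀ v, s v = v - (g b)⁻¹ • g (v - s v) • b := by
    intro v
    obtain ⟨t, ht⟩ := hb1 ⟨s v - v, ⟨v, rfl⟩⟩
    have ht' : t • b = s v - v := congrArg Subtype.val ht
    have h3 : g (v - s v) = -(t * g b) := by
      rw [← neg_sub, ← ht', map_neg, map_smul, smul_eq_mul]
    rw [h3, smul_smul]
    have h4 : (g b)⁻¹ * -(t * g b) = -t := by
      field_simp
    rw [h4, neg_smul, ht']
    abel
  refine ⟨(g b)⁻¹ • (g ∘ₗ (LinearMap.id - (s : V →ₗ[ℂ] V))), b, ?_, hbne, ?_⟩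
  · intro v
    rw [key v, smul_smul]
    rfl
  · intro h0
    obtain ⟨v, hv⟩ := hb
    have h1 : s v = v := by
      rw [key v, smul_smul]
      have := congrArg (fun e : Module.Dual ℂ V => e v) h0
      have h2 : (g b)⁻¹ * g (v - s v) = 0 := this
      rw [h2, zero_smul, sub_zero]
    apply hbne
    have h3 : s v - v = b := hv
    rw [← h3, h1, sub_self]

theorem pow_refl {V : Type} [AddCommGroup V] [Module ℂ V] (s : V ≃ₗ[ℂ] V)
    (α : Module.Dual ℂ V) (β : V) (hs : ∀ v, s v = v - α v • β) (n : ℕ) (v : V) :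
    ((s ^ n : V ≃ₗ[ℂ] V) v) = v - (∑ i ∈ Finset.range n, (1 - α β) ^ i) • α v • β := by
  induction n with
  | zero => simp
  | succ n ih =>
    rw [pow_succ']
    change s ((s ^ n) v) = _
    rw [ih, hs, Finset.sum_range_succ']
    have e1 : α (v - (∑ i ∈ Finset.range n, (1 - α β) ^ i) • α v • β) =
        α v - (∑ i ∈ Finset.range n, (1 - α β) ^ i) * (α v * α β) := by
      rw [map_sub, map_smul, map_smul, smul_eq_mul, smul_eq_mul]
    have e2 : ∑ i ∈ Finset.range n, (1 - α β) ^ (i + 1) =
        (∑ i ∈ Finset.range n, (1 - α β) ^ i) * (1 - α β) := by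
      rw [Finset.sum_mul]
      exact Finset.sum_congr rfl fun i _ => pow_succ _ _
    rw [e1, e2]
    generalize (∑ i ∈ Finset.range n, (1 - α β) ^ i) = S
    rw [pow_zero]
    module

/-- reflections in a finite Coxeter group are involutions -/
theorem IsCoxeter.invol {V : Type} [AddCommGroup V] [Module ℂ V] {W : Subgroup (V ≃ₗ[ℂ] V)}
    (h : IsCoxeter W) (s : W) (hs : IsReflection (s : V ≃ₗ[ℂ] V)) : s * s = 1 := by
  obtain ⟨hfin, -, n, b, hb⟩ := h
  obtain ⟨α, β, h1, hβ, hα⟩ := exists_root_gen _ hs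
  -- α β is real
  have hreal : (α β).im = 0 := by
    have e1 : ∀ i j, ((α (b j)) * (b.repr β i)).im = 0 := by
      intro i j
      have h2 := hb s s.2 i j
      rw [h1, map_sub, map_smul, Finsupp.sub_apply, Finsupp.smul_apply, Complex.sub_im,
        smul_eq_mul, b.repr_self] at h2
      have h3 : ((Finsupp.single j (1 : ℂ)) i).im = 0 := by
        rw [Finsupp.single_apply]
        split_ifs <;> simp
      rw [h3, zero_sub, neg_eq_zero] at h2
      exact h2
    have e2 : α β = ∑ i, b.repr β i * α (b i) := by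
      conv_lhs => rw [← b.sum_repr β]
      rw [map_sum]
      exact Finset.sum_congr rfl fun i _ => by rw [map_smul, smul_eq_mul]
    rw [e2, Complex.im_sum]
    refine Finset.sum_eq_zero fun i _ => ?_
    rw [mul_comm]
    exact e1 i i
  -- finite order
  obtain ⟨m, hm, hm1⟩ := isOfFinOrder_iff_pow_eq_one.1 (isOfFinOrder_of_finite s)
  have hpow : (∑ i ∈ Finset.range m, (1 - α β) ^ i) = 0 := by
    obtain ⟨v, hv⟩ : ∃ v, α v ≠ 0 := by
      by_contra h0
      push Not at h0
      exact hα (LinearMap.ext h0)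
    have h3 := pow_refl (s : V ≃ₗ[ℂ] V) α β h1 m v
    have h4 : ((s : V ≃ₗ[ℂ] V) ^ m) v = v := by
      have : ((s ^ m : W) : V ≃ₗ[ℂ] V) v = v := by rw [hm1]; rfl
      exact this
    rw [h4, eq_comm, sub_eq_self, smul_smul] at h3
    rcases smul_eq_zero.1 h3 with h5 | h5
    · exact (mul_eq_zero.1 h5).resolve_right hv
    · exact absurd h5 hβ
  have hne : (1 - α β) ≠ 1 := by
    intro h0
    rw [h0] at hpow
    simp only [one_pow, Finset.sum_const, Finset.card_range, nsmul_eq_mul, mul_one,
      Nat.cast_eq_zero] at hpow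
    omega
  have hm2 : (1 - α β) ^ m = 1 := by
    have := mul_geom_sum (1 - α β) m
    rw [hpow, mul_zero] at this
    linear_combination -this
  have htwo : α β = 2 := by
    obtain ⟨x, hx⟩ : ∃ x : ℝ, 1 - α β = (x : ℂ) :=
      ⟨1 - (α β).re, by apply Complex.ext <;> simp [hreal]⟩
    rw [hx] at hm2 hne
    have hx1 : x ^ m = 1 := by exact_mod_cast hm2
    have hxne : x ≠ 1 := by
      intro h0
      exact hne (by rw [h0]; simp)
    have habs : |x| = 1 := by
      have : |x| ^ m = 1 := by rw [← abs_pow, hx1, abs_one]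
      exact (pow_eq_one_iff_of_nonneg (abs_nonneg x) (by omega)).1 this
    have hx2 : x = -1 := by
      rcases eq_or_eq_neg_of_abs_eq habs with h | h
      · exact absurd h hxne
      · exact h
    rw [hx2] at hx
    push_cast at hx
    linear_combination -hx
  apply Subtype.ext
  apply LinearEquiv.ext
  intro v
  change (s : V ≃ₗ[ℂ] V) ((s : V ≃ₗ[ℂ] V) v) = v
  rw [h1, h1, map_sub, map_smul, htwo, smul_eq_mul]
  module

/-- **Theorem.** Necessary condition for cellularity: if `W` is a finite Coxeter group and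
`H̄_c(W)` is cellular, then an involution `z` of `W` which commutes with a reflection `s` and is
`-1` on the image of `1 - s` has trace zero on every finite-dimensional module. -/
theorem coxeter_criterion {V : Type} [AddCommGroup V] [Module ℂ V] {W : Subgroup (V ≃ₗ[ℂ] V)}
    [Fintype W] {c : W → ℂ} (hW : IsCoxeter W) (hc : ∀ w s : W, c (w * s * w⁻¹) = c s)
    (D : CellDatum (RRCA W c)) {z s : W} (hs : IsReflection (s : V ≃ₗ[ℂ] V)) (hz : z * z = 1)
    (hzs : z * s = s * z)
    (hβ : ∀ v, (z : V ≃ₗ[ℂ] V) (v - (s : V ≃ₗ[ℂ] V) v) = -(v - (s : V ≃ₗ[ℂ] V) v))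
    (M : Type) [AddCommGroup M] [Module ℂ M] [Module (RRCA W c) M]
    [IsScalarTower ℂ (RRCA W c) M] [FiniteDimensional ℂ M] :
    LinearMap.trace ℂ M (Algebra.lsmul ℂ ℂ M (RingQuot.mkAlgHom ℂ (Rel W c) (G W z))) = 0 := by
  let i1 : Module (HH c) M := (inferInstance : Module (RRCA W c) M)
  let i2 : IsScalarTower ℂ (HH c) M := (inferInstance : IsScalarTower ℂ (RRCA W c) M)
  exact tr_involution (c := c) hc (fun s hs => hW.invol s hs) D hs hz hzs hβ M

/-- the representation with `x = y = 0` given by a representation of `W` which is killed by the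
commutators -/
noncomputable def Pres.ofRep {V : Type} [AddCommGroup V] [Module ℂ V] {W : Subgroup (V ≃ₗ[ℂ] V)}
    [Fintype W] {c : W → ℂ} {B : Type} [Ring B] [Algebra ℂ B] (ρ : W →* B)
    (h : ∀ v f, ∑ s : W, coef c s v f • ρ s = 0) : Pres B c where
  x := 0
  y := 0
  g := ρ
  gx w f := by rw [LinearMap.zero_apply, LinearMap.zero_apply, mul_zero, zero_mul]
  gy w v := by rw [LinearMap.zero_apply, LinearMap.zero_apply, mul_zero, zero_mul]
  xx f f' := rfl
  yy f f' := rfl
  yx v f := by
    rw [LinearMap.zero_apply, LinearMap.zero_apply, h, mul_zero, sub_zero, neg_zero]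
  ix l hl := by
    refine Finset.sum_eq_zero fun w _ => ?_
    cases l with
    | nil => exact absurd rfl hl
    | cons f l => rw [List.map_cons, List.prod_cons, LinearMap.zero_apply, zero_mul]
  iy l hl := by
    refine Finset.sum_eq_zero fun w _ => ?_
    cases l with
    | nil => exact absurd rfl hl
    | cons f l => rw [List.map_cons, List.prod_cons, LinearMap.zero_apply, zero_mul]

/-- the module of a representation -/
def Md (n : ℕ) {V : Type} [AddCommGroup V] [Module ℂ V] {W : Subgroup (V ≃ₗ[ℂ] V)}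
    [Fintype W] {c : W → ℂ} (_ : Pres (Module.End ℂ (Fin n → ℂ)) c) : Type := Fin n → ℂ

section

variable {n : ℕ} {V : Type} [AddCommGroup V] [Module ℂ V] {W : Subgroup (V ≃ₗ[ℂ] V)}
    [Fintype W] {c : W → ℂ} (D : Pres (Module.End ℂ (Fin n → ℂ)) c)

noncomputable instance : AddCommGroup (Md n D) := inferInstanceAs (AddCommGroup (Fin n → ℂ))
noncomputable instance : Module ℂ (Md n D) := inferInstanceAs (Module ℂ (Fin n → ℂ))
instance : FiniteDimensional ℂ (Md n D) :=
  inferInstanceAs (FiniteDimensional ℂ (Fin n → ℂ))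
noncomputable instance : Module (HH c) (Md n D) where
  smul a v := D.hom a v
  one_smul v := by
    change D.hom 1 v = v
    rw [map_one]
    rfl
  mul_smul a b v := by
    change D.hom (a * b) v = D.hom a (D.hom b v)
    rw [map_mul]
    rfl
  smul_zero a := map_zero (D.hom a)
  smul_add a v w := map_add (D.hom a) v w
  add_smul a b v := by
    change D.hom (a + b) v = D.hom a v + D.hom b v
    rw [map_add]
    rfl
  zero_smul v := by
    change D.hom 0 v = 0
    rw [map_zero]
    rfl
instance : IsScalarTower ℂ (HH c) (Md n D) where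
  smul_assoc t a v := by
    change D.hom (t • a) v = t • D.hom a v
    rw [map_smul]
    rfl

theorem tr_Md (w : W) : tr (Md n D) ((uni c).g w) = LinearMap.trace ℂ (Fin n → ℂ) (D.g w) := by
  have h : Algebra.lsmul ℂ ℂ (Md n D) ((uni c).g w) = (D.g w : Module.End ℂ (Fin n → ℂ)) := by
    apply LinearMap.ext
    intro v
    change D.hom ((uni c).g w) v = _
    rw [D.hom_g]
    rfl
  unfold tr
  rw [h]
  rfl

end

/-- **Theorem.** At `c = 0` the restricted rational Cherednik algebra of a nontrivial finite Coxeter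
group is never cellular. -/
theorem not_cellular_zero {V : Type} [AddCommGroup V] [Module ℂ V] {W : Subgroup (V ≃ₗ[ℂ] V)}
    [Fintype W] (hW : IsCoxeter W) (hne : W ≠ ⊥) : ¬ Nonempty (CellDatum (RRCA W 0)) := by
  rintro ⟨D⟩
  obtain ⟨s, hsW, hs⟩ : ∃ s ∈ W, IsReflection s := by
    by_contra h0
    push Not at h0
    apply hne
    rw [← hW.2.1, Subgroup.closure_eq_bot_iff]
    rintro x ⟨hx, hx'⟩
    exact absurd hx' (h0 x hx)
  set s' : W := ⟨s, hsW⟩ with hs'
  let E : Pres (Module.End ℂ (Fin 1 → ℂ)) (0 : W → ℂ) := Pres.ofRep 1 (fun v f => by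
    refine Finset.sum_eq_zero fun s _ => ?_
    unfold coef
    simp)
  have hinv := hW.invol s' hs
  have h := tr_involution (c := (0 : W → ℂ)) (fun _ _ => rfl) (fun s hs => hW.invol s hs) D
    (z := s') (s := s') hs hinv rfl (by
      intro v
      have : (s' : V ≃ₗ[ℂ] V) ((s' : V ≃ₗ[ℂ] V) v) = v :=
        congrArg (fun e : W => (e : V ≃ₗ[ℂ] V) v) hinv
      rw [map_sub, this]
      abel) (Md 1 E)
  rw [tr_Md] at h
  have h2 : E.g s' = (1 : Module.End ℂ (Fin 1 → ℂ)) := rfl
  rw [h2, LinearMap.trace_one] at h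
  simp at h

end Pool.Agent.H468R3
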