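import Pool.Agent.H468R3.Dk5

/-!
# Dihedral groups
-/

set_option autoImplicit false

open scoped BigOperators TensorProduct

namespace Pool.Agent.H468R3.Dih

/-- the rotation `(x, y) ↦ (a x, a⁻¹ y)` of `ℂ²` -/
noncomputable def rot (a : ℂˣ) : (ℂ × ℂ) ≃ₗ[ℂ] (ℂ × ℂ) where
  toFun v := ((a : ℂ) * v.1, ((a⁻¹ : ℂˣ) : ℂ) * v.2)
  invFun v := (((a⁻¹ : ℂˣ) : ℂ) * v.1, (a : ℂ) * v.2)
  map_add' v w := by ext <;> simp [mul_add]
  map_smul' t v := by ext <;> simp [mul_left_comm]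
  left_inv v := by ext <;> simp
  right_inv v := by ext <;> simp

/-- the reflection `(x, y) ↦ (b y, b⁻¹ x)` of `ℂ²` -/
noncomputable def refl (b : ℂˣ) : (ℂ × ℂ) ≃ₗ[ℂ] (ℂ × ℂ) where
  toFun v := ((b : ℂ) * v.2, ((b⁻¹ : ℂˣ) : ℂ) * v.1)
  invFun v := ((b : ℂ) * v.2, ((b⁻¹ : ℂˣ) : ℂ) * v.1)
  map_add' v w := by ext <;> simp [mul_add]
  map_smul' t v := by ext <;> simp [mul_left_comm]
  left_inv v := by ext <;> simp
  right_inv v := by ext <;> simp

theorem rot_apply (a : ℂˣ) (v : ℂ × ℂ) : rot a v = ((a : ℂ) * v.1, ((a⁻¹ : ℂˣ) : ℂ) * v.2) := rfl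
theorem refl_apply (a : ℂˣ) (v : ℂ × ℂ) : refl a v = ((a : ℂ) * v.2, ((a⁻¹ : ℂˣ) : ℂ) * v.1) := rfl

theorem rot_one : rot 1 = 1 := by
  apply LinearEquiv.ext
  intro v
  rw [rot_apply]
  ext <;> simp

theorem rot_rot (a b : ℂˣ) : rot a * rot b = rot (a * b) := by
  apply LinearEquiv.ext
  intro v
  change rot a (rot b v) = _
  simp only [rot_apply, mul_inv, Units.val_mul, mul_assoc]

theorem rot_refl (a b : ℂˣ) : rot a * refl b = refl (a * b) := by
  apply LinearEquiv.ext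
  intro v
  change rot a (refl b v) = _
  simp only [rot_apply, refl_apply, mul_inv, Units.val_mul, mul_assoc]

theorem refl_rot (a b : ℂˣ) : refl a * rot b = refl (a * b⁻¹) := by
  apply LinearEquiv.ext
  intro v
  change refl a (rot b v) = _
  simp only [rot_apply, refl_apply, mul_inv, Units.val_mul, mul_assoc, inv_inv]

theorem refl_refl (a b : ℂˣ) : refl a * refl b = rot (a * b⁻¹) := by
  apply LinearEquiv.ext
  intro v
  change refl a (refl b v) = _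
  simp only [rot_apply, refl_apply, mul_inv, Units.val_mul, mul_assoc, inv_inv]

theorem rot_inv (a : ℂˣ) : (rot a)⁻¹ = rot a⁻¹ := by
  rw [inv_eq_iff_mul_eq_one, rot_rot, mul_inv_cancel, rot_one]

theorem refl_inv (a : ℂˣ) : (refl a)⁻¹ = refl a := by
  rw [inv_eq_iff_mul_eq_one, refl_refl, mul_inv_cancel, rot_one]

/-- The dihedral group of order `2 n` (type `I_2(n)`), acting on `ℂ²` in the basis of
eigenvectors of the rotations. -/
def W (n : ℕ) : Subgroup ((ℂ × ℂ) ≃ₗ[ℂ] (ℂ × ℂ)) where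
  carrier := {w | ∃ a : ℂˣ, a ^ n = 1 ∧ (w = rot a ∨ w = refl a)}
  one_mem' := ⟨1, one_pow n, Or.inl rot_one.symm⟩
  mul_mem' := by
    rintro x y ⟨a, ha, rfl | rfl⟩ ⟨b, hb, rfl | rfl⟩
    · exact ⟨a * b, by rw [mul_pow, ha, hb, mul_one], Or.inl (rot_rot a b)⟩
    · exact ⟨a * b, by rw [mul_pow, ha, hb, mul_one], Or.inr (rot_refl a b)⟩
    · exact ⟨a * b⁻¹, by rw [mul_pow, inv_pow, ha, hb, inv_one, mul_one], Or.inr (refl_rot a b)⟩
    · exact ⟨a * b⁻¹, by rw [mul_pow, inv_pow, ha, hb, inv_one, mul_one], Or.inl (refl_refl a b)⟩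
  inv_mem' := by
    rintro x ⟨a, ha, rfl | rfl⟩
    · exact ⟨a⁻¹, by rw [inv_pow, ha, inv_one], Or.inl (rot_inv a)⟩
    · exact ⟨a, ha, Or.inr (refl_inv a)⟩

theorem mem_W {n : ℕ} {w : (ℂ × ℂ) ≃ₗ[ℂ] (ℂ × ℂ)} :
    w ∈ W n ↔ ∃ a : ℂˣ, a ^ n = 1 ∧ (w = rot a ∨ w = refl a) := Iff.rfl

instance (n : ℕ) [NeZero n] : Finite (W n) := by
  have h1 : Set.Finite {a : ℂˣ | a ^ n = 1} := by
    have : {a : ℂˣ | a ^ n = 1} = (rootsOfUnity n ℂ : Set ℂˣ) := by
      ext a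
      rw [SetLike.mem_coe, mem_rootsOfUnity]
      rfl
    rw [this]
    have h3 : Finite (rootsOfUnity n ℂ) := inferInstance
    exact h3
  have h2 : Set.Finite (W n : Set ((ℂ × ℂ) ≃ₗ[ℂ] (ℂ × ℂ))) := by
    refine ((h1.image rot).union (h1.image refl)).subset ?_
    rintro w ⟨a, ha, rfl | rfl⟩
    · exact Or.inl ⟨a, ha, rfl⟩
    · exact Or.inr ⟨a, ha, rfl⟩
  exact h2

noncomputable instance (n : ℕ) [NeZero n] : Fintype (W n) := Fintype.ofFinite _

theorem isReflection_refl (b : ℂˣ) : IsReflection (refl b) := by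
  unfold IsReflection
  have h : LinearMap.range ((refl b : (ℂ × ℂ) →ₗ[ℂ] (ℂ × ℂ)) - LinearMap.id) =
      Submodule.span ℂ {((1 : ℂ), -((b⁻¹ : ℂˣ) : ℂ))} := by
    apply le_antisymm
    · rintro _ ⟨v, rfl⟩
      rw [Submodule.mem_span_singleton]
      refine ⟨(b : ℂ) * v.2 - v.1, ?_⟩
      change _ = refl b v - v
      rw [refl_apply]
      ext
      · simp
      · simp only [Prod.smul_mk, smul_eq_mul, Prod.snd_sub]
        have : (b : ℂ) * ((b⁻¹ : ℂˣ) : ℂ) = 1 := by simp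
        linear_combination (-v.2) * this
    · rw [Submodule.span_singleton_le_iff_mem]
      refine ⟨(-1, 0), ?_⟩
      change refl b (-1, 0) - (-1, 0) = _
      rw [refl_apply]
      ext <;> simp
  rw [h, finrank_span_singleton]
  intro h0
  have := congrArg Prod.fst h0
  simp at this

theorem not_isReflection_rot (a : ℂˣ) : ¬ IsReflection (rot a) := by
  intro h
  obtain ⟨α, β, h1, hβ, hα⟩ := exists_root_gen _ h
  have e1 := h1 (1, 0)
  have e2 := h1 (0, 1)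
  rw [rot_apply] at e1 e2
  have e11 := congrArg Prod.fst e1
  have e12 := congrArg Prod.snd e1
  have e21 := congrArg Prod.fst e2
  have e22 := congrArg Prod.snd e2
  simp at e11 e12 e21 e22
  have hα' : α (1, 0) ≠ 0 ∨ α (0, 1) ≠ 0 := by
    by_contra h0
    push Not at h0
    apply hα
    apply LinearMap.ext
    intro v
    have : v = v.1 • ((1 : ℂ), (0 : ℂ)) + v.2 • ((0 : ℂ), (1 : ℂ)) := by ext <;> simp
    rw [this, map_add, map_smul, map_smul, h0.1, h0.2]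
    simp
  have hβ' : β.1 ≠ 0 ∨ β.2 ≠ 0 := by
    by_contra h0
    push Not at h0
    exact hβ (Prod.ext h0.1 h0.2)
  have ha : (a : ℂ) * (a : ℂ)⁻¹ = 1 := mul_inv_cancel₀ a.ne_zero
  rcases hα' with h2 | h2
  · have h3 : β.2 = 0 := by
      rcases e12 with h | h
      · exact absurd h h2
      · exact h
    have h4 : β.1 ≠ 0 := by
      rcases hβ' with h | h
      · exact h
      · exact absurd h3 h
    have h5 : α (0, 1) = 0 := by
      rcases e21 with h | h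
      · exact h
      · exact absurd h h4
    have h6 : (a : ℂ)⁻¹ = 1 := by
      rw [h5] at e22
      simpa using e22
    have h7 : (a : ℂ) = 1 := by rw [h6, mul_one] at ha; exact ha
    rw [h7] at e11
    have h8 : α (1, 0) * β.1 = 0 := by linear_combination e11
    exact (mul_ne_zero h2 h4) h8
  · have h3 : β.1 = 0 := by
      rcases e21 with h | h
      · exact absurd h h2
      · exact h
    have h4 : β.2 ≠ 0 := by
      rcases hβ' with h | h
      · exact absurd h3 h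
      · exact h
    have h5 : α (1, 0) = 0 := by
      rcases e12 with h | h
      · exact h
      · exact absurd h h4
    have h6 : (a : ℂ) = 1 := by
      rw [h5] at e11
      simpa using e11
    have h7 : (a : ℂ)⁻¹ = 1 := by rw [h6, inv_one]
    rw [h7] at e22
    have h8 : α (0, 1) * β.2 = 0 := by linear_combination e22
    exact (mul_ne_zero h2 h4) h8

/-- the real coordinates -/
noncomputable def realCoord : (ℂ × ℂ) ≃ₗ[ℂ] (Fin 2 → ℂ) where
  toFun v := ![(v.1 + v.2) / 2, (v.1 - v.2) / (2 * Complex.I)]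
  invFun u := (u 0 + Complex.I * u 1, u 0 - Complex.I * u 1)
  map_add' v w := by
    funext i
    fin_cases i <;> simp <;> ring
  map_smul' t v := by
    funext i
    fin_cases i <;> simp <;> ring
  left_inv v := by
    have := Complex.I_ne_zero
    ext
    · simp
      field_simp
      ring
    · simp
      field_simp
      ring
  right_inv u := by
    have := Complex.I_ne_zero
    funext i
    fin_cases i
    · simp
    · simp
      field_simp
      ring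

theorem realCoord_im {v : ℂ × ℂ} (hv : v.2 = (starRingEnd ℂ) v.1) (i : Fin 2) :
    (realCoord v i).im = 0 := by
  have h : realCoord v = ![(v.1 + v.2) / 2, (v.1 - v.2) / (2 * Complex.I)] := rfl
  rw [h, hv]
  have e1 : (v.1 + (starRingEnd ℂ) v.1) / 2 = ((v.1.re : ℝ) : ℂ) := by
    rw [Complex.add_conj]
    push_cast
    ring
  have e2 : (v.1 - (starRingEnd ℂ) v.1) / (2 * Complex.I) = ((v.1.im : ℝ) : ℂ) := by
    rw [Complex.sub_conj]
    have := Complex.I_ne_zero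
    field_simp
    push_cast
    ring
  rw [e1, e2]
  fin_cases i
  · exact Complex.ofReal_im _
  · exact Complex.ofReal_im _

theorem isCoxeter (n : ℕ) [NeZero n] : IsCoxeter (W n) := by
  refine ⟨inferInstance, ?_, 2, Module.Basis.ofEquivFun realCoord, ?_⟩
  · apply le_antisymm
    · rw [Subgroup.closure_le]
      rintro s ⟨hs, _⟩
      exact hs
    · rintro w ⟨a, ha, rfl | rfl⟩
      · have h1 : rot a = refl a * refl 1 := by rw [refl_refl, inv_one, mul_one]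
        rw [h1]
        exact Subgroup.mul_mem _
          (Subgroup.subset_closure ⟨⟨a, ha, Or.inr rfl⟩, isReflection_refl a⟩)
          (Subgroup.subset_closure ⟨⟨1, one_pow n, Or.inr rfl⟩, isReflection_refl 1⟩)
      · exact Subgroup.subset_closure ⟨⟨a, ha, Or.inr rfl⟩, isReflection_refl a⟩
  · have hreal : ∀ j, ((Module.Basis.ofEquivFun realCoord) j).2 =
        (starRingEnd ℂ) ((Module.Basis.ofEquivFun realCoord) j).1 := by
      intro j
      rw [Module.Basis.coe_ofEquivFun]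
      change (Pi.single j (1 : ℂ) : Fin 2 → ℂ) 0 - Complex.I * (Pi.single j (1 : ℂ) : Fin 2 → ℂ) 1 =
        (starRingEnd ℂ) ((Pi.single j (1 : ℂ) : Fin 2 → ℂ) 0 +
          Complex.I * (Pi.single j (1 : ℂ) : Fin 2 → ℂ) 1)
      fin_cases j <;> simp
    rintro w ⟨a, ha, hw⟩ i j
    rw [Module.Basis.ofEquivFun_repr_apply]
    apply realCoord_im
    have hnorm : ((a⁻¹ : ℂˣ) : ℂ) = (starRingEnd ℂ) (a : ℂ) := by
      have h1 : ‖(a : ℂ)‖ = 1 := by
        have : (a : ℂ) ^ n = 1 := by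
          rw [← Units.val_pow_eq_pow_val, ha, Units.val_one]
        exact Complex.norm_eq_one_of_pow_eq_one this (NeZero.ne n)
      rw [Units.val_inv_eq_inv_val, Complex.inv_def, Complex.normSq_eq_norm_sq, h1]
      simp
    rcases hw with rfl | rfl
    · rw [rot_apply]
      simp only [map_mul, hreal j, hnorm]
    · rw [refl_apply]
      simp only [map_mul, hreal j, hnorm, Complex.conj_conj]

/-! ## the module -/

/-- entrywise square of the matrix -/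
noncomputable def sq (w : (ℂ × ℂ) ≃ₗ[ℂ] (ℂ × ℂ)) : Matrix (Fin 2) (Fin 2) ℂ :=
  !![(w (1, 0)).1 ^ 2, (w (0, 1)).1 ^ 2; (w (1, 0)).2 ^ 2, (w (0, 1)).2 ^ 2]

theorem sq_rot (a : ℂˣ) : sq (rot a) = !![(a : ℂ) ^ 2, 0; 0, (((a⁻¹ : ℂˣ) : ℂ)) ^ 2] := by
  unfold sq
  simp [rot_apply]

theorem sq_refl (a : ℂˣ) : sq (refl a) = !![0, (a : ℂ) ^ 2; (((a⁻¹ : ℂˣ) : ℂ)) ^ 2, 0] := by
  unfold sq
  simp [refl_apply]

/-- the representation by entrywise squares -/
noncomputable def sqHom (n : ℕ) : W n →* Matrix (Fin 2) (Fin 2) ℂ where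
  toFun w := sq (w : (ℂ × ℂ) ≃ₗ[ℂ] (ℂ × ℂ))
  map_one' := by
    rw [Subgroup.coe_one, ← rot_one, sq_rot]
    simp [Matrix.one_fin_two]
  map_mul' := by
    rintro ⟨w, a, ha, hw⟩ ⟨w', b, hb, hw'⟩
    change sq (w * w') = sq w * sq w'
    rcases hw with rfl | rfl <;> rcases hw' with rfl | rfl
    · rw [rot_rot, sq_rot, sq_rot, sq_rot, Matrix.mul_fin_two]
      simp [mul_pow, mul_comm]
    · rw [rot_refl, sq_rot, sq_refl, sq_refl, Matrix.mul_fin_two]
      simp [mul_pow, mul_comm]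
    · rw [refl_rot, sq_refl, sq_refl, sq_rot, Matrix.mul_fin_two]
      simp [mul_pow, mul_comm]
    · rw [refl_refl, sq_rot, sq_refl, sq_refl, Matrix.mul_fin_two]
      simp [mul_pow, mul_comm]

/-- the matrix entries of an element of `W` -/
noncomputable def p01 (w : (ℂ × ℂ) ≃ₗ[ℂ] (ℂ × ℂ)) : ℂ := (w (0, 1)).1
/-- the matrix entries of an element of `W` -/
noncomputable def p10 (w : (ℂ × ℂ) ≃ₗ[ℂ] (ℂ × ℂ)) : ℂ := (w (1, 0)).2

section

variable {n : ℕ} [NeZero n] {c : W n → ℂ} (hc : ∀ w s : W n, c (w * s * w⁻¹) = c s)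

omit [NeZero n] in
theorem cc_rot (s : W n) {a : ℂˣ} (h : (s : (ℂ × ℂ) ≃ₗ[ℂ] (ℂ × ℂ)) = rot a) : cc c s = 0 := by
  apply if_neg
  rw [h]
  exact not_isReflection_rot a

include hc in
theorem sum_zero (ζ : ℂˣ) (hζ : ζ ^ n = 1) (j : ℕ) (hj : ζ ^ (2 * j) ≠ 1) :
    ∑ s : W n, cc c s * p01 s ^ j = 0 ∧ ∑ s : W n, cc c s * p10 s ^ j = 0 := by
  set r : W n := ⟨rot ζ, ζ, hζ, Or.inl rfl⟩ with hr
  have h1 : ∀ s : W n, cc c (r * s * r⁻¹) * p01 (r * s * r⁻¹ : W n) ^ j =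
      ((ζ : ℂ) ^ (2 * j)) * (cc c s * p01 s ^ j) := by
    intro s
    rw [cc_conj hc]
    obtain ⟨a, ha, hw⟩ := s.2
    rcases hw with hw | hw
    · rw [cc_rot _ hw, zero_mul, zero_mul, mul_zero]
    · have e1 : ((r * s * r⁻¹ : W n) : (ℂ × ℂ) ≃ₗ[ℂ] (ℂ × ℂ)) = refl (ζ * a * ζ) := by
        change rot ζ * (s : (ℂ × ℂ) ≃ₗ[ℂ] (ℂ × ℂ)) * (rot ζ)⁻¹ = _
        rw [hw, rot_refl, rot_inv, refl_rot, inv_inv]
      have e2 : p01 ((r * s * r⁻¹ : W n) : (ℂ × ℂ) ≃ₗ[ℂ] (ℂ × ℂ)) = (ζ : ℂ) ^ 2 * p01 s := by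
        rw [e1, hw]
        unfold p01
        rw [refl_apply, refl_apply]
        push_cast
        ring
      rw [e2, mul_pow, pow_mul]
      ring
  have h2 : ∀ s : W n, cc c (r * s * r⁻¹) * p10 (r * s * r⁻¹ : W n) ^ j =
      (((ζ⁻¹ : ℂˣ) : ℂ) ^ (2 * j)) * (cc c s * p10 s ^ j) := by
    intro s
    rw [cc_conj hc]
    obtain ⟨a, ha, hw⟩ := s.2
    rcases hw with hw | hw
    · rw [cc_rot _ hw, zero_mul, zero_mul, mul_zero]
    · have e1 : ((r * s * r⁻¹ : W n) : (ℂ × ℂ) ≃ₗ[ℂ] (ℂ × ℂ)) = refl (ζ * a * ζ) := by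
        change rot ζ * (s : (ℂ × ℂ) ≃ₗ[ℂ] (ℂ × ℂ)) * (rot ζ)⁻¹ = _
        rw [hw, rot_refl, rot_inv, refl_rot, inv_inv]
      have e2 : p10 ((r * s * r⁻¹ : W n) : (ℂ × ℂ) ≃ₗ[ℂ] (ℂ × ℂ)) =
          ((ζ⁻¹ : ℂˣ) : ℂ) ^ 2 * p10 s := by
        rw [e1, hw]
        unfold p10
        rw [refl_apply, refl_apply, mul_inv, mul_inv]
        push_cast
        ring
      rw [e2, mul_pow, pow_mul]
      ring
  have g1 := Equiv.sum_comp (MulAut.conj r).toEquiv (fun s : W n => cc c s * p01 s ^ j)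
  have g2 := Equiv.sum_comp (MulAut.conj r).toEquiv (fun s : W n => cc c s * p10 s ^ j)
  have k1 : ∑ s : W n, cc c (r * s * r⁻¹) * p01 (r * s * r⁻¹ : W n) ^ j =
      ∑ s : W n, cc c s * p01 s ^ j := g1
  have k2 : ∑ s : W n, cc c (r * s * r⁻¹) * p10 (r * s * r⁻¹ : W n) ^ j =
      ∑ s : W n, cc c s * p10 s ^ j := g2
  rw [Finset.sum_congr rfl fun s _ => h1 s, ← Finset.mul_sum] at k1
  rw [Finset.sum_congr rfl fun s _ => h2 s, ← Finset.mul_sum] at k2
  have z1 : (ζ : ℂ) ^ (2 * j) ≠ 1 := by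
    intro h0
    apply hj
    apply Units.ext
    rw [Units.val_pow_eq_pow_val, h0, Units.val_one]
  have z2 : ((ζ⁻¹ : ℂˣ) : ℂ) ^ (2 * j) ≠ 1 := by
    intro h0
    apply z1
    rw [Units.val_inv_eq_inv_val, inv_pow, inv_eq_one] at h0
    exact h0
  constructor
  · have : (1 - (ζ : ℂ) ^ (2 * j)) * ∑ s : W n, cc c s * p01 s ^ j = 0 := by
      linear_combination -k1
    exact (mul_eq_zero.1 this).resolve_left (sub_ne_zero.2 z1.symm)
  · have : (1 - ((ζ⁻¹ : ℂˣ) : ℂ) ^ (2 * j)) * ∑ s : W n, cc c s * p10 s ^ j = 0 := by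
      linear_combination -k2
    exact (mul_eq_zero.1 this).resolve_left (sub_ne_zero.2 z2.symm)

omit [NeZero n] in
theorem coef_refl (s : W n) {a : ℂˣ} (h : (s : (ℂ × ℂ) ≃ₗ[ℂ] (ℂ × ℂ)) = refl a) (v : ℂ × ℂ)
    (f : Module.Dual ℂ (ℂ × ℂ)) :
    coef c s v f = cc c s * (f v - (a : ℂ) * v.2 * f (1, 0) - ((a⁻¹ : ℂˣ) : ℂ) * v.1 * f (0, 1)) := by
  have hr : IsReflection (s : (ℂ × ℂ) ≃ₗ[ℂ] (ℂ × ℂ)) := by
    rw [h]
    exact isReflection_refl a
  unfold coef cc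
  rw [if_pos hr, if_pos hr, h, LinearMap.sub_apply, act_apply, refl_inv, refl_apply]
  have e : ((a : ℂ) * v.2, ((a⁻¹ : ℂˣ) : ℂ) * v.1) =
      ((a : ℂ) * v.2) • ((1 : ℂ), (0 : ℂ)) + (((a⁻¹ : ℂˣ) : ℂ) * v.1) • ((0 : ℂ), (1 : ℂ)) := by
    ext <;> simp
  rw [e, map_add, map_smul, map_smul, smul_eq_mul, smul_eq_mul]
  ring

include hc in
theorem sum_sq (ζ : ℂˣ) (hζ : ζ ^ n = 1) (hj : ∀ j, 1 ≤ j → j ≤ 3 → ζ ^ (2 * j) ≠ 1) (v : ℂ × ℂ)
    (f : Module.Dual ℂ (ℂ × ℂ)) : ∑ s : W n, coef c s v f • sqHom n s = 0 := by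
  obtain ⟨a1, b1⟩ := sum_zero hc ζ hζ 1 (hj 1 le_rfl (by norm_num))
  obtain ⟨a2, b2⟩ := sum_zero hc ζ hζ 2 (hj 2 (by norm_num) (by norm_num))
  obtain ⟨a3, b3⟩ := sum_zero hc ζ hζ 3 (hj 3 (by norm_num) le_rfl)
  have coef_rot : ∀ (s : W n) (a : ℂˣ), (s : (ℂ × ℂ) ≃ₗ[ℂ] (ℂ × ℂ)) = rot a → coef c s v f = 0 := by
    intro s a h
    unfold coef
    apply if_neg
    rw [h]
    exact not_isReflection_rot a
  ext i j
  rw [Matrix.sum_apply]
  fin_cases i <;> fin_cases j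
  · change ∑ s : W n, coef c s v f * ((s : (ℂ × ℂ) ≃ₗ[ℂ] (ℂ × ℂ)) (1, 0)).1 ^ 2 = 0
    refine Finset.sum_eq_zero fun s _ => ?_
    obtain ⟨a, ha, hw⟩ := s.2
    rcases hw with hw | hw
    · rw [coef_rot _ a hw, zero_mul]
    · rw [hw, refl_apply]
      simp
  · change ∑ s : W n, coef c s v f * ((s : (ℂ × ℂ) ≃ₗ[ℂ] (ℂ × ℂ)) (0, 1)).1 ^ 2 = 0
    have e : ∀ s : W n, coef c s v f * ((s : (ℂ × ℂ) ≃ₗ[ℂ] (ℂ × ℂ)) (0, 1)).1 ^ 2 =
        f v * (cc c s * p01 s ^ 2) - (v.2 * f (1, 0)) * (cc c s * p01 s ^ 3) -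
          (v.1 * f (0, 1)) * (cc c s * p01 s ^ 1) := by
      intro s
      obtain ⟨a, ha, hw⟩ := s.2
      rcases hw with hw | hw
      · rw [coef_rot _ a hw, cc_rot _ hw]
        ring
      · rw [coef_refl _ hw]
        unfold p01
        rw [hw, refl_apply]
        have : (a : ℂ) * ((a⁻¹ : ℂˣ) : ℂ) = 1 := by simp
        simp only [mul_one]
        linear_combination (-(cc c s) * v.1 * f (0, 1) * (a : ℂ)) * this
    rw [Finset.sum_congr rfl fun s _ => e s, Finset.sum_sub_distrib, Finset.sum_sub_distrib,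
      ← Finset.mul_sum, ← Finset.mul_sum, ← Finset.mul_sum, a1, a2, a3]
    simp
  · change ∑ s : W n, coef c s v f * ((s : (ℂ × ℂ) ≃ₗ[ℂ] (ℂ × ℂ)) (1, 0)).2 ^ 2 = 0
    have e : ∀ s : W n, coef c s v f * ((s : (ℂ × ℂ) ≃ₗ[ℂ] (ℂ × ℂ)) (1, 0)).2 ^ 2 =
        f v * (cc c s * p10 s ^ 2) - (v.1 * f (0, 1)) * (cc c s * p10 s ^ 3) -
          (v.2 * f (1, 0)) * (cc c s * p10 s ^ 1) := by
      intro s
      obtain ⟨a, ha, hw⟩ := s.2
      rcases hw with hw | hw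
      · rw [coef_rot _ a hw, cc_rot _ hw]
        ring
      · rw [coef_refl _ hw]
        unfold p10
        rw [hw, refl_apply]
        have : (a : ℂ) * ((a⁻¹ : ℂˣ) : ℂ) = 1 := by simp
        simp only [mul_one]
        linear_combination (-(cc c s) * v.2 * f (1, 0) * ((a⁻¹ : ℂˣ) : ℂ)) * this
    rw [Finset.sum_congr rfl fun s _ => e s, Finset.sum_sub_distrib, Finset.sum_sub_distrib,
      ← Finset.mul_sum, ← Finset.mul_sum, ← Finset.mul_sum, b1, b2, b3]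
    simp
  · change ∑ s : W n, coef c s v f * ((s : (ℂ × ℂ) ≃ₗ[ℂ] (ℂ × ℂ)) (0, 1)).2 ^ 2 = 0
    refine Finset.sum_eq_zero fun s _ => ?_
    obtain ⟨a, ha, hw⟩ := s.2
    rcases hw with hw | hw
    · rw [coef_rot _ a hw, zero_mul]
    · rw [hw, refl_apply]
      simp

include hc in
/-- **Theorem.** For even `n ≥ 8` the restricted rational Cherednik algebra of the dihedral group
of order `2 n` is not cellular, for every parameter. -/
theorem not_cellular (hn : 8 ≤ n) (he : Even n) : ¬ Nonempty (CellDatum (RRCA (W n) c)) := by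
  rintro ⟨D⟩
  have hprim := Complex.isPrimitiveRoot_exp n (NeZero.ne n)
  obtain ⟨ζ, hζ⟩ := hprim.isUnit (NeZero.ne n)
  rw [← hζ] at hprim
  have hζn : ζ ^ n = 1 := by
    apply Units.ext
    rw [Units.val_pow_eq_pow_val, hprim.pow_eq_one, Units.val_one]
  have hζj : ∀ j, 1 ≤ j → j ≤ 3 → ζ ^ (2 * j) ≠ 1 := by
    intro j h1 h3 h0
    have h4 : (ζ : ℂ) ^ (2 * j) = 1 := by
      rw [← Units.val_pow_eq_pow_val, h0, Units.val_one]
    have h5 := hprim.dvd_of_pow_eq_one _ h4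
    have := Nat.le_of_dvd (by omega) h5
    omega
  let E : Pres (Module.End ℂ (Fin 2 → ℂ)) c := Pres.ofRep
    ((Matrix.toLinAlgEquiv' : Matrix (Fin 2) (Fin 2) ℂ ≃ₐ[ℂ] _).toAlgHom.toRingHom.toMonoidHom.comp
      (sqHom n)) (by
    intro v f
    have h := congrArg (Matrix.toLinAlgEquiv' : Matrix (Fin 2) (Fin 2) ℂ ≃ₐ[ℂ] _)
      (sum_sq hc ζ hζn hζj v f)
    rw [map_zero, map_sum] at h
    refine Eq.trans (Finset.sum_congr rfl fun s _ => ?_) h
    rw [map_smul]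
    rfl)
  let z : W n := ⟨rot (-1), -1, he.neg_one_pow, Or.inl rfl⟩
  let s : W n := ⟨refl 1, 1, one_pow n, Or.inr rfl⟩
  have hz : ∀ v, (z : (ℂ × ℂ) ≃ₗ[ℂ] (ℂ × ℂ)) v = -v := by
    intro v
    change rot (-1) v = -v
    rw [rot_apply]
    ext <;> simp
  have h := tr_involution hc (fun s hs => (isCoxeter n).invol s hs) D
    (z := z) (s := s) (isReflection_refl 1) (by
      apply Subtype.ext
      change rot (-1) * rot (-1) = 1
      rw [rot_rot, neg_mul_neg, one_mul, rot_one]) (by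
      apply Subtype.ext
      change rot (-1) * refl 1 = refl 1 * rot (-1)
      rw [rot_refl, refl_rot, inv_neg_one, mul_one, one_mul]) (fun v => hz _) (Md 2 E)
  rw [tr_Md] at h
  have h2 : E.g z = (1 : Module.End ℂ (Fin 2 → ℂ)) := by
    change Matrix.toLinAlgEquiv' (sq (rot (-1))) = 1
    have : sq (rot (-1)) = 1 := by
      rw [sq_rot, Matrix.one_fin_two]
      simp
    rw [this, map_one]
  rw [h2, LinearMap.trace_one] at h
  simp at h

end

end Pool.Agent.H468R3.Dih
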