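import Mathlib

/-!
# A criterion for the vanishing of `Ext^1`
-/

set_option autoImplicit false

universe u

open CategoryTheory Abelian

namespace Pool.Agent.H468R3

/-- If every map from the kernel of a projective presentation extends, then `Ext^1 = 0`. -/
theorem ext_one_of_extend {R : Type u} [Ring R] (P M N : Type u) [AddCommGroup P] [Module R P]
    [AddCommGroup M] [Module R M] [AddCommGroup N] [Module R N] [Module.Projective R P]
    (π : P →ₗ[R] M) (hπ : Function.Surjective π)
    (H : ∀ f : LinearMap.ker π →ₗ[R] N, ∃ g : P →ₗ[R] N, ∀ x : LinearMap.ker π, g x.1 = f x) :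
    Subsingleton (Ext (ModuleCat.of R M) (ModuleCat.of R N) 1) := by
  refine subsingleton_of_forall_eq 0 fun x => ?_
  have hS := LinearMap.shortExact_shortComplexKer hπ
  have hP : Projective (π.shortComplexKer).X₂ :=
    (IsProjective.iff_projective (R := R) P).1 inferInstance
  obtain ⟨x₁, hx₁⟩ := Ext.contravariant_sequence_exact₃ hS (ModuleCat.of R N) x
    (Ext.eq_zero_of_projective _) (add_comm 1 0)
  obtain ⟨g, rfl⟩ := Ext.addEquiv₀.symm.surjective x₁
  obtain ⟨g', hg'⟩ := H g.hom
  have e : g = (π.shortComplexKer).f ≫ ModuleCat.ofHom g' := by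
    apply ModuleCat.hom_ext
    apply LinearMap.ext
    intro y
    exact (hg' y).symm
  rw [← hx₁, e]
  have e2 : Ext.addEquiv₀.symm ((π.shortComplexKer).f ≫ ModuleCat.ofHom g') =
      (Ext.mk₀ (π.shortComplexKer).f).comp (Ext.mk₀ (ModuleCat.ofHom g')) (zero_add 0) := by
    rw [Ext.mk₀_comp_mk₀]
    rfl
  rw [e2, ShortComplex.ShortExact.extClass_comp_assoc]

end Pool.Agent.H468R3
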