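import Mathlib

/-!
# Restricted rational Cherednik algebras
-/

set_option autoImplicit false

open scoped BigOperators

namespace Pool.Agent.H468R3

section

variable {V : Type} [AddCommGroup V] [Module ℂ V]

/-- the action of `GL(V)` on `V^*`: `(w f)(v) = f(w⁻¹ v)` -/
def act (w : V ≃ₗ[ℂ] V) (f : Module.Dual ℂ V) : Module.Dual ℂ V :=
  f ∘ₗ ((w⁻¹ : V ≃ₗ[ℂ] V) : V →ₗ[ℂ] V)

/-- `w` is a reflection: `w - 1` has rank one -/
def IsReflection (w : V ≃ₗ[ℂ] V) : Prop :=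
  Module.finrank ℂ (LinearMap.range ((w : V →ₗ[ℂ] V) - LinearMap.id)) = 1

/-- generators of the rational Cherednik algebra: `x ∈ V^*`, `y ∈ V` and `w ∈ W` -/
inductive Gen (W : Subgroup (V ≃ₗ[ℂ] V)) : Type
  | x : Module.Dual ℂ V → Gen W
  | y : V → Gen W
  | g : W → Gen W

/-- the free algebra on the generators -/
abbrev Fr (W : Subgroup (V ≃ₗ[ℂ] V)) : Type := FreeAlgebra ℂ (Gen W)

/-- the generator `x` -/
def X (W : Subgroup (V ≃ₗ[ℂ] V)) (f : Module.Dual ℂ V) : Fr W := FreeAlgebra.ι ℂ (Gen.x f)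
/-- the generator `y` -/
def Y (W : Subgroup (V ≃ₗ[ℂ] V)) (v : V) : Fr W := FreeAlgebra.ι ℂ (Gen.y v)
/-- the generator `w` -/
def G (W : Subgroup (V ≃ₗ[ℂ] V)) (w : W) : Fr W := FreeAlgebra.ι ℂ (Gen.g w)

open Classical in
/-- The defining relations of the restricted rational Cherednik algebra of `W` with parameter `c`:
the relations of `T(V ⊕ V^*) ⋊ ℂ W`, the commutation relations
`[x, x'] = 0`, `[y, y'] = 0`, `[y, x] = - ∑_s c(s) ⟨x - s(x), y⟩ s` (sum over the reflections of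
`W`; with `s(x) = x - ⟨x, α_s^∨⟩ α_s` one has `⟨x - s(x), y⟩ = ⟨α_s, y⟩ ⟨x, α_s^∨⟩`), and the
vanishing of the averages `∑_w w(x_1) ⋯ w(x_n)` and `∑_w w(y_1) ⋯ w(y_n)`, `n ≥ 1`, which span
the `W`-invariants of positive degree in `ℂ[V]` and in `ℂ[V^*]`. -/
inductive Rel (W : Subgroup (V ≃ₗ[ℂ] V)) [Fintype W] (c : W → ℂ) : Fr W → Fr W → Prop
  | x_add (f f' : Module.Dual ℂ V) : Rel W c (X W (f + f')) (X W f + X W f')
  | x_smul (t : ℂ) (f : Module.Dual ℂ V) : Rel W c (X W (t • f)) (t • X W f)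
  | y_add (v v' : V) : Rel W c (Y W (v + v')) (Y W v + Y W v')
  | y_smul (t : ℂ) (v : V) : Rel W c (Y W (t • v)) (t • Y W v)
  | g_one : Rel W c (G W 1) 1
  | g_mul (w w' : W) : Rel W c (G W (w * w')) (G W w * G W w')
  | g_x (w : W) (f : Module.Dual ℂ V) : Rel W c (G W w * X W f) (X W (act w f) * G W w)
  | g_y (w : W) (v : V) : Rel W c (G W w * Y W v) (Y W ((w : V ≃ₗ[ℂ] V) v) * G W w)
  | x_x (f f' : Module.Dual ℂ V) : Rel W c (X W f * X W f') (X W f' * X W f)
  | y_y (v v' : V) : Rel W c (Y W v * Y W v') (Y W v' * Y W v)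
  | y_x (v : V) (f : Module.Dual ℂ V) : Rel W c (Y W v * X W f - X W f * Y W v)
      (-∑ s : W, if IsReflection (s : V ≃ₗ[ℂ] V) then (c s * (f - act s f) v) • G W s else 0)
  | inv_x (l : List (Module.Dual ℂ V)) (hl : l ≠ []) :
      Rel W c (∑ w : W, (l.map fun f => X W (act w f)).prod) 0
  | inv_y (l : List V) (hl : l ≠ []) :
      Rel W c (∑ w : W, (l.map fun v => Y W ((w : V ≃ₗ[ℂ] V) v)).prod) 0

/-- the restricted rational Cherednik algebra `H̄_c(W)` -/
abbrev RRCA (W : Subgroup (V ≃ₗ[ℂ] V)) [Fintype W] (c : W → ℂ) : Type := RingQuot (Rel W c)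

/-- `W` is a finite real reflection group (finite Coxeter group) acting on the complexification of
its reflection representation: it is generated by reflections, and there is a basis of `V` in which
all elements of `W` have real matrices -/
def IsCoxeter (W : Subgroup (V ≃ₗ[ℂ] V)) : Prop :=
  Finite W ∧ Subgroup.closure {s | s ∈ W ∧ IsReflection s} = W ∧
  ∃ (n : ℕ) (b : Module.Basis (Fin n) ℂ V), ∀ w ∈ W, ∀ i j, (b.repr (w (b j)) i).im = 0

end

end Pool.Agent.H468R3
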