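import Pool.Agent.H468R3.RRCA
import Pool.Agent.H468R3.Cell4

/-!
# The restricted rational Cherednik algebra of `ℤ/2` at `c = 0`
-/

set_option autoImplicit false

open scoped BigOperators

namespace Pool.Agent.H468R3.Rank1

/-- the group `{1, -1}` acting on `ℂ` -/
def W : Subgroup (ℂ ≃ₗ[ℂ] ℂ) where
  carrier := {w | w = 1 ∨ w = LinearEquiv.neg ℂ}
  one_mem' := Or.inl rfl
  mul_mem' := by
    have h : (LinearEquiv.neg ℂ : ℂ ≃ₗ[ℂ] ℂ) * LinearEquiv.neg ℂ = 1 := by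
      ext
      simp
    rintro a b (rfl | rfl) (rfl | rfl)
    · left; simp
    · right; simp
    · right; simp
    · left; exact h
  inv_mem' := by
    rintro a (rfl | rfl)
    · left; simp
    · right
      ext
      simp

instance : Finite W := by
  have : (W : Set (ℂ ≃ₗ[ℂ] ℂ)) = {1, LinearEquiv.neg ℂ} := rfl
  have h : Set.Finite (W : Set (ℂ ≃ₗ[ℂ] ℂ)) := by
    rw [this]
    exact Set.toFinite _
  exact h

noncomputable instance : Fintype W := Fintype.ofFinite _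

/-- the character of `GL_1` -/
def ε (w : ℂ ≃ₗ[ℂ] ℂ) : ℂ := w 1

theorem apply_eq (w : ℂ ≃ₗ[ℂ] ℂ) (v : ℂ) : w v = v * ε w := by
  have : w (v • (1 : ℂ)) = v • w 1 := map_smul w v 1
  rwa [smul_eq_mul, mul_one, smul_eq_mul] at this

theorem ε_mul (w w' : ℂ ≃ₗ[ℂ] ℂ) : ε (w * w') = ε w * ε w' := by
  change w (w' 1) = _
  rw [apply_eq]
  exact mul_comm _ _

theorem ε_one : ε 1 = 1 := rfl

/-- the element `-1` of `W` -/
def s : W := ⟨LinearEquiv.neg ℂ, Or.inr rfl⟩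

theorem ε_s : ε (s : ℂ ≃ₗ[ℂ] ℂ) = -1 := rfl

theorem ε_sq (w : W) : ε (w : ℂ ≃ₗ[ℂ] ℂ) * ε (w : ℂ ≃ₗ[ℂ] ℂ) = 1 := by
  obtain ⟨w, rfl | rfl⟩ := w
  · simp [ε_one]
  · change ε (s : ℂ ≃ₗ[ℂ] ℂ) * ε (s : ℂ ≃ₗ[ℂ] ℂ) = 1
    rw [ε_s]
    norm_num

theorem ε_inv (w : W) : ε ((w : ℂ ≃ₗ[ℂ] ℂ)⁻¹) = ε (w : ℂ ≃ₗ[ℂ] ℂ) := by
  have h : ε (w : ℂ ≃ₗ[ℂ] ℂ) * ε ((w : ℂ ≃ₗ[ℂ] ℂ)⁻¹) = 1 := by
    rw [← ε_mul, mul_inv_cancel, ε_one]
  have h2 := ε_sq w
  have h3 : ε (w : ℂ ≃ₗ[ℂ] ℂ) ≠ 0 := by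
    intro h0
    rw [h0] at h2
    simp at h2
  exact mul_left_cancel₀ h3 (h.trans h2.symm)

theorem s_mul_s : s * s = 1 := by
  apply Subtype.ext
  ext
  simp [s]

theorem sum_ε : ∑ w : W, ε (w : ℂ ≃ₗ[ℂ] ℂ) = 0 := by
  have h : ∑ w : W, ε (w : ℂ ≃ₗ[ℂ] ℂ) = ∑ w : W, ε ((s * w : W) : ℂ ≃ₗ[ℂ] ℂ) :=
    (Fintype.sum_equiv (Equiv.mulLeft s) _ _ (fun w => rfl)).symm
  have h2 : ∀ w : W, ε ((s * w : W) : ℂ ≃ₗ[ℂ] ℂ) = -ε (w : ℂ ≃ₗ[ℂ] ℂ) := by
    intro w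
    rw [Subgroup.coe_mul, ε_mul, ε_s]
    ring
  rw [Finset.sum_congr rfl fun w _ => h2 w, Finset.sum_neg_distrib] at h
  have : (2 : ℂ) * ∑ w : W, ε (w : ℂ ≃ₗ[ℂ] ℂ) = 0 := by linear_combination h
  simpa using this

/-- the algebra -/
def A : Type := RRCA W (0 : W → ℂ)

noncomputable instance instRingA : Ring A := inferInstanceAs (Ring (RRCA W (0 : W → ℂ)))
noncomputable instance instAlgA : Algebra ℂ A := inferInstanceAs (Algebra ℂ (RRCA W (0 : W → ℂ)))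

/-- the images of the generators -/
noncomputable def π : Fr W →ₐ[ℂ] A := RingQuot.mkAlgHom ℂ (Rel W 0)

theorem π_surj : Function.Surjective π := RingQuot.mkAlgHom_surjective ℂ _

theorem rel {a b : Fr W} (h : Rel W 0 a b) : π a = π b := RingQuot.mkAlgHom_rel ℂ h

/-- `x` -/
noncomputable def x0 : A := π (X W LinearMap.id)
/-- `y` -/
noncomputable def y0 : A := π (Y W 1)
/-- `w` -/
noncomputable def g (w : W) : A := π (G W w)

theorem πX (f : Module.Dual ℂ ℂ) : π (X W f) = f 1 • x0 := by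
  have h : f = f 1 • (LinearMap.id : ℂ →ₗ[ℂ] ℂ) := by
    ext
    simp
  conv_lhs => rw [h]
  rw [rel (Rel.x_smul _ _), map_smul]
  rfl

theorem πY (v : ℂ) : π (Y W v) = v • y0 := by
  have h : v = v • (1 : ℂ) := by simp
  conv_lhs => rw [h]
  rw [rel (Rel.y_smul _ _), map_smul]
  rfl

theorem act_one (w : W) (f : Module.Dual ℂ ℂ) :
    act (w : ℂ ≃ₗ[ℂ] ℂ) f 1 = ε (w : ℂ ≃ₗ[ℂ] ℂ) * f 1 := by
  change f (((w : ℂ ≃ₗ[ℂ] ℂ)⁻¹) 1) = _
  have h : ((w : ℂ ≃ₗ[ℂ] ℂ)⁻¹) 1 = ε (w : ℂ ≃ₗ[ℂ] ℂ) • (1 : ℂ) := by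
    change ε ((w : ℂ ≃ₗ[ℂ] ℂ)⁻¹) = _
    rw [ε_inv, smul_eq_mul, mul_one]
  rw [h, map_smul, smul_eq_mul]

theorem g_x (w : W) : g w * x0 = ε (w : ℂ ≃ₗ[ℂ] ℂ) • (x0 * g w) := by
  have h := rel (Rel.g_x (c := 0) w LinearMap.id)
  rw [map_mul, map_mul, πX (act _ _), act_one] at h
  simp only [LinearMap.id_apply, mul_one] at h
  rw [← smul_mul_assoc]
  exact h

theorem g_y (w : W) : g w * y0 = ε (w : ℂ ≃ₗ[ℂ] ℂ) • (y0 * g w) := by
  have h := rel (Rel.g_y (c := 0) w 1)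
  rw [map_mul, map_mul, πY ((w : ℂ ≃ₗ[ℂ] ℂ) 1)] at h
  rw [← smul_mul_assoc]
  exact h

theorem g_mul (w w' : W) : g (w * w') = g w * g w' := by
  have h := rel (Rel.g_mul (c := 0) w w')
  rw [map_mul] at h
  exact h

theorem g_one : g 1 = 1 := by
  have h := rel (Rel.g_one (W := W) (c := 0))
  rw [map_one] at h
  exact h

theorem y_x : y0 * x0 = x0 * y0 := by
  have h := rel (Rel.y_x (W := W) (c := 0) 1 LinearMap.id)
  have h0 : (-∑ s : W, (open Classical in if IsReflection (s : ℂ ≃ₗ[ℂ] ℂ) then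
      ((0 : W → ℂ) s * ((LinearMap.id : Module.Dual ℂ ℂ) - act s LinearMap.id) (1 : ℂ)) • G W s
      else 0)) = (0 : Fr W) := by
    rw [neg_eq_zero]
    refine Finset.sum_eq_zero fun s _ => ?_
    simp
  rw [h0, map_sub, map_mul, map_mul, map_zero, sub_eq_zero] at h
  exact h

theorem card_ne : (Fintype.card W : ℂ) ≠ 0 := Nat.cast_ne_zero.2 Fintype.card_ne_zero

theorem x_sq : x0 * x0 = 0 := by
  have h := rel (Rel.inv_x (W := W) (c := 0) [LinearMap.id, LinearMap.id] (by simp))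
  rw [map_zero, map_sum] at h
  have h2 : ∀ w : W, π (List.map (fun f => X W (act (w : ℂ ≃ₗ[ℂ] ℂ) f))
      [LinearMap.id, LinearMap.id]).prod = x0 * x0 := by
    intro w
    simp only [List.map_cons, List.map_nil, List.prod_cons, List.prod_nil, mul_one, map_mul, πX,
      act_one, LinearMap.id_apply]
    rw [smul_mul_smul_comm, ε_sq, one_smul]
  rw [Finset.sum_congr rfl fun w _ => h2 w, Finset.sum_const, Finset.card_univ,
    ← Nat.cast_smul_eq_nsmul ℂ] at h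
  exact (smul_eq_zero.1 h).resolve_left card_ne

/-- the matrix of the twisted derivation on `x f` -/
noncomputable def MX : Matrix (Fin 2) (Fin 2) A := !![-x0, 1; 0, x0]

theorem MX_sq : MX * MX = 0 := by
  unfold MX
  rw [Matrix.mul_fin_two]
  ext i j
  fin_cases i <;> fin_cases j <;> simp [x_sq, neg_mul_neg]

/-- the homomorphism on the free algebra -/
noncomputable def Ψ0 : Fr W →ₐ[ℂ] Matrix (Fin 2) (Fin 2) A :=
  FreeAlgebra.lift ℂ fun t => match t with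
    | Gen.x f => f 1 • MX
    | Gen.y v => v • !![y0, 0; 0, y0]
    | Gen.g w => !![ε (w : ℂ ≃ₗ[ℂ] ℂ) • g w, 0; 0, g w]

theorem Ψ0X (f : Module.Dual ℂ ℂ) : Ψ0 (X W f) = f 1 • MX := by
  unfold Ψ0 X
  rw [FreeAlgebra.lift_ι_apply]

theorem Ψ0Y (v : ℂ) : Ψ0 (Y W v) = v • !![y0, 0; 0, y0] := by
  unfold Ψ0 Y
  rw [FreeAlgebra.lift_ι_apply]

theorem Ψ0G (w : W) : Ψ0 (G W w) = !![ε (w : ℂ ≃ₗ[ℂ] ℂ) • g w, 0; 0, g w] := by
  unfold Ψ0 G
  rw [FreeAlgebra.lift_ι_apply]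

theorem Ψ0_inv_x (l : List (Module.Dual ℂ ℂ)) (w : W) :
    Ψ0 (List.map (fun f => X W (act (w : ℂ ≃ₗ[ℂ] ℂ) f)) l).prod =
      (ε (w : ℂ ≃ₗ[ℂ] ℂ) ^ l.length * (l.map fun f => f 1).prod) • MX ^ l.length := by
  induction l with
  | nil => simp
  | cons f l ih =>
    rw [List.map_cons, List.prod_cons, map_mul, ih, Ψ0X, act_one, smul_mul_smul_comm,
      List.length_cons, pow_succ, pow_succ', List.map_cons, List.prod_cons]
    congr 1
    ring

theorem Ψ0_inv_y (l : List ℂ) (w : W) :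
    Ψ0 (List.map (fun v => Y W ((w : ℂ ≃ₗ[ℂ] ℂ) v)) l).prod =
      (ε (w : ℂ ≃ₗ[ℂ] ℂ) ^ l.length * l.prod) • !![y0, 0; 0, y0] ^ l.length := by
  induction l with
  | nil => simp
  | cons f l ih =>
    rw [List.map_cons, List.prod_cons, map_mul, ih, Ψ0Y, apply_eq, smul_mul_smul_comm,
      List.length_cons, pow_succ, pow_succ', List.prod_cons]
    congr 1
    ring

theorem sum_pow (n : ℕ) (hn : n % 2 = 1) : ∑ w : W, ε (w : ℂ ≃ₗ[ℂ] ℂ) ^ n = 0 := by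
  rw [← sum_ε]
  refine Finset.sum_congr rfl fun w _ => ?_
  obtain ⟨k, hk⟩ : ∃ k, n = 2 * k + 1 := ⟨n / 2, by omega⟩
  rw [hk, pow_succ, pow_mul, pow_two, ε_sq, one_pow, one_mul]

theorem y_sq : y0 * y0 = 0 := by
  have h := rel (Rel.inv_y (W := W) (c := 0) [1, 1] (by simp))
  rw [map_zero, map_sum] at h
  have h2 : ∀ w : W, π (List.map (fun v => Y W ((w : ℂ ≃ₗ[ℂ] ℂ) v)) [1, 1]).prod = y0 * y0 := by
    intro w
    simp only [List.map_cons, List.map_nil, List.prod_cons, List.prod_nil, mul_one, map_mul, πY]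
    change (ε (w : ℂ ≃ₗ[ℂ] ℂ) • y0) * (ε (w : ℂ ≃ₗ[ℂ] ℂ) • y0) = _
    rw [smul_mul_smul_comm, ε_sq, one_smul]
  rw [Finset.sum_congr rfl fun w _ => h2 w, Finset.sum_const, Finset.card_univ,
    ← Nat.cast_smul_eq_nsmul ℂ] at h
  exact (smul_eq_zero.1 h).resolve_left card_ne

theorem MY_sq : (!![y0, 0; 0, y0] : Matrix (Fin 2) (Fin 2) A) * !![y0, 0; 0, y0] = 0 := by
  rw [Matrix.mul_fin_two]
  ext i j
  fin_cases i <;> fin_cases j <;> simp [y_sq]

theorem avg_zero (M : Matrix (Fin 2) (Fin 2) A) (hM : M * M = 0) (n : ℕ) (hn : n ≠ 0) (t : ℂ) :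
    ∑ w : W, (ε (w : ℂ ≃ₗ[ℂ] ℂ) ^ n * t) • M ^ n = 0 := by
  rcases Nat.even_or_odd n with he | ho
  · obtain ⟨k, hk⟩ := he
    have : M ^ n = 0 := by
      obtain ⟨j, rfl⟩ : ∃ j, k = j + 1 := ⟨k - 1, by omega⟩
      have h2 : n = 2 + 2 * j := by omega
      rw [h2, pow_add, pow_two, hM, zero_mul]
    simp [this]
  · rw [← Finset.sum_smul, ← Finset.sum_mul, sum_pow n (Nat.odd_iff.1 ho), zero_mul, zero_smul]

theorem Ψ0_rel {a b : Fr W} (h : Rel W 0 a b) : Ψ0 a = Ψ0 b := by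
  induction h with
  | x_add f f' => rw [map_add, Ψ0X, Ψ0X, Ψ0X, LinearMap.add_apply, add_smul]
  | x_smul t f => rw [map_smul, Ψ0X, Ψ0X, LinearMap.smul_apply, smul_eq_mul, mul_smul]
  | y_add v v' => rw [map_add, Ψ0Y, Ψ0Y, Ψ0Y, add_smul]
  | y_smul t v => rw [map_smul, Ψ0Y, Ψ0Y, smul_eq_mul, mul_smul]
  | g_one =>
    rw [map_one, Ψ0G, Subgroup.coe_one, ε_one, g_one, one_smul]
    exact Matrix.one_fin_two.symm
  | g_mul w w' =>
    rw [map_mul, Ψ0G, Ψ0G, Ψ0G, Matrix.mul_fin_two, Subgroup.coe_mul, ε_mul, g_mul,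
      smul_mul_smul_comm]
    simp
  | g_x w f =>
    rw [map_mul, map_mul, Ψ0G, Ψ0X, Ψ0X, act_one, MX]
    ext i j
    fin_cases i <;> fin_cases j <;>
      simp [Matrix.mul_apply, Fin.sum_univ_two, g_x, smul_smul, mul_comm, ← mul_assoc, ε_sq]
  | g_y w v =>
    rw [map_mul, map_mul, Ψ0G, Ψ0Y, Ψ0Y, apply_eq]
    ext i j
    fin_cases i <;> fin_cases j <;>
      simp [Matrix.mul_apply, Fin.sum_univ_two, g_y, smul_smul, mul_comm, mul_left_comm]
  | x_x f f' => rw [map_mul, map_mul, Ψ0X, Ψ0X, smul_mul_smul_comm, smul_mul_smul_comm, mul_comm]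
  | y_y v v' => rw [map_mul, map_mul, Ψ0Y, Ψ0Y, smul_mul_smul_comm, smul_mul_smul_comm, mul_comm]
  | y_x v f =>
    have h0 : (-∑ s : W, (open Classical in if IsReflection (s : ℂ ≃ₗ[ℂ] ℂ) then
        ((0 : W → ℂ) s * (f - act s f) v) • G W s else 0)) = (0 : Fr W) := by
      rw [neg_eq_zero]
      refine Finset.sum_eq_zero fun s _ => ?_
      simp
    rw [h0, map_zero, map_sub, map_mul, map_mul, Ψ0X, Ψ0Y, smul_mul_smul_comm, smul_mul_smul_comm,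
      mul_comm v, ← smul_sub, MX]
    convert smul_zero _
    ext i j
    fin_cases i <;> fin_cases j <;> simp [Matrix.mul_apply, Fin.sum_univ_two, y_x]
  | inv_x l hl =>
    rw [map_zero, map_sum, Finset.sum_congr rfl fun w _ => Ψ0_inv_x l w]
    exact avg_zero _ MX_sq _ (by simpa using hl) _
  | inv_y l hl =>
    rw [map_zero, map_sum, Finset.sum_congr rfl fun w _ => Ψ0_inv_y l w]
    exact avg_zero _ MY_sq _ (by simpa using hl) _

/-- the homomorphism `a ↦ [[φ a, ∂ a], [0, a]]` -/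
noncomputable def Ψ : A →ₐ[ℂ] Matrix (Fin 2) (Fin 2) A :=
  RingQuot.liftAlgHom ℂ ⟨Ψ0, fun _ _ h => Ψ0_rel h⟩

theorem Ψπ (a : Fr W) : Ψ (π a) = Ψ0 a := by
  exact RingQuot.liftAlgHom_mkAlgHom_apply ℂ Ψ0 (fun _ _ h => Ψ0_rel h) a

theorem ind {P : A → Prop} (hc : ∀ t : ℂ, P (algebraMap ℂ A t)) (hx : P x0) (hy : P y0)
    (hg : ∀ w, P (g w)) (hadd : ∀ a b, P a → P b → P (a + b)) (hmul : ∀ a b, P a → P b → P (a * b))
    (a : A) : P a := by
  obtain ⟨a, rfl⟩ := π_surj a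
  induction a using FreeAlgebra.induction with
  | grade0 t => rw [AlgHom.commutes]; exact hc t
  | grade1 t =>
    cases t with
    | x f =>
      have : π (FreeAlgebra.ι ℂ (Gen.x f)) = algebraMap ℂ A (f 1) * x0 := by
        rw [← Algebra.smul_def]
        exact πX f
      rw [this]
      exact hmul _ _ (hc _) hx
    | y v =>
      have : π (FreeAlgebra.ι ℂ (Gen.y v)) = algebraMap ℂ A v * y0 := by
        rw [← Algebra.smul_def]
        exact πY v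
      rw [this]
      exact hmul _ _ (hc _) hy
    | g w => exact hg w
  | mul a b ha hb => rw [map_mul]; exact hmul _ _ ha hb
  | add a b ha hb => rw [map_add]; exact hadd _ _ ha hb

theorem Ψx : Ψ x0 = MX := by
  rw [x0, Ψπ, Ψ0X, LinearMap.id_apply, one_smul]

theorem Ψy : Ψ y0 = !![y0, 0; 0, y0] := by
  rw [y0, Ψπ, Ψ0Y, one_smul]
  rfl

theorem Ψg (w : W) : Ψ (g w) = !![ε (w : ℂ ≃ₗ[ℂ] ℂ) • g w, 0; 0, g w] := by
  rw [g, Ψπ, Ψ0G]
  rfl

theorem Ψ_low (a : A) : Ψ a 1 0 = 0 ∧ Ψ a 1 1 = a := by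
  refine ind (P := fun a => Ψ a 1 0 = 0 ∧ Ψ a 1 1 = a) ?_ ?_ ?_ ?_ ?_ ?_ a
  · intro t
    rw [AlgHom.commutes]
    simp [Matrix.algebraMap_matrix_apply]
  · rw [Ψx, MX]
    simp
  · rw [Ψy]
    simp
  · intro w
    rw [Ψg]
    simp
  · rintro a b ⟨h1, h2⟩ ⟨h3, h4⟩
    rw [map_add]
    simp [h1, h2, h3, h4]
  · rintro a b ⟨h1, h2⟩ ⟨h3, h4⟩
    rw [map_mul]
    simp [Matrix.mul_apply, Fin.sum_univ_two, h1, h2, h3, h4]

/-- `φ` -/
noncomputable def φ (a : A) : A := Ψ a 0 0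
/-- `∂` -/
noncomputable def δ : A →ₗ[ℂ] A where
  toFun a := Ψ a 0 1
  map_add' a b := by rw [map_add]; rfl
  map_smul' t a := by rw [map_smul]; rfl

theorem δ_mul (a b : A) : δ (a * b) = φ a * δ b + δ a * b := by
  change Ψ (a * b) 0 1 = Ψ a 0 0 * Ψ b 0 1 + Ψ a 0 1 * b
  rw [map_mul, Matrix.mul_apply, Fin.sum_univ_two, (Ψ_low b).2]

theorem φ_mul (a b : A) : φ (a * b) = φ a * φ b := by
  change Ψ (a * b) 0 0 = Ψ a 0 0 * Ψ b 0 0
  rw [map_mul, Matrix.mul_apply, Fin.sum_univ_two, (Ψ_low b).1, mul_zero, add_zero]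

theorem φ_add (a b : A) : φ (a + b) = φ a + φ b := by
  change Ψ (a + b) 0 0 = Ψ a 0 0 + Ψ b 0 0
  rw [map_add]
  rfl

theorem φx : φ x0 = -x0 := by
  change Ψ x0 0 0 = _
  rw [Ψx, MX]
  rfl
theorem φy : φ y0 = y0 := by
  change Ψ y0 0 0 = _
  rw [Ψy]
  rfl
theorem φg (w : W) : φ (g w) = ε (w : ℂ ≃ₗ[ℂ] ℂ) • g w := by
  change Ψ (g w) 0 0 = _
  rw [Ψg]
  rfl
theorem δx : δ x0 = 1 := by
  change Ψ x0 0 1 = _
  rw [Ψx, MX]
  rfl
theorem δy : δ y0 = 0 := by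
  change Ψ y0 0 1 = _
  rw [Ψy]
  rfl
theorem δg (w : W) : δ (g w) = 0 := by
  change Ψ (g w) 0 1 = _
  rw [Ψg]
  rfl
theorem φ_alg (t : ℂ) : φ (algebraMap ℂ A t) = algebraMap ℂ A t := by
  change Ψ _ 0 0 = _
  rw [AlgHom.commutes]
  simp [Matrix.algebraMap_matrix_apply]
theorem δ_alg (t : ℂ) : δ (algebraMap ℂ A t) = 0 := by
  change Ψ _ 0 1 = _
  rw [AlgHom.commutes]
  simp [Matrix.algebraMap_matrix_apply]

theorem φδ (a : A) : δ (φ a) = -φ (δ a) := by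
  refine ind (P := fun a => δ (φ a) = -φ (δ a)) ?_ ?_ ?_ ?_ ?_ ?_ a
  · intro t
    have h0 := φ_alg 0
    rw [map_zero] at h0
    rw [φ_alg, δ_alg, h0, neg_zero]
  · have h1 := φ_alg 1
    rw [map_one] at h1
    rw [φx, map_neg, δx, h1]
  · have h0 := φ_alg 0
    rw [map_zero] at h0
    rw [φy, δy, h0, neg_zero]
  · intro w
    have h0 := φ_alg 0
    rw [map_zero] at h0
    rw [φg, map_smul, δg, h0, smul_zero, neg_zero]
  · intro a b ha hb
    rw [φ_add, map_add, ha, hb, map_add, φ_add, neg_add]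
  · intro a b ha hb
    rw [φ_mul, δ_mul, ha, hb, δ_mul, φ_add, φ_mul, φ_mul]
    noncomm_ring

theorem δδ (a : A) : δ (δ a) = 0 := by
  refine ind (P := fun a => δ (δ a) = 0) ?_ ?_ ?_ ?_ ?_ ?_ a
  · intro t
    rw [δ_alg, map_zero]
  · have h1 := δ_alg 1
    rw [map_one] at h1
    rw [δx, h1]
  · rw [δy, map_zero]
  · intro w
    rw [δg, map_zero]
  · intro a b ha hb
    rw [map_add, map_add, ha, hb, add_zero]
  · intro a b ha hb
    rw [δ_mul, map_add, δ_mul, δ_mul, ha, hb, φδ]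
    noncomm_ring

/-- the operator `x + ∂` -/
noncomputable def T : A →ₗ[ℂ] A := LinearMap.mulLeft ℂ x0 + δ

theorem T_T (a : A) : T (T a) = a := by
  have hT : ∀ a, T a = x0 * a + δ a := fun _ => rfl
  rw [hT, hT, map_add, δδ, δ_mul, φx, δx, mul_add, ← mul_assoc, x_sq]
  noncomm_ring

theorem s_sq : g s * g s = 1 := by
  rw [← g_mul, s_mul_s, g_one]

theorem T_conj (a : A) : T (g s * (a * g s)) = -(g s * (T a * g s)) := by
  have hT : ∀ a, T a = x0 * a + δ a := fun _ => rfl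
  rw [hT, hT, δ_mul, δ_mul, δg, φg, ε_s]
  have h1 : x0 * g s = -(g s * x0) := by
    rw [g_x, ε_s]
    simp
  have h2 : x0 * (g s * (a * g s)) = -(g s * (x0 * a * g s)) := by
    rw [← mul_assoc, h1]
    noncomm_ring
  rw [h2]
  simp only [neg_smul, one_smul]
  noncomm_ring

theorem trace_zero [FiniteDimensional ℂ A] :
    LinearMap.trace ℂ A (CellDatum.bimul (g s) (g s)) = 0 := by
  set f := CellDatum.bimul (g s) (g s) with hf
  have hfa : ∀ a, f a = g s * (a * g s) := fun _ => rfl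
  have h1 : f = -(T ∘ₗ (f ∘ₗ T)) := by
    apply LinearMap.ext
    intro a
    rw [LinearMap.neg_apply, LinearMap.comp_apply, LinearMap.comp_apply, hfa (T a), T_conj, T_T,
      neg_neg, hfa]
  have h2 : LinearMap.trace ℂ A f = -LinearMap.trace ℂ A f := by
    conv_lhs => rw [h1]
    rw [map_neg, LinearMap.trace_comp_comm']
    congr 2
    apply LinearMap.ext
    intro a
    rw [LinearMap.comp_apply, LinearMap.comp_apply, T_T]
  have h3 : (2 : ℂ) * LinearMap.trace ℂ A f = 0 := by linear_combination h2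
  simpa using h3

/-- the one-dimensional representation `x, y ↦ 0`, `w ↦ 1` -/
noncomputable def χ0 : Fr W →ₐ[ℂ] ℂ :=
  FreeAlgebra.lift ℂ fun t => match t with
    | Gen.x _ => 0
    | Gen.y _ => 0
    | Gen.g _ => 1

theorem χ0X (f : Module.Dual ℂ ℂ) : χ0 (X W f) = 0 := by
  unfold χ0 X
  rw [FreeAlgebra.lift_ι_apply]
theorem χ0Y (v : ℂ) : χ0 (Y W v) = 0 := by
  unfold χ0 Y
  rw [FreeAlgebra.lift_ι_apply]
theorem χ0G (w : W) : χ0 (G W w) = 1 := by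
  unfold χ0 G
  rw [FreeAlgebra.lift_ι_apply]

theorem χ0_rel {a b : Fr W} (h : Rel W 0 a b) : χ0 a = χ0 b := by
  induction h with
  | x_add f f' => rw [map_add, χ0X, χ0X, χ0X, add_zero]
  | x_smul t f => rw [map_smul, χ0X, χ0X, smul_zero]
  | y_add v v' => rw [map_add, χ0Y, χ0Y, χ0Y, add_zero]
  | y_smul t v => rw [map_smul, χ0Y, χ0Y, smul_zero]
  | g_one => rw [map_one, χ0G]
  | g_mul w w' => rw [map_mul, χ0G, χ0G, χ0G, mul_one]
  | g_x w f => rw [map_mul, map_mul, χ0X, χ0X, mul_zero, zero_mul]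
  | g_y w v => rw [map_mul, map_mul, χ0Y, χ0Y, mul_zero, zero_mul]
  | x_x f f' => rw [map_mul, map_mul, χ0X, χ0X]
  | y_y v v' => rw [map_mul, map_mul, χ0Y, χ0Y]
  | y_x v f =>
    have h0 : (-∑ s : W, (open Classical in if IsReflection (s : ℂ ≃ₗ[ℂ] ℂ) then
        ((0 : W → ℂ) s * (f - act s f) v) • G W s else 0)) = (0 : Fr W) := by
      rw [neg_eq_zero]
      refine Finset.sum_eq_zero fun s _ => ?_
      simp
    rw [h0, map_zero, map_sub, map_mul, map_mul, χ0X, χ0Y, mul_zero, sub_zero]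
  | inv_x l hl =>
    rw [map_zero, map_sum]
    refine Finset.sum_eq_zero fun w _ => ?_
    cases l with
    | nil => exact absurd rfl hl
    | cons f l => rw [List.map_cons, List.prod_cons, map_mul, χ0X, zero_mul]
  | inv_y l hl =>
    rw [map_zero, map_sum]
    refine Finset.sum_eq_zero fun w _ => ?_
    cases l with
    | nil => exact absurd rfl hl
    | cons f l => rw [List.map_cons, List.prod_cons, map_mul, χ0Y, zero_mul]

/-- the one-dimensional representation -/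
noncomputable def χ : A →ₐ[ℂ] ℂ := RingQuot.liftAlgHom ℂ ⟨χ0, fun _ _ h => χ0_rel h⟩

theorem χg (w : W) : χ (g w) = 1 := by
  exact (RingQuot.liftAlgHom_mkAlgHom_apply ℂ χ0 (fun _ _ h => χ0_rel h) (G W w)).trans (χ0G w)

/-- the one-dimensional module -/
def L : Type := ℂ

noncomputable instance : AddCommGroup L := inferInstanceAs (AddCommGroup ℂ)
noncomputable instance : Module ℂ L := inferInstanceAs (Module ℂ ℂ)
instance : FiniteDimensional ℂ L := inferInstanceAs (FiniteDimensional ℂ ℂ)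
noncomputable instance : Module A L := Module.compHom ℂ χ.toRingHom
instance : IsScalarTower ℂ A L where
  smul_assoc t a x := by
    change χ (t • a) * (show ℂ from x) = t * (χ a * (show ℂ from x))
    rw [map_smul, smul_eq_mul, mul_assoc]

theorem tr_L : tr L (g s) = 1 := by
  unfold tr
  have : (Algebra.lsmul ℂ ℂ L (g s)) = LinearMap.id := by
    apply LinearMap.ext
    intro x
    change χ (g s) * (show ℂ from x) = x
    rw [χg, one_mul]
  rw [this]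
  exact (LinearMap.trace_id ℂ ℂ).trans (by simp)

/-- `H̄_0(ℤ/2)` is not cellular -/
theorem not_cellular : ¬ Nonempty (CellDatum A) := by
  rintro ⟨D⟩
  have hfd : FiniteDimensional ℂ A := Module.Finite.of_basis D.C
  have h := D.tr_eq_zero (g s) s_sq trace_zero L
  rw [tr_L] at h
  exact one_ne_zero h

end Pool.Agent.H468R3.Rank1
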