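import Pool.Agent.H468R3.Alg16
import Pool.Agent.H468R3.ExtOne

/-!
# The rigid module over the 16-dimensional local symmetric algebra
-/

set_option autoImplicit false
set_option maxHeartbeats 4000000

universe u

open CategoryTheory Abelian MulOpposite

namespace Pool.Agent.H468R3

/-! ### Cyclic right modules `A / x A` -/

section cyclic

variable {A : Type u} [Ring A]

/-- the right ideal `x A` -/
def rid (x : A) : Submodule Aᵐᵒᵖ A := Submodule.span Aᵐᵒᵖ {x}

theorem mem_rid (x c : A) : c ∈ rid x ↔ ∃ u, c = x * u := by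
  unfold rid
  rw [Submodule.mem_span_singleton]
  constructor
  · rintro ⟨a, rfl⟩
    exact ⟨a.unop, rfl⟩
  · rintro ⟨u, rfl⟩
    exact ⟨op u, rfl⟩

/-- left multiplication as a map of right modules -/
def lmul (a : A) : A →ₗ[Aᵐᵒᵖ] A where
  toFun x := a * x
  map_add' := mul_add a
  map_smul' r x := by
    simp [mul_assoc]

theorem right_proj : Module.Projective Aᵐᵒᵖ A := by
  let e : Aᵐᵒᵖ ≃ₗ[Aᵐᵒᵖ] A :=
    { toFun := unop
      invFun := op
      left_inv := fun _ => rfl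
      right_inv := fun _ => rfl
      map_add' := fun _ _ => rfl
      map_smul' := fun _ _ => rfl }
  exact Module.Projective.of_equiv e

/-- the projection of the element `b` to `A / x A`, times `a` -/
theorem mk_smul (x : A) (b a : A) :
    (op a) • (Submodule.Quotient.mk b : A ⧸ rid x) = Submodule.Quotient.mk (b * a) := rfl

/-- **Criterion.** If `x z = 0`, `y x = 0` and every `b` with `y b z = 0` lies in `x A + A x` then
`Ext^1 (A / x A, A / x A) = 0`. -/
theorem ext_cyclic (x y z : A) (hxz : x * z = 0) (hyx : y * x = 0)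
    (H : ∀ b, y * b * z = 0 → ∃ u v, b = x * u + v * x) :
    Subsingleton (Ext (ModuleCat.of Aᵐᵒᵖ (A ⧸ rid x)) (ModuleCat.of Aᵐᵒᵖ (A ⧸ rid x)) 1) := by
  have := right_proj (A := A)
  refine ext_one_of_extend A (A ⧸ rid x) (A ⧸ rid x) (rid x).mkQ (Submodule.mkQ_surjective _) ?_
  intro f
  have hx : x ∈ LinearMap.ker (rid x).mkQ := by
    rw [Submodule.ker_mkQ, mem_rid]
    exact ⟨1, (mul_one x).symm⟩
  obtain ⟨b, hb⟩ := Submodule.Quotient.mk_surjective _ (f ⟨x, hx⟩)
  -- `b z ∈ x A`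
  have h1 : (op z) • f ⟨x, hx⟩ = 0 := by
    rw [← map_smul]
    have : (op z) • (⟨x, hx⟩ : LinearMap.ker (rid x).mkQ) = 0 := by
      apply Subtype.ext
      exact hxz
    rw [this, map_zero]
  rw [← hb, mk_smul, Submodule.Quotient.mk_eq_zero, mem_rid] at h1
  obtain ⟨c, hc⟩ := h1
  obtain ⟨u, v, huv⟩ := H b (by rw [mul_assoc, hc, ← mul_assoc, hyx, zero_mul])
  refine ⟨(rid x).mkQ ∘ₗ lmul v, ?_⟩
  rintro ⟨w, hw⟩
  have hw' := hw
  rw [Submodule.ker_mkQ, mem_rid] at hw'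
  obtain ⟨a, rfl⟩ := hw'
  have h2 : f ⟨x * a, hw⟩ = (op a) • f ⟨x, hx⟩ := by
    rw [← map_smul]
    rfl
  rw [h2, ← hb, mk_smul, huv]
  change (Submodule.Quotient.mk (v * (x * a)) : A ⧸ rid x) = _
  rw [Submodule.Quotient.eq, mem_rid]
  exact ⟨-(u * a), by noncomm_ring⟩

/-- `A / x A` is not projective if `x ≠ 0` lies in a proper right ideal all of whose translates
`1 + x c` are units. -/
theorem not_proj (x : A) (hx : x ≠ 0) (hu : ∀ c, IsUnit (1 + x * c)) :
    ¬ Module.Projective Aᵐᵒᵖ (A ⧸ rid x) := by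
  intro h
  obtain ⟨s, hs⟩ := Module.projective_lifting_property (rid x).mkQ LinearMap.id
    (Submodule.mkQ_surjective _)
  have h1 : (rid x).mkQ (s (Submodule.Quotient.mk 1)) = Submodule.Quotient.mk 1 := by
    have := LinearMap.congr_fun hs (Submodule.Quotient.mk 1)
    exact this
  set e : A := s (Submodule.Quotient.mk 1) with he
  have h2 : e - 1 ∈ rid x := (Submodule.Quotient.eq _).1 h1
  rw [mem_rid] at h2
  obtain ⟨c, hc⟩ := h2
  have h3 : IsUnit e := by
    have : e = 1 + x * c := by rw [← hc]; abel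
    rw [this]
    exact hu c
  have h4 : e * x = 0 := by
    have : (op x) • s (Submodule.Quotient.mk 1) = s ((op x) • Submodule.Quotient.mk 1) :=
      (map_smul s _ _).symm
    rw [mk_smul, one_mul] at this
    have h0 : (Submodule.Quotient.mk x : A ⧸ rid x) = 0 := by
      rw [Submodule.Quotient.mk_eq_zero, mem_rid]
      exact ⟨1, (mul_one x).symm⟩
    rw [h0, map_zero] at this
    exact this
  exact hx ((IsUnit.mul_right_eq_zero h3).1 h4)

end cyclic

/-! ### The algebra -/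

namespace B

variable {K : Type u} [Field K]

/-- `x0` -/
def x0 : B K := ⟨0, 1, 0, 0, 0, 0, 0, 0, 0, 0, 0, 0, 0, 0, 0, 0⟩
/-- `x1` -/
def x1 : B K := ⟨0, 0, 1, 0, 0, 0, 0, 0, 0, 0, 0, 0, 0, 0, 0, 0⟩
/-- `x3` -/
def x3 : B K := ⟨0, 0, 0, 0, 1, 0, 0, 0, 0, 0, 0, 0, 0, 0, 0, 0⟩

theorem x0x3 : (x0 : B K) * x3 = 0 := by
  ext <;> simp [x0, x3]

theorem x1x0 : (x1 : B K) * x0 = 0 := by
  ext <;> simp [x0, x1]

theorem x0_ne : (x0 : B K) ≠ 0 := by
  intro h
  have := congrArg B.c1 h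
  simp [x0] at this

theorem key (b : B K) (h : x1 * b * x3 = 0) : ∃ u v, b = x0 * u + v * x0 := by
  have e7 := congrArg B.c7 h
  have e11 := congrArg B.c11 h
  have e12 := congrArg B.c12 h
  have e14 := congrArg B.c14 h
  have e15 := congrArg B.c15 h
  simp [x1, x3] at e7 e11 e12 e14 e15
  refine ⟨⟨b.c1, b.c5, b.c6 - b.c9, b.c7 + b.c8, 0, 0, 0, -b.c11, -b.c13 - b.c14 - b.c12,
    b.c14, 0, b.c15, 0, 0, 0, 0⟩, ⟨0, 0, 0, -b.c8, b.c9, 0, 0, 0, 0, 0, b.c12, 0, 0, 0, 0, 0⟩, ?_⟩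
  ext <;> simp [x0] <;> grind

end B

end Pool.Agent.H468R3
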